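import Mathlib

/-!
# Basic facts on generalized Hadamard matrices `GH(5,8)`

`D : Fin 40 → Fin 40 → ZMod 5` with balanced row differences.  The rows and the columns of the
complex matrix `ζ ^ D` are orthogonal, so the column differences are balanced too; the trace
identity compares the fixed rows and the fixed columns of a symmetry.
-/

set_option autoImplicit false

open Finset

namespace Pool.Agent.GH5

/-- `D` is a generalized Hadamard matrix `GH(5,8)` over `ℤ/5`. -/
def IsGH (D : Fin 40 → Fin 40 → ZMod 5) : Prop :=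
  ∀ i j : Fin 40, i ≠ j → ∀ x : ZMod 5,
    (univ.filter fun k : Fin 40 => D i k - D j k = x).card = 8

/-- The standard additive character of `ℤ/5`. -/
noncomputable def e (x : ZMod 5) : ℂ := ZMod.stdAddChar x

theorem e_add (x y : ZMod 5) : e (x + y) = e x * e y := AddChar.map_add_eq_mul _ x y

theorem e_zero : e 0 = 1 := AddChar.map_zero_eq_one _

theorem e_neg (x : ZMod 5) : e (-x) = (starRingEnd ℂ) (e x) :=
  AddChar.map_neg_eq_conj _ x

theorem e_sub (x y : ZMod 5) : e (x - y) = e x * (starRingEnd ℂ) (e y) := by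
  rw [sub_eq_add_neg, e_add, e_neg]

theorem e_mul_conj (x : ZMod 5) : e x * (starRingEnd ℂ) (e x) = 1 := by
  rw [← e_sub, sub_self, e_zero]

theorem e_one : e 1 = Complex.exp (2 * Real.pi * Complex.I / 5) := by
  unfold e
  have h := ZMod.stdAddChar_coe (N := 5) 1
  simpa using h

theorem e_one_primitive : IsPrimitiveRoot (e 1) 5 := by
  rw [e_one]
  exact_mod_cast Complex.isPrimitiveRoot_exp 5 (by norm_num)

theorem e_natCast (n : ℕ) : e (n : ZMod 5) = e 1 ^ n := by
  induction n with
  | zero => simp [e_zero]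
  | succ n ih => rw [Nat.cast_succ, e_add, ih, pow_succ]

theorem e_eq (x : ZMod 5) : e x = e 1 ^ x.val := by
  rw [← e_natCast, ZMod.natCast_zmod_val]

theorem e_eq' (x : Fin 5) : e (x : ZMod 5) = e 1 ^ (x : ℕ) := by
  have h := e_natCast (x : ℕ)
  have hx : (((x : ℕ) : ZMod 5)) = x := ZMod.natCast_zmod_val (n := 5) x
  rw [hx] at h
  exact h

theorem sum_e : ∑ x : ZMod 5, e x = 0 := by
  have h := e_one_primitive.geom_sum_eq_zero (by norm_num)
  rw [← h, Finset.sum_range]
  refine Finset.sum_congr rfl fun x _ => ?_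
  exact e_eq' x

/-- The value of a sum of fifth roots of unity in terms of the multiplicities. -/
theorem sum_e_comp {ι : Type*} (s : Finset ι) (φ : ι → ZMod 5) :
    ∑ k ∈ s, e (φ k) = ∑ x : ZMod 5, ((s.filter fun k => φ k = x).card : ℂ) * e x := by
  rw [← Finset.sum_fiberwise (s := s) (g := φ)]
  refine Finset.sum_congr rfl fun x _ => ?_
  rw [Finset.sum_congr rfl (g := fun _ => e x), Finset.sum_const, nsmul_eq_mul]
  intro k hk
  rw [(Finset.mem_filter.1 hk).2]

/-- A vanishing integral combination of the fifth roots of unity has equal coefficients. -/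
theorem eq_of_sum_eq_zero (n : ZMod 5 → ℤ) (h : ∑ x : ZMod 5, (n x : ℂ) * e x = 0) :
    ∀ x, n x = n 4 := by
  have hmp : (minpoly ℚ (e 1)).natDegree = 4 := by
    rw [← Polynomial.cyclotomic_eq_minpoly_rat e_one_primitive (by norm_num),
      Polynomial.natDegree_cyclotomic]
    decide
  set P : Polynomial ℚ := ∑ x : Fin 4, Polynomial.C ((n ((x : ℕ) : ZMod 5) - n 4 : ℤ) : ℚ) *
    Polynomial.X ^ (x : ℕ) with hP
  have hev : Polynomial.aeval (e 1) P = 0 := by
    have h1 : Polynomial.aeval (e 1) P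
        = ∑ x : Fin 4, (((n ((x : ℕ) : ZMod 5) - n 4 : ℤ)) : ℂ) * e 1 ^ (x : ℕ) := by
      rw [hP, map_sum]
      refine Finset.sum_congr rfl fun x _ => ?_
      rw [map_mul, map_pow, Polynomial.aeval_X, Polynomial.aeval_C]
      simp
    have h2 : ∑ x : ZMod 5, ((n x - n 4 : ℤ) : ℂ) * e x = 0 := by
      have : ∀ x : ZMod 5, ((n x - n 4 : ℤ) : ℂ) * e x = (n x : ℂ) * e x - (n 4 : ℂ) * e x := by
        intro x; push_cast; ring
      rw [Finset.sum_congr rfl fun x _ => this x, Finset.sum_sub_distrib, h, ← Finset.mul_sum,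
        sum_e]
      simp
    have h3 : ∑ x : ZMod 5, ((n x - n 4 : ℤ) : ℂ) * e x
        = ∑ x : Fin 5, ((n ((x : ℕ) : ZMod 5) - n 4 : ℤ) : ℂ) * e 1 ^ (x : ℕ) := by
      change ∑ x : Fin 5, ((n x - n 4 : ℤ) : ℂ) * e x = _
      refine Finset.sum_congr rfl fun x _ => ?_
      have hx : (((x : ℕ) : ZMod 5)) = x := ZMod.natCast_zmod_val (n := 5) x
      rw [hx, e_eq' x]
    rw [h3, Fin.sum_univ_castSucc] at h2
    have h4 : ((n (((Fin.last 4 : Fin 5) : ℕ) : ZMod 5) - n 4 : ℤ) : ℂ) = 0 := by
      have : (((Fin.last 4 : Fin 5) : ℕ) : ZMod 5) = 4 := by decide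
      rw [this, sub_self, Int.cast_zero]
    rw [h4, zero_mul, add_zero] at h2
    rw [h1, ← h2]
    rfl
  have hdeg : P.degree < 4 := by
    rw [hP]
    refine lt_of_le_of_lt (Polynomial.degree_sum_le _ _) ?_
    rw [Finset.sup_lt_iff (by decide)]
    intro x _
    refine lt_of_le_of_lt (Polynomial.degree_C_mul_X_pow_le _ _) ?_
    exact_mod_cast x.2
  have hP0 : P = 0 := by
    by_contra hne
    have h1 := minpoly.degree_le_of_ne_zero ℚ (e 1) hne hev
    have h2 : (minpoly ℚ (e 1)).degree = 4 := by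
      rw [Polynomial.degree_eq_natDegree (minpoly.ne_zero
        ((e_one_primitive.isIntegral (by norm_num)).tower_top)), hmp]
      rfl
    rw [h2] at h1
    exact absurd hdeg (not_lt.2 h1)
  have hcoef : ∀ y : Fin 4, n ((y : ℕ) : ZMod 5) = n 4 := by
    intro y
    have h1 : P.coeff (y : ℕ) = ((n ((y : ℕ) : ZMod 5) - n 4 : ℤ) : ℚ) := by
      rw [hP, Polynomial.finsetSum_coeff, Finset.sum_eq_single y]
      · rw [Polynomial.coeff_C_mul_X_pow, if_pos rfl]
      · intro b _ hb
        rw [Polynomial.coeff_C_mul_X_pow, if_neg]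
        intro h
        exact hb (Fin.ext h.symm)
      · intro h; exact absurd (Finset.mem_univ _) h
    rw [hP0, Polynomial.coeff_zero] at h1
    have h2 : (n ((y : ℕ) : ZMod 5) - n 4 : ℤ) = 0 := by exact_mod_cast h1.symm
    omega
  intro x
  have h0 := hcoef 0
  have h1 := hcoef 1
  have h2 := hcoef 2
  have h3 := hcoef 3
  fin_cases x
  · exact h0
  · exact h1
  · exact h2
  · exact h3
  · rfl

end Pool.Agent.GH5
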