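import Mathlib
import Pool.Agent.Lib_helper98.GH5.Basic

/-!
# The transpose of a `GH(5,8)`, and translations of rows and columns
-/

set_option autoImplicit false

open Finset

namespace Pool.Agent.GH5

/-- The orthogonality relation for two distinct rows. -/
theorem sum_row {D : Fin 40 → Fin 40 → ZMod 5} (hD : IsGH D) {i j : Fin 40} (h : i ≠ j) :
    ∑ k, e (D i k - D j k) = 0 := by
  rw [sum_e_comp]
  rw [Finset.sum_congr rfl fun x _ => by rw [hD i j h x], ← Finset.mul_sum, sum_e, mul_zero]

/-- The complex matrix of `D`. -/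
noncomputable def H (D : Fin 40 → Fin 40 → ZMod 5) : Matrix (Fin 40) (Fin 40) ℂ :=
  Matrix.of fun i j => e (D i j)

theorem H_mul {D : Fin 40 → Fin 40 → ZMod 5} (hD : IsGH D) :
    H D * (H D).conjTranspose = (40 : ℂ) • (1 : Matrix (Fin 40) (Fin 40) ℂ) := by
  ext i j
  rw [Matrix.mul_apply, Matrix.smul_apply, Matrix.one_apply]
  have h1 : ∀ k, H D i k * (H D).conjTranspose k j = e (D i k - D j k) := by
    intro k
    rw [e_sub]
    rfl
  rw [Finset.sum_congr rfl fun k _ => h1 k]
  by_cases h : i = j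
  · subst h
    rw [if_pos rfl]
    rw [Finset.sum_congr rfl fun k _ => by rw [sub_self, e_zero]]
    simp
  · rw [if_neg h, sum_row hD h]
    simp

theorem H_mul' {D : Fin 40 → Fin 40 → ZMod 5} (hD : IsGH D) :
    (H D).conjTranspose * H D = (40 : ℂ) • (1 : Matrix (Fin 40) (Fin 40) ℂ) := by
  have h1 : H D * ((40 : ℂ)⁻¹ • (H D).conjTranspose) = 1 := by
    rw [Matrix.mul_smul, H_mul hD, smul_smul]
    norm_num
  have h2 := mul_eq_one_comm.1 h1
  rw [Matrix.smul_mul] at h2
  calc (H D).conjTranspose * H D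
      = (40 : ℂ) • ((40 : ℂ)⁻¹ • ((H D).conjTranspose * H D)) := by
        rw [smul_smul]; norm_num
    _ = _ := by rw [h2]

/-- The transpose of a `GH(5,8)` is a `GH(5,8)`. -/
theorem IsGH.transpose {D : Fin 40 → Fin 40 → ZMod 5} (hD : IsGH D) :
    IsGH (fun i j => D j i) := by
  intro i j hij x
  have h1 : ∑ k, e (D k i - D k j) = 0 := by
    have h2 := congrFun (congrFun (H_mul' hD) j) i
    rw [Matrix.mul_apply, Matrix.smul_apply, Matrix.one_apply, if_neg (Ne.symm hij)] at h2
    rw [smul_zero] at h2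
    rw [← h2]
    refine Finset.sum_congr rfl fun k _ => ?_
    rw [e_sub, mul_comm]
    rfl
  rw [sum_e_comp] at h1
  have h3 := eq_of_sum_eq_zero
    (fun x => ((univ.filter fun k : Fin 40 => D k i - D k j = x).card : ℤ)) (by exact_mod_cast h1)
  have h4 : ∑ x : ZMod 5, ((univ.filter fun k : Fin 40 => D k i - D k j = x).card : ℤ) = 40 := by
    have h5 := Finset.card_eq_sum_card_fiberwise (s := (univ : Finset (Fin 40)))
      (t := (univ : Finset (ZMod 5))) (f := fun k : Fin 40 => D k i - D k j)
      (fun k _ => by simp)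
    rw [Finset.card_univ, Fintype.card_fin] at h5
    exact_mod_cast h5.symm
  rw [Finset.sum_congr rfl fun x _ => h3 x, Finset.sum_const, Finset.card_univ, ZMod.card] at h4
  have h6 := h3 x
  simp only [nsmul_eq_mul] at h4
  have h7 : ((univ.filter fun k : Fin 40 => D k i - D k j = x).card : ℤ) = 8 := by
    push_cast at h4
    linarith
  exact_mod_cast h7

/-- Translations of rows and columns. -/
theorem IsGH.translate {D : Fin 40 → Fin 40 → ZMod 5} (hD : IsGH D) (u v : Fin 40 → ZMod 5)
    {E : Fin 40 → Fin 40 → ZMod 5} (hE : ∀ i j, E i j = D i j + u i + v j) : IsGH E := by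
  intro i j hij x
  rw [← hD i j hij (x - (u i - u j))]
  congr 1
  refine Finset.filter_congr fun k _ => ?_
  rw [hE, hE]
  constructor
  · intro h; rw [← h]; ring
  · intro h; rw [eq_sub_iff_add_eq] at h; rw [← h]; ring

end Pool.Agent.GH5
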