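import Mathlib
import Pool.Agent.Lib_helper98.GH5.Transpose

/-!
# The symmetry group of a `GH(5,8)`; averaging; fixed rows and fixed columns
-/

set_option autoImplicit false

open Finset Equiv

namespace Pool.Agent.GH5

theorem apply_inv {α : Type*} (f : Perm α) (x : α) : f (f⁻¹ x) = x := f.apply_symm_apply x

instance fact5 : Fact (Nat.Prime 5) := ⟨by norm_num⟩

/-- The symmetry group: pairs of a row permutation and a column permutation which change `D` only
by a translation of every row and every column. -/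
def Sym (D : Fin 40 → Fin 40 → ZMod 5) : Subgroup (Perm (Fin 40) × Perm (Fin 40)) where
  carrier := {g | ∃ a b : Fin 40 → ZMod 5, ∀ i j, D (g.1 i) (g.2 j) = D i j + a i + b j}
  one_mem' := ⟨0, 0, by simp⟩
  mul_mem' := by
    rintro g h ⟨a, b, hg⟩ ⟨c, d, hh⟩
    refine ⟨fun i => c i + a (h.1 i), fun j => d j + b (h.2 j), fun i j => ?_⟩
    have h1 := hg (h.1 i) (h.2 j)
    have h2 := hh i j
    change D (g.1 (h.1 i)) (g.2 (h.2 j)) = _
    rw [h1, h2]
    ring
  inv_mem' := by
    rintro g ⟨a, b, hg⟩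
    refine ⟨fun i => - a (g.1⁻¹ i), fun j => - b (g.2⁻¹ j), fun i j => ?_⟩
    have h1 := hg (g.1⁻¹ i) (g.2⁻¹ j)
    rw [apply_inv, apply_inv] at h1
    change D (g.1⁻¹ i) (g.2⁻¹ j) = _
    rw [h1]
    ring

theorem mem_Sym {D : Fin 40 → Fin 40 → ZMod 5} {g : Perm (Fin 40) × Perm (Fin 40)} :
    g ∈ Sym D ↔ ∃ a b : Fin 40 → ZMod 5, ∀ i j, D (g.1 i) (g.2 j) = D i j + a i + b j :=
  Iff.rfl

/-- The number of fixed rows. -/
def fixedRows (g : Perm (Fin 40) × Perm (Fin 40)) : ℕ := (univ.filter fun i => g.1 i = i).card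

/-- The number of fixed columns. -/
def fixedCols (g : Perm (Fin 40) × Perm (Fin 40)) : ℕ := (univ.filter fun j => g.2 j = j).card

/-- Averaging over a group of symmetries of order prime to 5. -/
theorem exists_invariant {D : Fin 40 → Fin 40 → ZMod 5} (hD : IsGH D)
    (Q : Subgroup (Perm (Fin 40) × Perm (Fin 40))) (hQ : Q ≤ Sym D)
    (h5 : (Nat.card Q).Coprime 5) :
    ∃ E : Fin 40 → Fin 40 → ZMod 5, IsGH E ∧
      (∃ u v : Fin 40 → ZMod 5, ∀ i j, E i j = D i j + u i + v j) ∧
      ∀ g ∈ Q, ∀ i j, E (g.1 i) (g.2 j) = E i j := by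
  classical
  letI : Fintype Q := Fintype.ofFinite Q
  have hn : ((Nat.card Q : ℕ) : ZMod 5) ≠ 0 := by
    intro h
    rw [ZMod.natCast_eq_zero_iff] at h
    have := Nat.Coprime.eq_one_of_dvd (Nat.Coprime.symm h5) h
    norm_num at this
  obtain ⟨w, hn'⟩ : ∃ w : ZMod 5, w * ((Nat.card Q : ℕ) : ZMod 5) = 1 := ⟨_, inv_mul_cancel₀ hn⟩
  have hab : ∀ g : Q, ∃ a b : Fin 40 → ZMod 5, ∀ i j, D (g.1.1 i) (g.1.2 j) = D i j + a i + b j :=
    fun g => hQ g.2
  choose a b hab using hab
  set E : Fin 40 → Fin 40 → ZMod 5 := fun i j =>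
    w * ∑ g : Q, D (g.1.1 i) (g.1.2 j) with hE
  have hEu : ∀ i j, E i j = D i j + w * ∑ g : Q, a g i + w * ∑ g : Q, b g j := by
    intro i j
    rw [hE]
    simp only
    rw [Finset.sum_congr rfl fun g _ => hab g i j, Finset.sum_add_distrib,
      Finset.sum_add_distrib, Finset.sum_const, Finset.card_univ, ← Nat.card_eq_fintype_card,
      nsmul_eq_mul, mul_add, mul_add, ← mul_assoc, hn', one_mul]
  refine ⟨E, ?_, ⟨_, _, hEu⟩, ?_⟩
  · exact hD.translate _ _ hEu
  · intro g hg i j
    rw [hE]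
    simp only
    congr 1
    exact Fintype.sum_equiv (Equiv.mulRight (⟨g, hg⟩ : Q)) _ _ fun x => rfl

/-- Two distinct rows agree in exactly 8 columns. -/
theorem IsGH.agree {D : Fin 40 → Fin 40 → ZMod 5} (hD : IsGH D) {i j : Fin 40} (h : i ≠ j) :
    (univ.filter fun k => D i k = D j k).card = 8 := by
  rw [← hD i j h 0]
  congr 1
  exact Finset.filter_congr fun k _ => sub_eq_zero.symm

section Fixed

variable {E : Fin 40 → Fin 40 → ZMod 5} {σ τ : Perm (Fin 40)}

private theorem sum_agree (hE : IsGH E) (σ : Perm (Fin 40)) :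
    ∑ i, ∑ j, (if E i j = E (σ i) j then 1 else 0) =
      320 + 32 * (univ.filter fun i => σ i = i).card := by
  have h1 : ∀ i, (∑ j, (if E i j = E (σ i) j then 1 else 0)) =
      8 + 32 * (if σ i = i then 1 else 0) := by
    intro i
    by_cases h : σ i = i
    · rw [if_pos h, h]
      simp
    · rw [if_neg h, ← Finset.card_filter, hE.agree (Ne.symm h)]
  rw [Finset.sum_congr rfl fun i _ => h1 i, Finset.sum_add_distrib, ← Finset.mul_sum,
    ← Finset.card_filter]
  simp

/-- A symmetry without translations fixes as many rows as columns. -/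
theorem card_fixed_eq (hE : IsGH E) (hinv : ∀ i j, E (σ i) (τ j) = E i j) :
    (univ.filter fun i => σ i = i).card = (univ.filter fun j => τ j = j).card := by
  have h1 := sum_agree hE σ
  have h2 := sum_agree hE.transpose τ⁻¹
  rw [Finset.sum_comm] at h2
  have h3 : ∀ i j, E i (τ⁻¹ j) = E (σ i) j := by
    intro i j
    have := hinv i (τ⁻¹ j)
    rw [apply_inv] at this
    exact this.symm
  simp only [h3] at h2
  have h4 : (univ.filter fun j => τ⁻¹ j = j) = (univ.filter fun j => τ j = j) := by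
    refine Finset.filter_congr fun j _ => ?_
    rw [Perm.inv_eq_iff_eq, eq_comm]
  rw [h4] at h2
  rw [h1] at h2
  omega

/-- If `σ` moves a row then at most 8 columns are fixed. -/
theorem card_fixed_le (hE : IsGH E) (hinv : ∀ i j, E (σ i) (τ j) = E i j) {i : Fin 40}
    (hi : σ i ≠ i) : (univ.filter fun j => τ j = j).card ≤ 8 := by
  rw [← hE.agree hi]
  refine Finset.card_le_card fun j hj => ?_
  rw [Finset.mem_filter] at hj ⊢
  refine ⟨Finset.mem_univ _, ?_⟩
  have := hinv i j
  rw [hj.2] at this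
  exact this

end Fixed

/-- An element of order prime to 5 fixes as many rows as columns, and at most 8 if it is not the
identity. -/
theorem fixed_of_coprime {D : Fin 40 → Fin 40 → ZMod 5} (hD : IsGH D)
    {g : Perm (Fin 40) × Perm (Fin 40)} (hg : g ∈ Sym D) (h5 : (orderOf g).Coprime 5) :
    fixedRows g = fixedCols g ∧ (g ≠ 1 → fixedRows g ≤ 8) := by
  obtain ⟨E, hE, -, hinv⟩ := exists_invariant hD (Subgroup.zpowers g)
    (by rwa [Subgroup.zpowers_le]) (by rwa [Nat.card_zpowers])
  have hi := hinv g (Subgroup.mem_zpowers g)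
  have heq : fixedRows g = fixedCols g := card_fixed_eq hE hi
  refine ⟨heq, fun hne => ?_⟩
  by_cases h : ∃ i, g.1 i ≠ i
  · obtain ⟨i, h⟩ := h
    rw [heq]
    exact card_fixed_le hE hi h
  · push Not at h
    have h1 : fixedRows g = 40 := by
      unfold fixedRows
      rw [Finset.filter_true_of_mem fun i _ => h i]
      simp
    have h2 : fixedCols g = 40 := heq ▸ h1
    exfalso
    apply hne
    refine Prod.ext (Equiv.ext h) (Equiv.ext fun j => ?_)
    have h3 : (univ.filter fun j => g.2 j = j) = univ := by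
      apply Finset.eq_univ_of_card
      unfold fixedCols at h2
      rw [h2]
      simp
    have h4 : j ∈ (univ.filter fun j => g.2 j = j) := by rw [h3]; exact Finset.mem_univ j
    exact (Finset.mem_filter.1 h4).2

end Pool.Agent.GH5
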