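import Mathlib
import Pool.Agent.Lib_helper98.GH5.Group

/-!
# Sums of squares over `ZMod 5` of functions with constant mixed second differences
-/

set_option autoImplicit false

open Finset

namespace Pool.Agent.GH5



theorem sum_id5 : ∑ x : ZMod 5, x = 0 := by decide

theorem sum_sq5 : ∑ x : ZMod 5, x * x = 0 := by decide

theorem five_zero : (5 : ZMod 5) = 0 := by decide

/-- Induction on `ZMod 5`. -/
theorem ind5 {P : ZMod 5 → Prop} (h0 : P 0) (h1 : ∀ x, P x → P (x + 1)) (x : ZMod 5) : P x := by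
  have h : ∀ n : ℕ, P (n : ZMod 5) := by
    intro n
    induction n with
    | zero => simpa using h0
    | succ n ih => rw [Nat.cast_succ]; exact h1 _ ih
  have := h x.val
  rwa [ZMod.natCast_zmod_val] at this

/-- A function of one variable with linear first difference. -/
theorem sumsq_quadratic (g : ZMod 5 → ZMod 5) (d κ : ZMod 5)
    (h : ∀ y, g (y + 1) - g y = d + κ * y) : ∑ y, g y * g y = κ * κ := by
  have h0 := h 0
  have h1 := h 1
  have h2 := h 2
  have h3 := h 3
  have e1 : g 1 = g 0 + d := by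
    rw [zero_add] at h0
    rw [← sub_eq_iff_eq_add']
    rw [h0]; ring
  have e2 : g 2 = g 0 + 2 * d + κ := by
    have hh : (1 : ZMod 5) + 1 = 2 := by decide
    rw [hh] at h1
    have : g 2 = g 1 + (d + κ * 1) := by rw [← h1]; ring
    rw [this, e1]; ring
  have e3 : g 3 = g 0 + 3 * d + 3 * κ := by
    have hh : (2 : ZMod 5) + 1 = 3 := by decide
    rw [hh] at h2
    have : g 3 = g 2 + (d + κ * 2) := by rw [← h2]; ring
    rw [this, e2]; ring
  have e4 : g 4 = g 0 + 4 * d + 6 * κ := by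
    have hh : (3 : ZMod 5) + 1 = 4 := by decide
    rw [hh] at h3
    have : g 4 = g 3 + (d + κ * 3) := by rw [← h3]; ring
    rw [this, e3]; ring
  have hs : ∑ y, g y * g y = g 0 * g 0 + g 1 * g 1 + g 2 * g 2 + g 3 * g 3 + g 4 * g 4 :=
    Fin.sum_univ_five fun y : Fin 5 => g y * g y
  rw [hs, e1, e2, e3, e4]
  have key : ∀ c d κ : ZMod 5, c * c + (c + d) * (c + d) + (c + 2 * d + κ) * (c + 2 * d + κ) +
      (c + 3 * d + 3 * κ) * (c + 3 * d + 3 * κ) + (c + 4 * d + 6 * κ) * (c + 4 * d + 6 * κ)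
      = κ * κ := by decide
  exact key _ _ _

/-- A function of one variable with a constant mixed second difference. -/
theorem sumsq_line (f : ZMod 5 → ZMod 5) (s t κ : ZMod 5) (hs : s ≠ 0) (ht : t ≠ 0)
    (h : ∀ y, f (y + s + t) - f (y + s) - f (y + t) + f y = κ) :
    ∑ y, f y * f y = κ * κ * ((s * t) * (s * t)) := by
  obtain ⟨s', hs'⟩ : ∃ s' : ZMod 5, s' * s = 1 := ⟨_, inv_mul_cancel₀ hs⟩
  have hre : ∑ y, f y * f y = ∑ k, f (k * t) * f (k * t) :=
    (Fintype.sum_equiv (Equiv.mulRight₀ t ht) _ _ fun k => rfl).symm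
  rw [hre]
  -- first differences
  have hd : ∀ y, f (y + t) - f y = f t - f 0 + κ * s' * y := by
    have h1 : ∀ k : ZMod 5, f (k * s + t) - f (k * s) = f t - f 0 + κ * k := by
      refine ind5 ?_ ?_
      · rw [zero_mul, zero_add, mul_zero, add_zero]
      · intro k hk
        have h2 := h (k * s)
        have h3 : (k + 1) * s = k * s + s := by ring
        rw [h3]
        have h4 : f (k * s + s + t) - f (k * s + s) = (f (k * s + t) - f (k * s)) + κ := by
          rw [← h2]; ring
        rw [h4, hk]; ring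
    intro y
    have h2 := h1 (s' * y)
    have h3 : s' * y * s = y := by
      calc s' * y * s = (s' * s) * y := by ring
        _ = y := by rw [hs', one_mul]
    rw [h3] at h2
    rw [h2]; ring
  have h2 := sumsq_quadratic (fun k => f (k * t)) (f t - f 0) (κ * s' * t) (by
    intro k
    have h3 := hd (k * t)
    have h4 : (k + 1) * t = k * t + t := by ring
    rw [h4, h3]; ring)
  rw [h2]
  have key : ∀ κ s' s t : ZMod 5, s' * s = 1 → s ≠ 0 → t ≠ 0 →
      κ * s' * t * (κ * s' * t) = κ * κ * ((s * t) * (s * t)) := by decide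
  exact key κ s' s t hs' hs ht

/-- A function of two variables with constant mixed second difference. -/
theorem mixed (F : ZMod 5 → ZMod 5 → ZMod 5) (κ : ZMod 5)
    (h : ∀ x y, F (x + 1) (y + 1) - F (x + 1) y - F x (y + 1) + F x y = κ) (x y : ZMod 5) :
    F x y = F x 0 + F 0 y - F 0 0 + κ * (x * y) := by
  have key : ∀ y, ∀ x, F x y = F x 0 + F 0 y - F 0 0 + κ * (x * y) := by
    refine ind5 ?_ ?_
    · intro x; ring
    · intro y hy
      refine ind5 ?_ ?_
      · ring
      · intro x hx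
        have h1 := h x y
        have h2 : F (x + 1) (y + 1) = κ + F (x + 1) y + F x (y + 1) - F x y := by
          rw [← h1]; ring
        rw [h2, hx, hy (x + 1), hy x]; ring
  exact key y x

theorem sum_const5 (c : ZMod 5) : ∑ _x : ZMod 5, c = 0 := by
  rw [Finset.sum_const, Finset.card_univ, ZMod.card, nsmul_eq_mul]
  have : ((5 : ℕ) : ZMod 5) = 0 := by decide
  rw [this, zero_mul]

/-- The sum of the squares of `B x + A y + κ x y`. -/
theorem sumsq_mixed (A B : ZMod 5 → ZMod 5) (κ : ZMod 5) :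
    ∑ x, ∑ y, (B x + A y + κ * (x * y)) * (B x + A y + κ * (x * y))
      = 2 * ((∑ x, B x) * (∑ y, A y)) := by
  have h1 : ∀ x, ∑ y, (B x + A y + κ * (x * y)) * (B x + A y + κ * (x * y))
      = (∑ y, A y * A y) + 2 * B x * (∑ y, A y) + 2 * κ * x * (∑ y, A y * y) := by
    intro x
    have h2 : ∀ y, (B x + A y + κ * (x * y)) * (B x + A y + κ * (x * y))
        = B x * B x + A y * A y + 2 * B x * A y + 2 * κ * x * (A y * y)
          + 2 * κ * x * B x * y + κ * κ * (x * x) * (y * y) := by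
      intro y; ring
    rw [Finset.sum_congr rfl fun y _ => h2 y]
    have h5 : ∑ y : ZMod 5, 2 * κ * x * B x * y = 0 := by
      rw [← Finset.mul_sum, sum_id5, mul_zero]
    simp only [Finset.sum_add_distrib, h5]
    simp only [← Finset.mul_sum, sum_const5, sum_sq5, mul_zero, add_zero, zero_add]
  rw [Finset.sum_congr rfl fun x _ => h1 x]
  simp only [Finset.sum_add_distrib, sum_const5, zero_add]
  have h3 : ∑ x, 2 * κ * x * (∑ y, A y * y) = 0 := by
    have : ∀ x, 2 * κ * x * (∑ y, A y * y) = 2 * κ * (∑ y, A y * y) * x := by intro x; ring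
    rw [Finset.sum_congr rfl fun x _ => this x, ← Finset.mul_sum, sum_id5, mul_zero]
  rw [h3, add_zero]
  have h4 : ∀ x, 2 * B x * (∑ y, A y) = 2 * (∑ y, A y) * B x := by intro x; ring
  rw [Finset.sum_congr rfl fun x _ => h4 x, ← Finset.mul_sum]
  ring

/-- The sum of the squares in terms of the two line sums through the origin. -/
theorem sumsq_of_mixed (F : ZMod 5 → ZMod 5 → ZMod 5) (κ : ZMod 5)
    (h : ∀ x y, F (x + 1) (y + 1) - F (x + 1) y - F x (y + 1) + F x y = κ) :
    ∑ x, ∑ y, F x y * F x y = 2 * ((∑ x, F x 0) * (∑ y, F 0 y)) := by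
  have h1 := sumsq_mixed (fun y => F 0 y - F 0 0) (fun x => F x 0) κ
  have h2 : ∀ x y, F x y = F x 0 + (F 0 y - F 0 0) + κ * (x * y) := by
    intro x y
    rw [mixed F κ h x y]
    ring
  calc ∑ x, ∑ y, F x y * F x y
      = ∑ x, ∑ y, (F x 0 + (F 0 y - F 0 0) + κ * (x * y)) * (F x 0 + (F 0 y - F 0 0) + κ * (x * y)) := by
        refine Finset.sum_congr rfl fun x _ => Finset.sum_congr rfl fun y _ => ?_
        rw [← h2]
    _ = _ := h1
    _ = _ := by
        rw [Finset.sum_sub_distrib, sum_const5, sub_zero]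

/-- The third line sum. -/
theorem diag_of_mixed (F : ZMod 5 → ZMod 5 → ZMod 5) (κ : ZMod 5)
    (h : ∀ x y, F (x + 1) (y + 1) - F (x + 1) y - F x (y + 1) + F x y = κ) :
    ∑ z, F z z = (∑ x, F x 0) + (∑ y, F 0 y) := by
  rw [Finset.sum_congr rfl fun z _ => mixed F κ h z z]
  simp only [Finset.sum_add_distrib, Finset.sum_sub_distrib, ← Finset.mul_sum, sum_const5, sum_sq5,
    mul_zero, add_zero, sub_zero]

/-- The antidiagonal line sum. -/
theorem antidiag_of_mixed (F : ZMod 5 → ZMod 5 → ZMod 5) (κ : ZMod 5)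
    (h : ∀ x y, F (x + 1) (y + 1) - F (x + 1) y - F x (y + 1) + F x y = κ) :
    ∑ z, F (-z) z = (∑ x, F x 0) + (∑ y, F 0 y) := by
  have h1 : ∀ z, F (-z) z = F (-z) 0 + F 0 z - F 0 0 + (-κ) * (z * z) := by
    intro z
    rw [mixed F κ h (-z) z]
    ring
  rw [Finset.sum_congr rfl fun z _ => h1 z]
  simp only [Finset.sum_add_distrib, Finset.sum_sub_distrib, ← Finset.mul_sum, sum_const5, sum_sq5,
    mul_zero, add_zero, sub_zero]
  congr 1
  exact Fintype.sum_equiv (Equiv.neg (ZMod 5)) _ _ fun x => rfl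

/-- Three functions `F`, `G`, `F + G` on the plane whose mixed second differences along the pairs
of the directions `(1,0)`, `(0,1)`, `(1,1)` are constant. -/
theorem three_sumsq (F G : ZMod 5 → ZMod 5 → ZMod 5) (κ κ' κ'' : ZMod 5)
    (h12 : ∀ x y, F (x + 1) (y + 1) - F (x + 1) y - F x (y + 1) + F x y = κ)
    (h13 : ∀ x y, (F (x + 2) (y + 1) + G (x + 2) (y + 1)) - (F (x + 1) y + G (x + 1) y)
      - (F (x + 1) (y + 1) + G (x + 1) (y + 1)) + (F x y + G x y) = κ')
    (h23 : ∀ x y, G (x + 1) (y + 2) - G x (y + 1) - G (x + 1) (y + 1) + G x y = κ'') :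
    ∃ p q t : ZMod 5, ∑ x, ∑ y, F x y * F x y = 2 * (p * q) ∧
      ∑ x, ∑ y, (F x y + G x y) * (F x y + G x y) = 2 * (t * q) ∧
      ∑ x, ∑ y, G x y * G x y = - (2 * (t * p)) := by
  set H' : ZMod 5 → ZMod 5 → ZMod 5 := fun x z => F (x + z) z + G (x + z) z with hH'
  set G' : ZMod 5 → ZMod 5 → ZMod 5 := fun y z => G z (y + z) with hG'
  have m13 : ∀ x y, H' (x + 1) (y + 1) - H' (x + 1) y - H' x (y + 1) + H' x y = κ' := by
    intro x y
    have h := h13 (x + y) y
    have e1 : x + 1 + (y + 1) = x + y + 2 := by ring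
    have e2 : x + 1 + y = x + y + 1 := by ring
    have e3 : x + (y + 1) = x + y + 1 := by ring
    simp only [hH', e1, e2, e3]
    exact h
  have m23 : ∀ x y, G' (x + 1) (y + 1) - G' (x + 1) y - G' x (y + 1) + G' x y = κ'' := by
    intro x y
    have h := h23 y (x + y)
    have e1 : x + 1 + (y + 1) = x + y + 2 := by ring
    have e2 : x + 1 + y = x + y + 1 := by ring
    have e3 : x + (y + 1) = x + y + 1 := by ring
    simp only [hG', e1, e2, e3]
    exact h
  have s12 := sumsq_of_mixed F κ h12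
  have s13 := sumsq_of_mixed H' κ' m13
  have s23 := sumsq_of_mixed G' κ'' m23
  have d12 := diag_of_mixed F κ h12
  have d13 := antidiag_of_mixed H' κ' m13
  have d23 := antidiag_of_mixed G' κ'' m23
  have r13 : ∑ x, ∑ z, H' x z * H' x z = ∑ x, ∑ y, (F x y + G x y) * (F x y + G x y) := by
    rw [Finset.sum_comm, Finset.sum_comm (f := fun x y => (F x y + G x y) * (F x y + G x y))]
    refine Finset.sum_congr rfl fun z _ => ?_
    exact Fintype.sum_equiv (Equiv.addRight z) _ _ fun x => rfl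
  have r23 : ∑ y, ∑ z, G' y z * G' y z = ∑ x, ∑ y, G x y * G x y := by
    rw [Finset.sum_comm]
    refine Finset.sum_congr rfl fun z _ => ?_
    exact Fintype.sum_equiv (Equiv.addRight z) _ _ fun x => rfl
  rw [r13] at s13
  rw [r23] at s23
  -- the line sums
  have l1 : ∑ x, H' x 0 = (∑ x, F x 0) + ∑ x, G x 0 := by
    simp only [hH', add_zero, Finset.sum_add_distrib]
  have l3 : ∑ z, H' 0 z = (∑ z, F z z) + ∑ z, G z z := by
    simp only [hH', zero_add, Finset.sum_add_distrib]
  have l2 : ∑ z, H' (-z) z = (∑ y, F 0 y) + ∑ y, G 0 y := by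
    simp only [hH', neg_add_cancel, Finset.sum_add_distrib]
  have g2 : ∑ y, G' y 0 = ∑ y, G 0 y := by simp only [hG', add_zero]
  have g3 : ∑ z, G' 0 z = ∑ z, G z z := by simp only [hG', zero_add]
  have g1 : ∑ z, G' (-z) z = ∑ x, G x 0 := by
    simp only [hG', neg_add_cancel]
  rw [l1, l3] at s13 d13
  rw [l2] at d13
  rw [g2, g3] at s23 d23
  rw [g1] at d23
  set p := ∑ x, F x 0 with hp
  set q := ∑ y, F 0 y with hq
  set t := ∑ y, G 0 y with ht
  set u := ∑ z, G z z with hu
  rw [d23, d12] at d13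
  rw [d23, d12] at s13
  have hpu : u = -p := by
    have h2 : (2 : ZMod 5) * (p + u) = 0 := by
      have : q + t - (p + (t + u) + (p + q + u)) = 0 := by rw [d13]; ring
      have h3 : (2 : ZMod 5) * (p + u) = -(q + t - (p + (t + u) + (p + q + u))) := by ring
      rw [h3, this, neg_zero]
    have h3 : p + u = 0 := by
      have h4 : (3 : ZMod 5) * (2 * (p + u)) = 0 := by rw [h2, mul_zero]
      have h5 : (3 : ZMod 5) * 2 = 1 := by decide
      rw [← mul_assoc, h5, one_mul] at h4
      exact h4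
    exact (neg_eq_of_add_eq_zero_right h3).symm
  refine ⟨p, q, t, s12, ?_, ?_⟩
  · rw [s13, hpu]; ring
  · rw [s23, hpu]; ring

end Pool.Agent.GH5
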