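import Mathlib
import Pool.Agent.Lib_helper98.GH5.Group

/-!
# The order of a group whose nontrivial elements fix few rows
-/

set_option autoImplicit false

open Finset Equiv

namespace Pool.Agent.GH5

/-- If every nontrivial element of `Q` fixes at most `k` rows then `Q` acts freely on the
injections of `k + 1` points into the rows. -/
theorem card_dvd (Q : Subgroup (Perm (Fin 40) × Perm (Fin 40))) (k : ℕ)
    (h : ∀ g ∈ Q, g ≠ 1 → fixedRows g ≤ k) : Nat.card Q ∣ Nat.descFactorial 40 (k + 1) := by
  classical
  letI act : MulAction Q (Fin (k + 1) ↪ Fin 40) :=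
    { smul := fun g f => f.trans (g.1.1 : Perm (Fin 40)).toEmbedding
      one_smul := fun f => by
        ext x
        rfl
      mul_smul := fun g g' f => by
        ext x
        rfl }
  have hfree : ∀ f : Fin (k + 1) ↪ Fin 40, MulAction.stabilizer Q f = ⊥ := by
    intro f
    rw [eq_bot_iff]
    intro g hg
    rw [MulAction.mem_stabilizer_iff] at hg
    rw [Subgroup.mem_bot]
    by_contra hne
    have h1 := h g.1 g.2 (fun hh => hne (Subtype.ext hh))
    have h2 : (univ.map f).card ≤ fixedRows g.1 := by
      unfold fixedRows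
      refine Finset.card_le_card fun x hx => ?_
      rw [Finset.mem_map] at hx
      obtain ⟨y, -, rfl⟩ := hx
      rw [Finset.mem_filter]
      refine ⟨Finset.mem_univ _, ?_⟩
      exact congrFun (congrArg (fun F : Fin (k + 1) ↪ Fin 40 => (F : Fin (k + 1) → Fin 40)) hg) y
    rw [Finset.card_map, Finset.card_univ, Fintype.card_fin] at h2
    omega
  have heq := Nat.card_congr (MulAction.selfEquivOrbitsQuotientProd (G := Q) hfree)
  rw [Nat.card_prod] at heq
  have hcard : Nat.card (Fin (k + 1) ↪ Fin 40) = Nat.descFactorial 40 (k + 1) := by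
    rw [Nat.card_eq_fintype_card, Fintype.card_embedding_eq, Fintype.card_fin, Fintype.card_fin]
  rw [hcard] at heq
  rw [heq]
  exact Dvd.intro_left _ rfl

end Pool.Agent.GH5
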