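import Mathlib
import Pool.Agent.Lib_helper98.GH5.Group

/-!
# Symmetries of prime order different from 5: counting

`E` is invariant under the pair `(σ, τ)` of order `r`.  Two fixed rows agree modulo `r` with their
restriction to the fixed columns.
-/

set_option autoImplicit false

open Finset Equiv

namespace Pool.Agent.GH5

/-- Fixed points modulo `p` on an invariant subset. -/
theorem card_modEq_fixed {p n : ℕ} [hp : Fact p.Prime] {τ : Perm (Fin 40)} (hτ : τ ^ p ^ n = 1)
    (S : Finset (Fin 40)) (hS : ∀ x ∈ S, τ x ∈ S) :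
    S.card ≡ (S.filter fun x => τ x = x).card [MOD p] := by
  classical
  let f : Function.End {x // x ∈ S} := fun x => ⟨τ x.1, hS _ x.2⟩
  have hf : ∀ (k : ℕ) (x : {x // x ∈ S}), ((f ^ k : Function.End {x // x ∈ S}) x).1
      = (τ ^ k) x.1 := by
    intro k
    induction k with
    | zero => intro x; rfl
    | succ k ih =>
      intro x
      rw [pow_succ, pow_succ]
      change ((f ^ k : Function.End {x // x ∈ S}) (f x)).1 = (τ ^ k) (τ x.1)
      rw [ih]
  have hf1 : f ^ p ^ n = 1 := by
    funext x
    apply Subtype.ext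
    rw [hf, hτ]
    rfl
  have h := Equiv.Perm.card_fixedPoints_modEq hf1
  rw [Fintype.card_coe] at h
  have h2 : Fintype.card (Function.fixedPoints f) = (S.filter fun x => τ x = x).card := by
    rw [← Fintype.card_coe]
    refine Fintype.card_congr ⟨fun x => ⟨x.1.1, ?_⟩, fun x => ⟨⟨x.1, ?_⟩, ?_⟩, ?_, ?_⟩
    · rw [Finset.mem_filter]
      exact ⟨x.1.2, congrArg Subtype.val x.2⟩
    · exact (Finset.mem_filter.1 x.2).1
    · exact Subtype.ext (Finset.mem_filter.1 x.2).2
    · intro x; rfl
    · intro x; rfl
  rw [h2] at h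
  exact h

section

variable {E : Fin 40 → Fin 40 → ZMod 5} {σ τ : Perm (Fin 40)}

/-- Two fixed rows: for every value `v` the number of fixed columns with difference `v` is
congruent to 8 modulo `r`. -/
theorem two_fixed (hE : IsGH E) (hinv : ∀ i j, E (σ i) (τ j) = E i j) {r : ℕ} [Fact r.Prime]
    (hτ : τ ^ r = 1) {i i' : Fin 40} (hne : i ≠ i') (hi : σ i = i) (hi' : σ i' = i') (v : ZMod 5) :
    8 ≡ ((univ.filter fun k => E i k - E i' k = v).filter fun k => τ k = k).card [MOD r] := by
  have h := card_modEq_fixed (p := r) (n := 1) (by rw [pow_one]; exact hτ)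
    (univ.filter fun k => E i k - E i' k = v) (by
      intro k hk
      rw [Finset.mem_filter] at hk ⊢
      refine ⟨Finset.mem_univ _, ?_⟩
      have h1 := hinv i k
      have h2 := hinv i' k
      rw [hi] at h1
      rw [hi'] at h2
      rw [h1, h2]
      exact hk.2)
  rw [hE i i' hne v] at h
  exact h

theorem sum_two_fixed {i i' : Fin 40} :
    ∑ v : ZMod 5, ((univ.filter fun k => E i k - E i' k = v).filter fun k => τ k = k).card
      = (univ.filter fun k => τ k = k).card := by
  rw [Finset.card_eq_sum_card_fiberwise (s := univ.filter fun k => τ k = k)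
    (t := (univ : Finset (ZMod 5))) (f := fun k => E i k - E i' k) (fun k _ => by simp)]
  refine Finset.sum_congr rfl fun v _ => ?_
  congr 1
  ext k
  simp only [Finset.mem_filter, Finset.mem_univ, true_and]
  exact and_comm

/-- The possible primes. -/
theorem prime_cases (hE : IsGH E) (hinv : ∀ i j, E (σ i) (τ j) = E i j) {r : ℕ} [hr : Fact r.Prime]
    (h5 : r ≠ 5) (hσ : σ ^ r = 1) (hτ : τ ^ r = 1) {i0 : Fin 40} (hi0 : σ i0 ≠ i0) :
    r = 2 ∨ (r = 3 ∧ (univ.filter fun i => σ i = i).card = 1) ∨
      (r = 7 ∧ (univ.filter fun i => σ i = i).card = 5) ∨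
      (r = 13 ∧ (univ.filter fun i => σ i = i).card = 1) := by
  have hf := card_fixed_eq hE hinv
  have hle := card_fixed_le hE hinv hi0
  have h40 := card_modEq_fixed (p := r) (n := 1) (by rw [pow_one]; exact hσ)
    (univ : Finset (Fin 40)) (fun x _ => Finset.mem_univ _)
  rw [Finset.card_univ, Fintype.card_fin] at h40
  set f := (univ.filter fun i => σ i = i).card with hfdef
  rw [← hf] at hle
  by_cases h2 : 2 ≤ f
  · obtain ⟨i, hi, i', hi', hne⟩ := Finset.one_lt_card.1 (by omega : 1 < f)
    rw [Finset.mem_filter] at hi hi'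
    have hmod : ∀ v : ZMod 5, 8 ≡ ((univ.filter fun k => E i k - E i' k = v).filter
        fun k => τ k = k).card [MOD r] := two_fixed hE hinv hτ hne hi.2 hi'.2
    have hsum : ∑ v : ZMod 5, ((univ.filter fun k => E i k - E i' k = v).filter
        fun k => τ k = k).card = f := by rw [sum_two_fixed, hf]
    have hle8 : ∀ v : ZMod 5, ((univ.filter fun k => E i k - E i' k = v).filter
        fun k => τ k = k).card ≤ 8 := by
      intro v
      rw [← hE i i' hne v]
      exact Finset.card_filter_le _ _
    set n : ZMod 5 → ℕ := fun v => ((univ.filter fun k => E i k - E i' k = v).filter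
        fun k => τ k = k).card with hn
    have hmod' : ∀ v, 8 ≡ n v [MOD r] := hmod
    have hle' : ∀ v, n v ≤ 8 := hle8
    have hsum' : n 0 + n 1 + n 2 + n 3 + n 4 = f := by
      rw [← hsum]
      exact (Fin.sum_univ_five n).symm
    have hcases : r = 2 ∨ r = 3 ∨ r = 7 ∨ 8 < r := by
      have := hr.out.two_le
      by_contra hcon
      push Not at hcon
      have h8 : r ≤ 8 := hcon.2.2.2
      interval_cases r
      · exact hcon.1 rfl
      · exact hcon.2.1 rfl
      · exact absurd hr.out (by norm_num)
      · exact h5 rfl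
      · exact absurd hr.out (by norm_num)
      · exact hcon.2.2.1 rfl
      · exact absurd hr.out (by norm_num)
    rcases hcases with rfl | rfl | rfl | h8
    · exact Or.inl rfl
    · exfalso
      have a0 := hmod' 0; have a1 := hmod' 1; have a2 := hmod' 2; have a3 := hmod' 3
      have a4 := hmod' 4
      unfold Nat.ModEq at a0 a1 a2 a3 a4
      omega
    · have a0 := hmod' 0; have a1 := hmod' 1; have a2 := hmod' 2; have a3 := hmod' 3
      have a4 := hmod' 4
      have b0 := hle' 0; have b1 := hle' 1; have b2 := hle' 2; have b3 := hle' 3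
      have b4 := hle' 4
      unfold Nat.ModEq at a0 a1 a2 a3 a4
      right; right; left
      refine ⟨rfl, ?_⟩
      omega
    · exfalso
      have key : ∀ v, n v = 8 := by
        intro v
        exact (Nat.ModEq.eq_of_lt_of_lt (hmod' v) h8 (lt_of_le_of_lt (hle' v) h8)).symm
      have b0 := key 0; have b1 := key 1; have b2 := key 2; have b3 := key 3
      have b4 := key 4
      omega
  · have hf01 : f = 0 ∨ f = 1 := by omega
    rcases hf01 with h0 | h1
    · rw [h0] at h40
      have hd : r ∣ 40 := (Nat.modEq_zero_iff_dvd).1 h40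
      have hd2 : r ∣ 2 ^ 3 * 5 := by norm_num; exact hd
      rcases (Nat.Prime.dvd_mul hr.out).1 hd2 with h | h
      · left
        exact (Nat.prime_dvd_prime_iff_eq hr.out Nat.prime_two).1 (hr.out.dvd_of_dvd_pow h)
      · exact absurd ((Nat.prime_dvd_prime_iff_eq hr.out (by norm_num)).1 h) h5
    · rw [h1] at h40
      have hd : r ∣ 39 := by
        have := (Nat.modEq_iff_dvd' (by norm_num : 1 ≤ 40)).1 h40.symm
        simpa using this
      have hd2 : r ∣ 3 * 13 := by norm_num; exact hd
      rcases (Nat.Prime.dvd_mul hr.out).1 hd2 with h | h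
      · right; left
        exact ⟨(Nat.prime_dvd_prime_iff_eq hr.out (by norm_num)).1 h, h1⟩
      · right; right; right
        exact ⟨(Nat.prime_dvd_prime_iff_eq hr.out (by norm_num)).1 h, h1⟩

end

end Pool.Agent.GH5
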