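import Mathlib
import Pool.Agent.Lib_helper98.GH5.Prime

/-!
# Symmetries of order 5
-/

set_option autoImplicit false

open Finset Equiv

namespace Pool.Agent.GH5

section

variable {D : Fin 40 → Fin 40 → ZMod 5} {σ τ : Perm (Fin 40)} {a b : Fin 40 → ZMod 5}

theorem five_diff (h : ∀ i j, D (σ i) (τ j) = D i j + a i + b j) {i i' : Fin 40}
    (hi : σ i = i) (hi' : σ i' = i') (k : Fin 40) :
    D i (τ k) - D i' (τ k) = D i k - D i' k + (a i - a i') := by
  have h1 := h i k
  have h2 := h i' k
  rw [hi] at h1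
  rw [hi'] at h2
  rw [h1, h2]
  ring

/-- Two fixed rows with the same phase. -/
theorem five_two_fixed (hD : IsGH D) (h : ∀ i j, D (σ i) (τ j) = D i j + a i + b j)
    (hτ : τ ^ 5 = 1) {i i' : Fin 40} (hne : i ≠ i') (hi : σ i = i) (hi' : σ i' = i')
    (ha : a i = a i') : 15 ≤ (univ.filter fun k => τ k = k).card := by
  have hmod : ∀ v : ZMod 5, 8 ≡ ((univ.filter fun k => D i k - D i' k = v).filter
      fun k => τ k = k).card [MOD 5] := by
    intro v
    have h1 := card_modEq_fixed (p := 5) (n := 1) (by rw [pow_one]; exact hτ)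
      (univ.filter fun k => D i k - D i' k = v) (by
        intro k hk
        rw [Finset.mem_filter] at hk ⊢
        refine ⟨Finset.mem_univ _, ?_⟩
        rw [five_diff h hi hi', ha, sub_self, add_zero]
        exact hk.2)
    rw [hD i i' hne v] at h1
    exact h1
  set n : ZMod 5 → ℕ := fun v => ((univ.filter fun k => D i k - D i' k = v).filter
      fun k => τ k = k).card with hn
  have hmod' : ∀ v, 8 ≡ n v [MOD 5] := hmod
  have hsum : n 0 + n 1 + n 2 + n 3 + n 4 = (univ.filter fun k => τ k = k).card := by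
    rw [← sum_two_fixed (E := D) (τ := τ) (i := i) (i' := i')]
    exact (Fin.sum_univ_five n).symm
  have a0 := hmod' 0; have a1 := hmod' 1; have a2 := hmod' 2; have a3 := hmod' 3
  have a4 := hmod' 4
  unfold Nat.ModEq at a0 a1 a2 a3 a4
  omega

/-- If a row is moved and the phases of the fixed columns are equal, at most 8 columns are
fixed. -/
theorem five_le (hD : IsGH D) (h : ∀ i j, D (σ i) (τ j) = D i j + a i + b j) {i : Fin 40}
    (hi : σ i ≠ i) {β : ZMod 5} (hβ : ∀ j, τ j = j → b j = β) :
    (univ.filter fun k => τ k = k).card ≤ 8 := by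
  rw [← hD (σ i) i hi (a i + β)]
  refine Finset.card_le_card fun j hj => ?_
  rw [Finset.mem_filter] at hj ⊢
  refine ⟨Finset.mem_univ _, ?_⟩
  have h1 := h i j
  rw [hj.2, hβ j hj.2] at h1
  rw [h1]
  ring

/-- If no column is fixed then the phases of the fixed rows are distinct. -/
theorem five_inj (hD : IsGH D) (h : ∀ i j, D (σ i) (τ j) = D i j + a i + b j)
    (hτ : τ ^ 5 = 1) (h0 : (univ.filter fun k => τ k = k).card = 0) {i i' : Fin 40}
    (hi : σ i = i) (hi' : σ i' = i') (ha : a i = a i') : i = i' := by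
  by_contra hne
  have := five_two_fixed hD h hτ hne hi hi' ha
  omega

theorem five_dvd (hτ : τ ^ 5 = 1) : 5 ∣ (univ.filter fun k => τ k = k).card := by
  have h40 := card_modEq_fixed (p := 5) (n := 1) (by rw [pow_one]; exact hτ)
    (univ : Finset (Fin 40)) (fun x _ => Finset.mem_univ _)
  rw [Finset.card_univ, Fintype.card_fin] at h40
  unfold Nat.ModEq at h40
  omega

/-- If no column is fixed then 0 or 5 rows are fixed. -/
theorem five_rows (hD : IsGH D) (h : ∀ i j, D (σ i) (τ j) = D i j + a i + b j)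
    (hσ : σ ^ 5 = 1) (hτ : τ ^ 5 = 1) (h0 : (univ.filter fun k => τ k = k).card = 0) :
    (univ.filter fun i => σ i = i).card = 0 ∨ (univ.filter fun i => σ i = i).card = 5 := by
  have h5 := five_dvd hσ
  have hle : (univ.filter fun i => σ i = i).card ≤ 5 := by
    have h1 : Set.InjOn a ((univ.filter fun i => σ i = i : Finset (Fin 40)) : Set (Fin 40)) := by
      intro i hi i' hi' hh
      rw [Finset.mem_coe, Finset.mem_filter] at hi hi'
      exact five_inj hD h hτ h0 hi.2 hi'.2 hh
    have h2 := Finset.card_le_card_of_injOn (t := (univ : Finset (ZMod 5))) a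
      (fun i _ => Finset.mem_univ _) h1
    rwa [Finset.card_univ, ZMod.card] at h2
  omega

theorem five_not_both_aux (hD : IsGH D) (h : ∀ i j, D (σ i) (τ j) = D i j + a i + b j)
    (hσ : σ ^ 5 = 1) (hτ : τ ^ 5 = 1) {i0 : Fin 40} (hne : σ i0 ≠ i0)
    (hr : (univ.filter fun i => σ i = i).card ≠ 0)
    (hc : (univ.filter fun k => τ k = k).card ≠ 0) : False := by
  obtain ⟨j1, hj1⟩ := Finset.card_pos.1 (Nat.pos_of_ne_zero hc)
  rw [Finset.mem_filter] at hj1
  have h5 := five_dvd hσ
  obtain ⟨i, hi, i', hi', hii⟩ := Finset.one_lt_card.1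
    (by omega : 1 < (univ.filter fun i => σ i = i).card)
  rw [Finset.mem_filter] at hi hi'
  have key : ∀ i, σ i = i → ∀ j, τ j = j → a i + b j = 0 := by
    intro i hi j hj
    have h1 := h i j
    rw [hi, hj] at h1
    have h2 : D i j + (a i + b j) = D i j + 0 := by
      rw [add_zero, ← add_assoc]
      exact h1.symm
    exact add_left_cancel h2
  have e1 := key i hi.2 j1 hj1.2
  have e2 := key i' hi'.2 j1 hj1.2
  have haa : a i = a i' := by
    have : a i + b j1 = a i' + b j1 := by rw [e1, e2]
    exact add_right_cancel this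
  have h15 := five_two_fixed hD h hτ hii hi.2 hi'.2 haa
  have h8 := five_le hD h hne (β := - a i) (fun j hj => by
    have := key i hi.2 j hj
    exact (neg_eq_of_add_eq_zero_right this).symm)
  omega

/-- A symmetry of order 5 does not fix both a row and a column. -/
theorem five_not_both (hD : IsGH D) (h : ∀ i j, D (σ i) (τ j) = D i j + a i + b j)
    (hσ : σ ^ 5 = 1) (hτ : τ ^ 5 = 1) (hne : σ ≠ 1 ∨ τ ≠ 1)
    (hr : (univ.filter fun i => σ i = i).card ≠ 0)
    (hc : (univ.filter fun k => τ k = k).card ≠ 0) : False := by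
  rcases hne with hne | hne
  · have : ∃ i, σ i ≠ i := by
      by_contra hcon
      push Not at hcon
      exact hne (Equiv.ext hcon)
    obtain ⟨i0, hi0⟩ := this
    exact five_not_both_aux hD h hσ hτ hi0 hr hc
  · have : ∃ i, τ i ≠ i := by
      by_contra hcon
      push Not at hcon
      exact hne (Equiv.ext hcon)
    obtain ⟨i0, hi0⟩ := this
    exact five_not_both_aux (D := fun i j => D j i) (a := b) (b := a) hD.transpose
      (fun i j => by rw [h j i]; ring) hτ hσ hi0 hc hr

/-- The numbers of fixed rows and columns of a symmetry of order 5. -/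
theorem five_types (hD : IsGH D) (h : ∀ i j, D (σ i) (τ j) = D i j + a i + b j)
    (hσ : σ ^ 5 = 1) (hτ : τ ^ 5 = 1) (hne : σ ≠ 1 ∨ τ ≠ 1) :
    ((univ.filter fun i => σ i = i).card = 0 ∧ (univ.filter fun k => τ k = k).card = 0) ∨
    ((univ.filter fun i => σ i = i).card = 5 ∧ (univ.filter fun k => τ k = k).card = 0) ∨
    ((univ.filter fun i => σ i = i).card = 0 ∧ (univ.filter fun k => τ k = k).card = 5) := by
  by_cases hc : (univ.filter fun k => τ k = k).card = 0
  · rcases five_rows hD h hσ hτ hc with h1 | h1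
    · exact Or.inl ⟨h1, hc⟩
    · exact Or.inr (Or.inl ⟨h1, hc⟩)
  · by_cases hr : (univ.filter fun i => σ i = i).card = 0
    · have := five_rows (D := fun i j => D j i) (a := b) (b := a) hD.transpose
        (fun i j => by rw [h j i]; ring) hτ hσ hr
      rcases this with h1 | h1
      · exact absurd h1 hc
      · exact Or.inr (Or.inr ⟨hr, h1⟩)
    · exact (five_not_both hD h hσ hτ hne hr hc).elim

end

end Pool.Agent.GH5
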