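import Mathlib
import Pool.Agent.Lib_helper98.GH5.Five

/-!
# Burnside's lemma for the rows and the columns; no element of order 25
-/

set_option autoImplicit false

open Finset Equiv

namespace Pool.Agent.GH5

/-- Burnside's lemma. -/
theorem burnside {Q : Type*} [Group Q] [Fintype Q] (ρ : Q →* Perm (Fin 40)) :
    Fintype.card Q ∣ ∑ g : Q, (univ.filter fun i => ρ g i = i).card := by
  classical
  let act : MulAction Q (Fin 40) := MulAction.compHom (Fin 40) ρ
  let ft : Fintype (Quotient (MulAction.orbitRel Q (Fin 40))) := Fintype.ofFinite _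
  have h := MulAction.sum_card_fixedBy_eq_card_orbits_mul_card_group Q (Fin 40)
  have h2 : ∀ g : Q, Fintype.card (MulAction.fixedBy (Fin 40) g)
      = (univ.filter fun i => ρ g i = i).card := by
    intro g
    rw [Fintype.card_subtype]
    rfl
  rw [Finset.sum_congr rfl fun g _ => h2 g] at h
  rw [h]
  exact Dvd.intro_left _ rfl

theorem burnside_rows (Q : Subgroup (Perm (Fin 40) × Perm (Fin 40))) [Fintype Q] :
    Fintype.card Q ∣ ∑ g : Q, fixedRows g.1 :=
  burnside ((MonoidHom.fst _ _).comp Q.subtype)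

theorem burnside_cols (Q : Subgroup (Perm (Fin 40) × Perm (Fin 40))) [Fintype Q] :
    Fintype.card Q ∣ ∑ g : Q, fixedCols g.1 :=
  burnside ((MonoidHom.snd _ _).comp Q.subtype)

/-- A free action on an invariant set of points. -/
theorem card_dvd_free {Q : Type*} [Group Q] (ρ : Q →* Perm (Fin 40)) (S : Finset (Fin 40))
    (hS : ∀ g, ∀ x ∈ S, ρ g x ∈ S) (hfree : ∀ g, ∀ x ∈ S, ρ g x = x → g = 1) :
    Nat.card Q ∣ S.card := by
  classical
  let act : MulAction Q {x // x ∈ S} :=
    { smul := fun g x => ⟨ρ g x.1, hS g _ x.2⟩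
      one_smul := fun x => by
        apply Subtype.ext
        change ρ 1 x.1 = x.1
        rw [map_one]
        rfl
      mul_smul := fun g g' x => by
        apply Subtype.ext
        change ρ (g * g') x.1 = ρ g (ρ g' x.1)
        rw [map_mul]
        rfl }
  have hst : ∀ x : {x // x ∈ S}, MulAction.stabilizer Q x = ⊥ := by
    intro x
    rw [eq_bot_iff]
    intro g hg
    rw [MulAction.mem_stabilizer_iff] at hg
    rw [Subgroup.mem_bot]
    exact hfree g x.1 x.2 (congrArg Subtype.val hg)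
  have heq := Nat.card_congr (MulAction.selfEquivOrbitsQuotientProd (G := Q) hst)
  rw [Nat.card_prod] at heq
  have h2 : Nat.card {x // x ∈ S} = S.card := by simp
  rw [← h2, heq]
  exact Dvd.intro_left _ rfl

/-- Powers prime to the order have the same fixed points. -/
theorem fixed_pow_iff {w : Perm (Fin 40)} (hw : w ^ 5 = 1) {k : ℕ} (hk : ¬ 5 ∣ k) (i : Fin 40) :
    (w ^ k) i = i ↔ w i = i := by
  have pw : ∀ (u : Perm (Fin 40)) (n : ℕ), u i = i → (u ^ n) i = i := by
    intro u n hu
    induction n with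
    | zero => rfl
    | succ n ih => rw [pow_succ, Perm.mul_apply, hu, ih]
  constructor
  · intro h
    obtain ⟨m, hm⟩ : ∃ m : ℕ, (k * m) % 5 = 1 := by
      have h1 : ∀ r ∈ Finset.range 5, r ≠ 0 → ∃ m ∈ Finset.range 5, (r * m) % 5 = 1 := by decide
      obtain ⟨m, -, hm⟩ := h1 (k % 5) (Finset.mem_range.2 (Nat.mod_lt _ (by norm_num)))
        (fun hh => hk (Nat.dvd_of_mod_eq_zero hh))
      refine ⟨m, ?_⟩
      rw [Nat.mul_mod, Nat.mod_mod] at hm
      rw [Nat.mul_mod]
      exact hm
    have h2 := pw (w ^ k) m h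
    rw [← pow_mul, pow_eq_pow_mod _ hw, hm, pow_one] at h2
    exact h2
  · exact pw w k

/-- The types of an element of order 5 of the symmetry group. -/
theorem types5 {D : Fin 40 → Fin 40 → ZMod 5} (hD : IsGH D)
    {g : Perm (Fin 40) × Perm (Fin 40)} (hg : g ∈ Sym D) (h5 : g ^ 5 = 1) (h1 : g ≠ 1) :
    (fixedRows g = 0 ∧ fixedCols g = 0) ∨ (fixedRows g = 5 ∧ fixedCols g = 0) ∨
      (fixedRows g = 0 ∧ fixedCols g = 5) := by
  obtain ⟨a, b, h⟩ := hg
  refine five_types hD h (congrArg Prod.fst h5) (congrArg Prod.snd h5) ?_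
  by_contra hcon
  push Not at hcon
  exact h1 (Prod.ext hcon.1 hcon.2)

/-- No symmetry of order 25. -/
theorem no_order_25 {D : Fin 40 → Fin 40 → ZMod 5} (hD : IsGH D)
    {g : Perm (Fin 40) × Perm (Fin 40)} (hg : g ∈ Sym D) : orderOf g ≠ 25 := by
  intro ho
  have h25 : g ^ 25 = 1 := by rw [← ho]; exact pow_orderOf_eq_one g
  have hh5 : (g ^ 5) ^ 5 = 1 := by rw [← pow_mul]; exact h25
  have hne : g ^ 5 ≠ 1 := by
    intro h
    have := orderOf_dvd_of_pow_eq_one h
    rw [ho] at this
    norm_num at this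
  have ht := types5 hD (Subgroup.pow_mem _ hg 5) hh5 hne
  set S : Finset (Fin 40) := univ.filter fun i => (g ^ 5).1 i ≠ i with hS
  have hcard : S.card + fixedRows (g ^ 5) = 40 := by
    rw [hS, fixedRows, add_comm]
    have := Finset.card_filter_add_card_filter_not (s := (univ : Finset (Fin 40)))
      (fun i => (g ^ 5).1 i = i)
    rw [Finset.card_univ, Fintype.card_fin] at this
    exact this
  have hdvd := card_dvd_free ((MonoidHom.fst _ _).comp (Subgroup.zpowers g).subtype) S (by
    intro x i hi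
    rw [hS, Finset.mem_filter] at hi ⊢
    refine ⟨Finset.mem_univ _, fun h => hi.2 ?_⟩
    obtain ⟨k, hk⟩ := Subgroup.mem_zpowers_iff.1 x.2
    have hc : x.1.1 * (g ^ 5).1 = (g ^ 5).1 * x.1.1 := by
      rw [← hk]
      exact congrArg Prod.fst (((Commute.refl g).zpow_left k).pow_right 5).eq
    change (g ^ 5).1 (x.1.1 i) = x.1.1 i at h
    rw [← Perm.mul_apply, ← hc, Perm.mul_apply] at h
    exact x.1.1.injective h) (by
    intro x i hi h
    rw [hS, Finset.mem_filter] at hi
    by_contra hx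
    apply hi.2
    have hfin : IsOfFinOrder g := isOfFinOrder_of_finite g
    obtain ⟨k, hk⟩ := (hfin.mem_zpowers_iff_mem_range_orderOf).1 x.2 |> Finset.mem_image.1
    obtain ⟨hk1, hk2⟩ := hk
    rw [ho] at hk1
    have hk0 : k ≠ 0 := by
      rintro rfl
      apply hx
      apply Subtype.ext
      rw [← hk2]
      simp
    have h1 : ∀ k ∈ Finset.range 25, k ≠ 0 → ∃ m ∈ Finset.range 25, (k * m) % 25 = 5 := by
      decide
    obtain ⟨m, -, hm⟩ := h1 k hk1 hk0
    have h2 : x.1 ^ m = g ^ 5 := by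
      rw [← hk2]
      change (g ^ k) ^ m = g ^ 5
      rw [← pow_mul, pow_eq_pow_mod _ h25, hm]
    have pw : ∀ (u : Perm (Fin 40)) (n : ℕ), u i = i → (u ^ n) i = i := by
      intro u n hu
      induction n with
      | zero => rfl
      | succ n ih => rw [pow_succ, Perm.mul_apply, hu, ih]
    have h3 := pw x.1.1 m h
    have h4 : x.1.1 ^ m = (g ^ 5).1 := congrArg Prod.fst h2
    rw [h4] at h3
    exact h3)
  rw [Nat.card_zpowers, ho] at hdvd
  omega

end Pool.Agent.GH5
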