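import Mathlib

/-!
# The determinant of the twisted orbit matrix

`G` acts on the rows `R` and the columns `C` of a matrix `H` with orthogonal rows of norm `κ`,
`H (g i) (g j) = H i j`.  For a character `χ` the matrix `∑ g, χ g * H (g x) y`, `x`, `y` running
over representatives of the orbits on whose stabilisers `χ` is trivial, has determinant `δ` with
`δ * conj δ = κ ^ m * ∏ w * ∏ v`, `w`, `v` the orders of the stabilisers.
-/

set_option autoImplicit false

open Finset

namespace Pool.Agent.GH5.Orb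

variable {G R C : Type*} [Group G] [Fintype G] [DecidableEq G] [Fintype R] [Fintype C]
  [DecidableEq R] [DecidableEq C] [MulAction G R] [MulAction G C]

/-- The twisted sum. -/
noncomputable def L (χ : G →* ℂ) (H : R → C → ℂ) (x : R) (j : C) : ℂ :=
  ∑ g : G, χ g * H (g • x) j

/-- The order of the stabiliser. -/
def w (G : Type*) [Group G] [Fintype G] {X : Type*} [DecidableEq X] [MulAction G X] (x : X) : ℕ :=
  (univ.filter fun s : G => s • x = x).card

/-- The character is trivial on the stabiliser. -/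
def Good {X : Type*} [MulAction G X] (χ : G →* ℂ) (x : X) : Prop :=
  ∀ s : G, s • x = x → χ s = 1

theorem L_smul (χ : G →* ℂ) (H : R → C → ℂ) (hH : ∀ (g : G) i j, H (g • i) (g • j) = H i j)
    (x : R) (j : C) (h : G) : L χ H x (h • j) = χ h * L χ H x j := by
  unfold L
  rw [Finset.mul_sum, ← Equiv.sum_comp (Equiv.mulLeft h)]
  refine Finset.sum_congr rfl fun g _ => ?_
  rw [Equiv.coe_mulLeft, map_mul, mul_smul, hH, mul_assoc]

theorem L_bad (χ : G →* ℂ) (H : R → C → ℂ) (hH : ∀ (g : G) i j, H (g • i) (g • j) = H i j)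
    (x : R) (j : C) (hj : ¬ Good χ j) : L χ H x j = 0 := by
  unfold Good at hj
  push Not at hj
  obtain ⟨s, hs, hχ⟩ := hj
  have h := L_smul χ H hH x j s
  rw [hs] at h
  have h2 : (χ s - 1) * L χ H x j = 0 := by linear_combination -h
  rcases mul_eq_zero.1 h2 with h3 | h3
  · exact absurd (sub_eq_zero.1 h3) hχ
  · exact h3

theorem L_orth (χ : G →* ℂ) (H : R → C → ℂ) (κ : ℂ)
    (orth : ∀ i i', ∑ j, H i j * (starRingEnd ℂ) (H i' j) = if i = i' then κ else 0)
    (x x' : R) :
    ∑ j, L χ H x j * (starRingEnd ℂ) (L χ H x' j)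
      = ∑ g : G, ∑ g' : G, χ g * (starRingEnd ℂ) (χ g') * if g • x = g' • x' then κ else 0 := by
  unfold L
  simp_rw [map_sum, Finset.sum_mul_sum]
  rw [Finset.sum_comm]
  refine Finset.sum_congr rfl fun g _ => ?_
  rw [Finset.sum_comm]
  refine Finset.sum_congr rfl fun g' _ => ?_
  rw [← orth, Finset.mul_sum]
  refine Finset.sum_congr rfl fun j _ => ?_
  rw [map_mul]
  ring

theorem diag_val (χ : G →* ℂ) (hχ : ∀ g, χ g * (starRingEnd ℂ) (χ g) = 1) (κ : ℂ) (x : R)
    (hx : Good χ x) :
    ∑ g : G, ∑ g' : G, χ g * (starRingEnd ℂ) (χ g') * (if g • x = g' • x then κ else 0)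
      = κ * Fintype.card G * w G x := by
  have h1 : ∀ g : G, ∑ g' : G, χ g * (starRingEnd ℂ) (χ g') * (if g • x = g' • x then κ else 0)
      = κ * w G x := by
    intro g
    rw [← Equiv.sum_comp (Equiv.mulLeft g)]
    have h2 : ∀ s : G, χ g * (starRingEnd ℂ) (χ ((Equiv.mulLeft g) s))
        * (if g • x = ((Equiv.mulLeft g) s) • x then κ else 0)
        = if s • x = x then κ else 0 := by
      intro s
      rw [Equiv.coe_mulLeft, mul_smul]
      by_cases hs : s • x = x
      · rw [if_pos hs, hs, if_pos rfl, map_mul, map_mul, hx s hs, map_one, mul_one, hχ, one_mul]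
      · rw [if_neg hs, if_neg, mul_zero]
        intro h
        exact hs ((smul_left_cancel g h).symm)
    rw [Finset.sum_congr rfl fun s _ => h2 s, ← Finset.sum_filter, Finset.sum_const,
      nsmul_eq_mul, mul_comm]
    rfl
  rw [Finset.sum_congr rfl fun g _ => h1 g, Finset.sum_const, nsmul_eq_mul, Finset.card_univ]
  ring

theorem off_val (χ : G →* ℂ) (κ : ℂ) (x x' : R) (h : ∀ g : G, g • x ≠ x') :
    ∑ g : G, ∑ g' : G, χ g * (starRingEnd ℂ) (χ g') * (if g • x = g' • x' then κ else 0) = 0 := by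
  refine Finset.sum_eq_zero fun g _ => Finset.sum_eq_zero fun g' _ => ?_
  rw [if_neg, mul_zero]
  intro he
  refine h (g'⁻¹ * g) ?_
  rw [mul_smul, he, inv_smul_smul]

section Orbits

variable {X : Type*} [Fintype X] [DecidableEq X] [MulAction G X]
  [Fintype (MulAction.orbitRel.Quotient G X)] [DecidableEq (MulAction.orbitRel.Quotient G X)]

/-- The length of an orbit. -/
def len (a : MulAction.orbitRel.Quotient G X) : ℕ :=
  (univ.filter fun i : X => (Quotient.mk'' i : MulAction.orbitRel.Quotient G X) = a).card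

theorem exists_smul_out (i : X) :
    ∃ g : G, g • (Quotient.mk'' i : MulAction.orbitRel.Quotient G X).out = i := by
  have h : (Quotient.mk'' (Quotient.mk'' i : MulAction.orbitRel.Quotient G X).out :
      MulAction.orbitRel.Quotient G X) = Quotient.mk'' i := Quotient.out_eq' _
  have h2 := Quotient.eq''.1 h
  have h3 : i ∈ MulAction.orbit G (Quotient.mk'' i : MulAction.orbitRel.Quotient G X).out :=
    MulAction.orbitRel_apply.1 (Setoid.symm' _ h2)
  exact h3

theorem sum_orbits {A : Type*} [CommSemiring A] (F : X → A) (hF : ∀ (g : G) i, F (g • i) = F i) :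
    ∑ i, F i = ∑ a : MulAction.orbitRel.Quotient G X, (len a : A) * F a.out := by
  rw [← Finset.sum_fiberwise (s := univ)
    (g := fun i : X => (Quotient.mk'' i : MulAction.orbitRel.Quotient G X))]
  refine Finset.sum_congr rfl fun a _ => ?_
  have h : ∀ i ∈ univ.filter (fun i : X => (Quotient.mk'' i : MulAction.orbitRel.Quotient G X) = a),
      F i = F a.out := by
    intro i hi
    obtain ⟨g, hg⟩ := exists_smul_out (G := G) i
    rw [(Finset.mem_filter.1 hi).2] at hg
    rw [← hg, hF]
  rw [Finset.sum_congr rfl h, Finset.sum_const, nsmul_eq_mul]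
  rfl

theorem len_mul_w (a : MulAction.orbitRel.Quotient G X) :
    len a * w G a.out = Fintype.card G := by
  have h1 : (univ : Finset G).card = ∑ i ∈ univ.filter (fun i : X =>
      (Quotient.mk'' i : MulAction.orbitRel.Quotient G X) = a),
      ((univ : Finset G).filter fun g => g • a.out = i).card := by
    refine Finset.card_eq_sum_card_fiberwise (f := fun g : G => g • a.out) ?_
    intro g _
    simp only [Finset.coe_filter, Finset.mem_univ, true_and, Set.mem_ofPred_eq]
    rw [← Quotient.out_eq' a]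
    refine Quotient.eq''.2 ?_
    rw [Quotient.out_eq' a]
    exact MulAction.orbitRel_apply.2 ⟨g, rfl⟩
  rw [← Finset.card_univ, h1, len, ← smul_eq_mul, ← Finset.sum_const]
  refine Finset.sum_congr rfl fun i hi => ?_
  obtain ⟨g0, hg0⟩ := exists_smul_out (G := G) i
  rw [(Finset.mem_filter.1 hi).2] at hg0
  refine Finset.card_bij (fun s _ => g0 * s) ?_ ?_ ?_
  · intro s hs
    rw [Finset.mem_filter] at hs ⊢
    refine ⟨Finset.mem_univ _, ?_⟩
    rw [mul_smul, hs.2, hg0]
  · intro s _ t _ h
    exact mul_left_cancel h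
  · intro g hg
    rw [Finset.mem_filter] at hg
    refine ⟨g0⁻¹ * g, ?_, by group⟩
    rw [Finset.mem_filter]
    refine ⟨Finset.mem_univ _, ?_⟩
    rw [mul_smul, hg.2, ← hg0, inv_smul_smul]

end Orbits

theorem det_mem (S : Subalgebra ℤ ℂ) {α : Type*} [Fintype α] [DecidableEq α]
    (M : Matrix α α ℂ) (hM : ∀ a b, M a b ∈ S) : M.det ∈ S := by
  rw [Matrix.det_apply]
  refine Subalgebra.sum_mem _ fun σ _ => ?_
  rcases Int.units_eq_one_or (Equiv.Perm.sign σ) with h | h
  · rw [h, one_smul]
    exact Subalgebra.prod_mem _ fun i _ => hM _ _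
  · rw [h, Units.neg_smul, one_smul]
    exact Subalgebra.neg_mem _ (Subalgebra.prod_mem _ fun i _ => hM _ _)

theorem main (χ : G →* ℂ) (hχ : ∀ g, χ g * (starRingEnd ℂ) (χ g) = 1)
    (H : R → C → ℂ) (hH : ∀ (g : G) i j, H (g • i) (g • j) = H i j) (κ : ℕ)
    (orth : ∀ i i', ∑ j, H i j * (starRingEnd ℂ) (H i' j) = if i = i' then (κ : ℂ) else 0)
    (S : Subalgebra ℤ ℂ) (hS : ∀ i j, H i j ∈ S) (hSχ : ∀ g, χ g ∈ S)
    [Fintype (MulAction.orbitRel.Quotient G R)] [DecidableEq (MulAction.orbitRel.Quotient G R)]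
    [Fintype (MulAction.orbitRel.Quotient G C)] [DecidableEq (MulAction.orbitRel.Quotient G C)]
    (PR : Finset (MulAction.orbitRel.Quotient G R)) (PC : Finset (MulAction.orbitRel.Quotient G C))
    (hPR : ∀ a ∈ PR, Good χ a.out) (hPC : ∀ b, b ∉ PC → ¬ Good χ b.out)
    (hcard : PR.card = PC.card) :
    ∃ δ ∈ S, δ * (starRingEnd ℂ) δ
      = ((κ ^ PR.card * (∏ a ∈ PR, w G a.out) * ∏ b ∈ PC, w G b.out : ℕ) : ℂ) := by
  classical
  have hc : Fintype.card PR = Fintype.card PC := by
    rw [Fintype.card_coe, Fintype.card_coe, hcard]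
  let e : PR ≃ PC := Fintype.equivOfCardEq hc
  let M : Matrix PR PR ℂ := fun a b => L χ H a.1.out (e b).1.out
  let D : PR → ℂ := fun a => (len (e a).1 : ℂ)
  have key : M * Matrix.diagonal D * M.conjTranspose
      = Matrix.diagonal (fun a : PR => (κ : ℂ) * Fintype.card G * w G a.1.out) := by
    ext a a'
    rw [Matrix.mul_apply, Matrix.diagonal_apply]
    have h1 : ∀ b : PR, (M * Matrix.diagonal D) a b * M.conjTranspose b a'
        = (fun c : PC => (len c.1 : ℂ) * (L χ H a.1.out c.1.out
          * (starRingEnd ℂ) (L χ H a'.1.out c.1.out))) (e b) := by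
      intro b
      rw [Matrix.mul_diagonal, Matrix.conjTranspose_apply]
      change L χ H a.1.out (e b).1.out * (len (e b).1 : ℂ)
        * (starRingEnd ℂ) (L χ H a'.1.out (e b).1.out) = _
      ring
    rw [Finset.sum_congr rfl fun b _ => h1 b, Equiv.sum_comp e
      (fun c : PC => (len c.1 : ℂ) * (L χ H a.1.out c.1.out
          * (starRingEnd ℂ) (L χ H a'.1.out c.1.out)))]
    have h2 : ∑ c : PC, (len c.1 : ℂ) * (L χ H a.1.out c.1.out
          * (starRingEnd ℂ) (L χ H a'.1.out c.1.out))
        = ∑ c : MulAction.orbitRel.Quotient G C, (len c : ℂ) * (L χ H a.1.out c.out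
          * (starRingEnd ℂ) (L χ H a'.1.out c.out)) := by
      rw [Finset.sum_coe_sort PC (fun c => (len c : ℂ) * (L χ H a.1.out c.out
          * (starRingEnd ℂ) (L χ H a'.1.out c.out)))]
      refine Finset.sum_subset (Finset.subset_univ _) fun c _ hc => ?_
      rw [L_bad χ H hH _ _ (hPC c hc), zero_mul, mul_zero]
    rw [h2, ← sum_orbits (G := G) (X := C) (fun j => L χ H a.1.out j
          * (starRingEnd ℂ) (L χ H a'.1.out j)), L_orth χ H κ orth]
    · by_cases haa : a = a'
      · subst haa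
        rw [if_pos rfl, diag_val χ hχ _ _ (hPR a.1 a.2)]
      · rw [if_neg haa, off_val]
        intro g hg
        apply haa
        apply Subtype.ext
        rw [← Quotient.out_eq' a.1, ← Quotient.out_eq' a'.1]
        refine Quotient.eq''.2 ?_
        exact MulAction.orbitRel_apply.2 ⟨g⁻¹, by
          change g⁻¹ • (a'.1).out = (a.1).out
          rw [← hg, inv_smul_smul]⟩
    · intro g j
      rw [L_smul χ H hH, L_smul χ H hH, map_mul]
      linear_combination (L χ H a.1.out j * (starRingEnd ℂ) (L χ H a'.1.out j)) * hχ g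
  have hdet := congrArg Matrix.det key
  rw [Matrix.det_mul, Matrix.det_mul, Matrix.det_diagonal, Matrix.det_diagonal,
    Matrix.det_conjTranspose] at hdet
  refine ⟨M.det, ?_, ?_⟩
  · refine det_mem S M fun a b => ?_
    exact Subalgebra.sum_mem _ fun g _ => Subalgebra.mul_mem _ (hSχ g) (hS _ _)
  · change M.det * (∏ i, D i) * (starRingEnd ℂ) M.det = _ at hdet
    have hD : ∏ i, D i = ((∏ b ∈ PC, len b : ℕ) : ℂ) := by
      rw [Nat.cast_prod, ← Finset.prod_coe_sort PC, ← Equiv.prod_comp e]
    have hD2 : (∏ b ∈ PC, len b) * ∏ b ∈ PC, w G b.out = Fintype.card G ^ PR.card := by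
      rw [← Finset.prod_mul_distrib, Finset.prod_congr rfl fun b _ => len_mul_w b,
        Finset.prod_const, hcard]
    have hR : ∏ a : PR, ((κ : ℂ) * Fintype.card G * w G a.1.out)
        = ((κ ^ PR.card * Fintype.card G ^ PR.card * ∏ a ∈ PR, w G a.out : ℕ) : ℂ) := by
      rw [Finset.prod_coe_sort PR (fun a => (κ : ℂ) * Fintype.card G * w G a.out),
        Finset.prod_mul_distrib, Finset.prod_const]
      push_cast
      ring
    rw [hD, hR] at hdet
    have hne : ((∏ b ∈ PC, len b : ℕ) : ℂ) ≠ 0 := by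
      rw [Nat.cast_ne_zero]
      intro h0
      rw [h0, zero_mul] at hD2
      exact (pow_pos Fintype.card_pos _).ne hD2
    apply mul_left_cancel₀ hne
    have h3 : ((∏ b ∈ PC, len b : ℕ) : ℂ) * (M.det * (starRingEnd ℂ) M.det)
        = M.det * ((∏ b ∈ PC, len b : ℕ) : ℂ) * (starRingEnd ℂ) M.det := by ring
    rw [h3, hdet, ← hD2]
    push_cast
    ring

end Pool.Agent.GH5.Orb
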