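import Mathlib
import Pool.Agent.Lib_helper98.GH5.Basic

/-!
# Statements of the 2-adic part (targets for the modules DET; all `theorem`s are left as `def`s)

`E` is a `GH(5,8)` over `ℤ/5`.  Common tool: `M a b = ∑ g, χ g * e (E (x a) (κ g (y b)))` satisfies
`M * diag(1/v) * Mᴴ = 40 * diag(w)` (`w`, `v` = orders of the stabilisers of the representatives),
so `det M * conj (det M) = 40 ^ m * ∏ w * ∏ v`, and the 2-adic valuation of such a number is even.
-/

set_option autoImplicit false

open Finset Equiv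

namespace Pool.Agent.GH5

/-- PAR: the parity lemma.  Proof: let `A` be the subring generated by `η`.  Both `y ↦ y ^ 2 ^ s`
and `y ↦ conj y` are ring homomorphisms `A → A / 2 A` which agree at `η` (as `η ^ (2 ^ s) = η⁻¹ =
conj η`), so they agree.  If `N` is even then `δ ^ (2 ^ s + 1) = 0` in `A / 2 A`, and
`δ ^ 4 ^ s = δ` there, so `δ = 2 δ'`; then `δ' * conj δ' = N / 4` is an algebraic integer, hence
`4 ∣ N`, induction on `N`. -/
def St_par : Prop :=
  ∀ (n s : ℕ), 0 < s → n ∣ 2 ^ s + 1 → ∀ η : ℂ, η ^ n = 1 →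
    ∀ δ ∈ Algebra.adjoin ℤ {η}, ∀ N : ℕ, N ≠ 0 → δ * (starRingEnd ℂ) δ = N →
      Even (padicValNat 2 N)

/-- DET4: a symmetry of order dividing 4 without translations.  With `f₁` = number of fixed points
of `σ`, `f₂` = number of fixed points of `σ²`, the number of orbits on rows (= on columns) is
`m = (40 + f₂ + 2 f₁) / 4`, the multisets of the orders of the stabilisers agree for rows and
columns, so `3 m` is even.  (For `σ² = 1` this says `4 ∣ f₁`.) -/
def St_det4 : Prop :=
  ∀ (E : Fin 40 → Fin 40 → ZMod 5), IsGH E → ∀ σ τ : Perm (Fin 40), σ ^ 4 = 1 → τ ^ 4 = 1 →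
    (∀ i j, E (σ i) (τ j) = E i j) →
    (univ.filter fun i => σ i = i).card = (univ.filter fun j => τ j = j).card →
    (univ.filter fun i => (σ ^ 2) i = i).card = (univ.filter fun j => (τ ^ 2) j = j).card →
    8 ∣ (univ.filter fun i => (σ ^ 2) i = i).card + 2 * (univ.filter fun i => σ i = i).card

/-- DET8: no group of order 8 acts semiregularly on the rows and on the columns
(`m = 5`, all stabilisers trivial). -/
def St_det8 : Prop :=
  ∀ (E : Fin 40 → Fin 40 → ZMod 5), IsGH E →
    ∀ Q : Subgroup (Perm (Fin 40) × Perm (Fin 40)), Nat.card Q = 8 →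
    (∀ g ∈ Q, ∀ i j, E (g.1 i) (g.2 j) = E i j) →
    (∀ g ∈ Q, g ≠ 1 → (∀ i, g.1 i ≠ i) ∧ (∀ j, g.2 j ≠ j)) → False

/-- DET13: no symmetry of order 13 (3 free cycles on rows and columns, one fixed row, one fixed
column; `χ` a nontrivial character, values in `ℤ[ζ₆₅]`, `65 = 2 ^ 6 + 1`, `m = 3`). -/
def St_det13 : Prop :=
  ∀ (E : Fin 40 → Fin 40 → ZMod 5), IsGH E → ∀ σ τ : Perm (Fin 40), σ ^ 13 = 1 → τ ^ 13 = 1 →
    (∀ i j, E (σ i) (τ j) = E i j) →
    (univ.filter fun i => σ i = i).card = 1 → (univ.filter fun j => τ j = j).card = 1 → False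

end Pool.Agent.GH5
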