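import Mathlib
import Pool.Agent.Lib_helper98.GH5.StDet

/-!
# The parity lemma
-/

set_option autoImplicit false

open Finset Equiv

namespace Pool.Agent.GH5

namespace Par

theorem conj_mem {n : ℕ} {η : ℂ} (hn : 0 < n) (hη : η ^ n = 1) {y : ℂ}
    (hy : y ∈ Algebra.adjoin ℤ {η}) : (starRingEnd ℂ) y ∈ Algebra.adjoin ℤ {η} := by
  have hne : η ≠ 0 := by
    rintro rfl
    rw [zero_pow hn.ne'] at hη
    exact zero_ne_one hη
  have hconj : (starRingEnd ℂ) η = η ^ (n - 1) := by
    have hnorm : ‖η‖ = 1 := by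
      have h := congrArg norm hη
      rw [norm_pow, norm_one] at h
      exact (pow_eq_one_iff_of_nonneg (norm_nonneg _) hn.ne').1 h
    have h1 : η * (starRingEnd ℂ) η = 1 := by
      rw [Complex.mul_conj, Complex.normSq_eq_norm_sq, hnorm]
      norm_num
    have h2 : η * η ^ (n - 1) = 1 := by
      rw [← pow_succ', Nat.sub_add_cancel hn, hη]
    exact mul_left_cancel₀ hne (h1.trans h2.symm)
  induction hy using Algebra.adjoin_induction with
  | mem x hx =>
    rw [Set.mem_singleton_iff] at hx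
    subst hx
    rw [hconj]
    exact Subalgebra.pow_mem _ (Algebra.subset_adjoin (Set.mem_singleton _)) _
  | algebraMap r =>
    rw [eq_intCast, map_intCast]
    exact Subalgebra.intCast_mem _ r
  | add x y _ _ hx hy =>
    rw [map_add]
    exact Subalgebra.add_mem _ hx hy
  | mul x y _ _ hx hy =>
    rw [map_mul]
    exact Subalgebra.mul_mem _ hx hy

/-- The conjugate is the `2 ^ s`-th power modulo two. -/
theorem pow_eq {n s : ℕ} {η : ℂ} (hn : n ∣ 2 ^ s + 1) (hη : η ^ n = 1) {y : ℂ}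
    (hy : y ∈ Algebra.adjoin ℤ {η}) :
    ∃ z ∈ Algebra.adjoin ℤ {η}, y ^ 2 ^ s = (starRingEnd ℂ) y + 2 * z := by
  have hn0 : 0 < n := Nat.pos_of_dvd_of_pos hn (Nat.succ_pos _)
  induction hy using Algebra.adjoin_induction with
  | mem x hx =>
    rw [Set.mem_singleton_iff] at hx
    subst hx
    refine ⟨0, Subalgebra.zero_mem _, ?_⟩
    have hne : x ≠ 0 := by
      rintro rfl
      rw [zero_pow hn0.ne'] at hη
      exact zero_ne_one hη
    have hnorm : ‖x‖ = 1 := by
      have h := congrArg norm hη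
      rw [norm_pow, norm_one] at h
      exact (pow_eq_one_iff_of_nonneg (norm_nonneg _) hn0.ne').1 h
    have h1 : x * (starRingEnd ℂ) x = 1 := by
      rw [Complex.mul_conj, Complex.normSq_eq_norm_sq, hnorm]
      norm_num
    have h2 : x * x ^ 2 ^ s = 1 := by
      rw [← pow_succ']
      obtain ⟨c, hc⟩ := hn
      rw [hc, pow_mul, hη, one_pow]
    rw [mul_zero, add_zero]
    exact mul_left_cancel₀ hne (h2.trans h1.symm)
  | algebraMap r =>
    have hr : (2 : ℤ) ∣ r ^ 2 ^ s - r := by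
      rcases Int.even_or_odd r with h | h
      · have h1 : Even (r ^ 2 ^ s) := h.pow_of_ne_zero (by positivity)
        exact (h1.sub h).two_dvd
      · have h1 : Odd (r ^ 2 ^ s) := h.pow
        exact (h1.sub_odd h).two_dvd
    obtain ⟨c, hc⟩ := hr
    refine ⟨(c : ℂ), Subalgebra.intCast_mem _ c, ?_⟩
    rw [eq_intCast, map_intCast]
    have : r ^ 2 ^ s = r + 2 * c := by omega
    exact_mod_cast this
  | add x y hx hy ihx ihy =>
    obtain ⟨z, hz, hxz⟩ := ihx
    obtain ⟨w, hw, hyw⟩ := ihy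
    obtain ⟨r, hr⟩ := exists_add_pow_prime_pow_eq Nat.prime_two
      (⟨x, hx⟩ : Algebra.adjoin ℤ {η}) ⟨y, hy⟩ s
    have hr' : (x + y) ^ 2 ^ s = x ^ 2 ^ s + y ^ 2 ^ s + 2 * x * y * (r : ℂ) := by
      have := congrArg (fun t : Algebra.adjoin ℤ {η} => (t : ℂ)) hr
      push_cast at this
      exact_mod_cast this
    refine ⟨z + w + x * y * r, Subalgebra.add_mem _ (Subalgebra.add_mem _ hz hw)
      (Subalgebra.mul_mem _ (Subalgebra.mul_mem _ hx hy) r.2), ?_⟩
    rw [hr', hxz, hyw, map_add]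
    ring
  | mul x y hx hy ihx ihy =>
    obtain ⟨z, hz, hxz⟩ := ihx
    obtain ⟨w, hw, hyw⟩ := ihy
    refine ⟨(starRingEnd ℂ) x * w + z * (starRingEnd ℂ) y + 2 * z * w, ?_, ?_⟩
    · have hcx := conj_mem hn0 hη hx
      have hcy := conj_mem hn0 hη hy
      have h2 : (2 : ℂ) ∈ Algebra.adjoin ℤ {η} := by
        exact_mod_cast Subalgebra.natCast_mem (Algebra.adjoin ℤ {η}) 2
      exact Subalgebra.add_mem _ (Subalgebra.add_mem _ (Subalgebra.mul_mem _ hcx hw)
        (Subalgebra.mul_mem _ hz hcy)) (Subalgebra.mul_mem _ (Subalgebra.mul_mem _ h2 hz) hw)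
    · rw [mul_pow, hxz, hyw, map_mul]
      ring

theorem two_mem {η : ℂ} : (2 : ℂ) ∈ Algebra.adjoin ℤ {η} := by
  exact_mod_cast Subalgebra.natCast_mem (Algebra.adjoin ℤ {η}) 2

/-- Powers of congruent elements are congruent. -/
theorem pow_congr {η : ℂ} {a z : ℂ} (ha : a ∈ Algebra.adjoin ℤ {η})
    (hz : z ∈ Algebra.adjoin ℤ {η}) (k : ℕ) :
    ∃ w ∈ Algebra.adjoin ℤ {η}, (a + 2 * z) ^ k = a ^ k + 2 * w := by
  induction k with
  | zero => exact ⟨0, Subalgebra.zero_mem _, by simp⟩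
  | succ k ih =>
    obtain ⟨w, hw, h⟩ := ih
    refine ⟨a ^ k * z + w * a + 2 * w * z, ?_, ?_⟩
    · exact Subalgebra.add_mem _ (Subalgebra.add_mem _
        (Subalgebra.mul_mem _ (Subalgebra.pow_mem _ ha _) hz) (Subalgebra.mul_mem _ hw ha))
        (Subalgebra.mul_mem _ (Subalgebra.mul_mem _ two_mem hw) hz)
    · rw [pow_succ, h, pow_succ]
      ring

theorem step {n s : ℕ} (hs : 0 < s) {η : ℂ} (hn : n ∣ 2 ^ s + 1) (hη : η ^ n = 1) {δ : ℂ}
    (hδ : δ ∈ Algebra.adjoin ℤ {η}) {N : ℕ} (h : δ * (starRingEnd ℂ) δ = N) (hN : Even N) :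
    ∃ δ' ∈ Algebra.adjoin ℤ {η}, δ = 2 * δ' := by
  have hn0 : 0 < n := Nat.pos_of_dvd_of_pos hn (Nat.succ_pos _)
  obtain ⟨M, hM⟩ := hN.two_dvd
  obtain ⟨z, hz, hz'⟩ := pow_eq hn hη hδ
  have hcδ := conj_mem hn0 hη hδ
  obtain ⟨z', hzm', hz''⟩ := pow_eq hn hη hcδ
  rw [Complex.conj_conj] at hz''
  obtain ⟨w, hw, hw'⟩ := pow_congr hcδ hz (2 ^ s)
  have h4 : δ ^ (2 ^ s * 2 ^ s) = δ + 2 * z' + 2 * w := by
    rw [pow_mul, hz', hw', hz'']
  have h1 : δ ^ (2 ^ s + 1) = 2 * (M + δ * z) := by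
    rw [pow_succ', hz', mul_add, h, hM]
    push_cast
    ring
  have hle : 2 ^ s + 1 ≤ 2 ^ s * 2 ^ s := by
    have h2 : 2 ≤ 2 ^ s := by
      calc 2 = 2 ^ 1 := rfl
        _ ≤ 2 ^ s := Nat.pow_le_pow_right (by norm_num) hs
    nlinarith
  obtain ⟨c, hc⟩ := Nat.exists_eq_add_of_le hle
  rw [hc, pow_add, h1] at h4
  refine ⟨(M + δ * z) * δ ^ c - z' - w, ?_, ?_⟩
  · exact Subalgebra.sub_mem _ (Subalgebra.sub_mem _ (Subalgebra.mul_mem _
      (Subalgebra.add_mem _ (Subalgebra.natCast_mem _ M) (Subalgebra.mul_mem _ hδ hz))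
      (Subalgebra.pow_mem _ hδ _)) hzm') hw
  · linear_combination -h4

theorem isIntegral_of_mem {n : ℕ} {η : ℂ} (hn : 0 < n) (hη : η ^ n = 1) {y : ℂ}
    (hy : y ∈ Algebra.adjoin ℤ {η}) : IsIntegral ℤ y := by
  have h1 : IsIntegral ℤ η := by
    refine ⟨Polynomial.X ^ n - 1, Polynomial.monic_X_pow_sub_C 1 hn.ne', ?_⟩
    simp [hη]
  induction hy using Algebra.adjoin_induction with
  | mem x hx =>
    rw [Set.mem_singleton_iff] at hx
    subst hx
    exact h1
  | algebraMap r => exact isIntegral_algebraMap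
  | add x y _ _ hx hy => exact hx.add hy
  | mul x y _ _ hx hy => exact hx.mul hy

end Par

theorem par : St_par := by
  intro n s hs hn η hη δ hδ N
  have hn0 : 0 < n := Nat.pos_of_dvd_of_pos hn (Nat.succ_pos _)
  induction N using Nat.strong_induction_on generalizing δ with
  | _ N ih =>
    intro hN h
    rcases Nat.even_or_odd N with he | ho
    · obtain ⟨δ', hδ', rfl⟩ := Par.step hs hn hη hδ h he
      have hc := Par.conj_mem hn0 hη hδ'
      have h2 : (starRingEnd ℂ) (2 : ℂ) = 2 := by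
        exact map_ofNat _ 2
      have h3 : δ' * (starRingEnd ℂ) δ' = (N : ℂ) / 4 := by
        rw [map_mul, h2] at h
        rw [← h]
        ring
      have hint : IsIntegral ℤ ((N : ℂ) / 4) := by
        rw [← h3]
        exact (Par.isIntegral_of_mem hn0 hη hδ').mul (Par.isIntegral_of_mem hn0 hη hc)
      have hq : IsIntegral ℤ ((N : ℚ) / 4) := by
        have h4 : (algebraMap ℚ ℂ) ((N : ℚ) / 4) = (N : ℂ) / 4 := by
          simp
        rw [← h4] at hint
        exact (isIntegral_algebraMap_iff (algebraMap ℚ ℂ).injective).1 hint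
      obtain ⟨y, hy⟩ := IsIntegrallyClosed.isIntegral_iff.1 hq
      have hy' : (y : ℚ) = (N : ℚ) / 4 := hy
      have hy4 : (N : ℤ) = 4 * y := by
        have : (N : ℚ) = 4 * y := by rw [hy']; ring
        exact_mod_cast this
      obtain ⟨K, rfl⟩ := Int.eq_ofNat_of_zero_le (show 0 ≤ y by omega)
      have hK : N = 4 * K := by exact_mod_cast hy4
      have hK0 : K ≠ 0 := by
        rintro rfl
        exact hN (by rw [hK])
      have hKe : Even (padicValNat 2 K) := by
        refine ih K (by omega) δ' hδ' hK0 ?_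
        rw [h3, hK]
        push_cast
        ring
      have h5 : padicValNat 2 N = 2 + padicValNat 2 K := by
        rw [hK, show 4 = 2 ^ 2 from rfl, padicValNat.mul (by norm_num) hK0,
          padicValNat.prime_pow]
      rw [h5]
      exact (by decide : Even 2).add hKe
    · have : padicValNat 2 N = 0 := by
        rw [padicValNat.eq_zero_iff]
        right; right
        exact ho.not_two_dvd_nat
      rw [this]
      exact Even.zero

end Pool.Agent.GH5
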