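import Mathlib
import Pool.Agent.Lib_helper98.GH5.StDet
import Pool.Agent.Lib_helper98.GH5.Par
import Pool.Agent.Lib_helper98.GH5.Orb

/-!
# The 2-adic part: symmetries of order 4, 8 and 13
-/

set_option autoImplicit false

open Finset Equiv

namespace Pool.Agent.GH5

namespace Det

/-! ## Generalities -/

theorem orth {E : Fin 40 → Fin 40 → ZMod 5} (hE : IsGH E) (i i' : Fin 40) :
    ∑ j, e (E i j) * (starRingEnd ℂ) (e (E i' j)) = if i = i' then ((40 : ℕ) : ℂ) else 0 := by
  by_cases h : i = i'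
  · subst h
    rw [if_pos rfl, Finset.sum_congr rfl fun j _ => e_mul_conj (E i j), Finset.sum_const,
      Finset.card_univ, Fintype.card_fin, nsmul_eq_mul, mul_one]
  · rw [if_neg h, Finset.sum_congr rfl fun j _ => (e_sub (E i j) (E i' j)).symm,
      sum_e_comp univ (fun j => E i j - E i' j)]
    have h1 : ∀ x : ZMod 5, ((univ.filter fun k : Fin 40 => E i k - E i' k = x).card : ℂ) * e x
        = 8 * e x := by
      intro x
      rw [hE i i' h x]
      norm_num
    rw [Finset.sum_congr rfl fun x _ => h1 x, ← Finset.mul_sum, sum_e, mul_zero]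

theorem padic_prod {ι : Type*} (s : Finset ι) (f : ι → ℕ) (h : ∀ i ∈ s, f i ≠ 0) :
    padicValNat 2 (∏ i ∈ s, f i) = ∑ i ∈ s, padicValNat 2 (f i) := by
  classical
  induction s using Finset.induction_on with
  | empty => simp
  | insert a s ha ih =>
    rw [Finset.prod_insert ha, Finset.sum_insert ha, padicValNat.mul (h a (Finset.mem_insert_self _ _))
      (Finset.prod_ne_zero_iff.2 fun i hi => h i (Finset.mem_insert_of_mem hi)),
      ih fun i hi => h i (Finset.mem_insert_of_mem hi)]

theorem padic_forty (m : ℕ) : padicValNat 2 (40 ^ m) = 3 * m := by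
  have h1 : padicValNat 2 40 = 3 := by
    rw [show 40 = 2 ^ 3 * 5 from rfl, padicValNat.mul (by norm_num) (by norm_num),
      padicValNat.prime_pow, padicValNat.eq_zero_of_not_dvd (by norm_num)]
  rw [padicValNat.pow, h1]
  ring

theorem w_pos {G : Type*} [Group G] [Fintype G] {X : Type*} [DecidableEq X] [MulAction G X]
    (x : X) : Orb.w G x ≠ 0 := by
  unfold Orb.w
  rw [Finset.card_ne_zero]
  exact ⟨1, Finset.mem_filter.2 ⟨Finset.mem_univ _, one_smul _ _⟩⟩

theorem w_smul {G : Type*} [Group G] [Fintype G] {X : Type*} [DecidableEq X]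
    [MulAction G X] (g : G) (x : X) : Orb.w G (g • x) = Orb.w G x := by
  unfold Orb.w
  refine Finset.card_bij (fun s _ => g⁻¹ * s * g) ?_ ?_ ?_
  · intro s hs
    rw [Finset.mem_filter] at hs ⊢
    refine ⟨Finset.mem_univ _, ?_⟩
    rw [mul_smul, mul_smul, hs.2, inv_smul_smul]
  · intro s _ t _ h
    exact mul_left_cancel (mul_right_cancel h)
  · intro s hs
    rw [Finset.mem_filter] at hs
    refine ⟨g * s * g⁻¹, ?_, by group⟩
    rw [Finset.mem_filter]
    refine ⟨Finset.mem_univ _, ?_⟩
    rw [mul_smul, mul_smul, inv_smul_smul, hs.2]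

/-- The number of orbits times the order of the group. -/
theorem burnside {G : Type*} [Group G] [Fintype G] {X : Type*} [Fintype X] [DecidableEq X]
    [MulAction G X] [Fintype (MulAction.orbitRel.Quotient G X)]
    [DecidableEq (MulAction.orbitRel.Quotient G X)] :
    ∑ i : X, Orb.w G i
      = Fintype.card (MulAction.orbitRel.Quotient G X) * Fintype.card G := by
  classical
  rw [Orb.sum_orbits (G := G) (fun i : X => Orb.w G i) (fun g i => w_smul g i)]
  have h : ∀ a : MulAction.orbitRel.Quotient G X,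
      ((Orb.len a : ℕ) : ℕ) * Orb.w G a.out = Fintype.card G := fun a => Orb.len_mul_w a
  simp only [Nat.cast_id, h, Finset.sum_const, Finset.card_univ, smul_eq_mul]

theorem e_mem (x : ZMod 5) : e x ∈ Algebra.adjoin ℤ {e 1} := by
  rw [e_eq x]
  exact Subalgebra.pow_mem _ (Algebra.subset_adjoin (Set.mem_singleton _)) _

/-! ## Cyclic groups -/

/-- The rows or columns with the action of a permutation of order dividing `n`. -/
@[ext] structure Cyc (n : ℕ) (σ : Perm (Fin 40)) (h : σ ^ n = 1) where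
  /-- the row or column -/
  v : Fin 40

/-- The rows or columns are numbered from 0 to 39. -/
def Cyc.equiv (n : ℕ) (σ : Perm (Fin 40)) (h : σ ^ n = 1) : Cyc n σ h ≃ Fin 40 where
  toFun i := i.v
  invFun i := ⟨i⟩
  left_inv _ := rfl
  right_inv _ := rfl

instance (n : ℕ) (σ : Perm (Fin 40)) (h : σ ^ n = 1) : Fintype (Cyc n σ h) :=
  Fintype.ofEquiv _ (Cyc.equiv n σ h).symm

instance (n : ℕ) (σ : Perm (Fin 40)) (h : σ ^ n = 1) : DecidableEq (Cyc n σ h) :=
  (Cyc.equiv n σ h).decidableEq

instance (n : ℕ) [NeZero n] (σ : Perm (Fin 40)) (h : σ ^ n = 1) :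
    MulAction (Multiplicative (ZMod n)) (Cyc n σ h) where
  smul g i := ⟨(σ ^ (Multiplicative.toAdd g).val) i.v⟩
  one_smul i := by
    apply Cyc.ext
    change (σ ^ (0 : ZMod n).val) i.v = i.v
    rw [ZMod.val_zero, pow_zero, Perm.one_apply]
  mul_smul g g' i := by
    apply Cyc.ext
    change (σ ^ (Multiplicative.toAdd g + Multiplicative.toAdd g').val) i.v
      = (σ ^ (Multiplicative.toAdd g).val) ((σ ^ (Multiplicative.toAdd g').val) i.v)
    rw [ZMod.val_add, ← pow_eq_pow_mod _ h, pow_add, Perm.mul_apply]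

theorem cyc_smul (n : ℕ) [NeZero n] (σ : Perm (Fin 40)) (h : σ ^ n = 1)
    (g : Multiplicative (ZMod n)) (i : Cyc n σ h) :
    (g • i).v = (σ ^ (Multiplicative.toAdd g).val) i.v := rfl

theorem cyc_sum {A : Type*} [AddCommMonoid A] (n : ℕ) (σ : Perm (Fin 40)) (h : σ ^ n = 1)
    (F : Fin 40 → A) : ∑ i : Cyc n σ h, F i.v = ∑ i : Fin 40, F i :=
  Equiv.sum_comp (Cyc.equiv n σ h) F

theorem inv_pow {E : Fin 40 → Fin 40 → ZMod 5} {σ τ : Perm (Fin 40)}
    (h : ∀ i j, E (σ i) (τ j) = E i j) (k : ℕ) (i j : Fin 40) :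
    E ((σ ^ k) i) ((τ ^ k) j) = E i j := by
  induction k with
  | zero => simp
  | succ k ih => rw [pow_succ', pow_succ', Perm.mul_apply, Perm.mul_apply, h, ih]

/-! ## Order dividing four -/

theorem w_four (σ : Perm (Fin 40)) (h : σ ^ 4 = 1) (i : Cyc 4 σ h) :
    Orb.w (Multiplicative (ZMod 4)) i
      = 1 + 2 * (if σ i.v = i.v then 1 else 0) + (if (σ ^ 2) i.v = i.v then 1 else 0) := by
  obtain ⟨i⟩ := i
  have h3 : (σ ^ 3) i = i ↔ σ i = i := by
    constructor
    · intro h'
      have h4 : (σ ^ 4) i = i := by rw [h]; rfl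
      rw [pow_succ', Perm.mul_apply, h'] at h4
      exact h4
    · intro h'
      have : ∀ k : ℕ, (σ ^ k) i = i := by
        intro k
        induction k with
        | zero => rfl
        | succ k ih => rw [pow_succ', Perm.mul_apply, ih, h']
      exact this 3
  have h0 : Orb.w (Multiplicative (ZMod 4)) (⟨i⟩ : Cyc 4 σ h)
      = ∑ s : Fin 4, if (σ ^ (s : ℕ)) i = i then 1 else 0 := by
    unfold Orb.w
    rw [Finset.card_filter]
    change ∑ s : Fin 4, (if (⟨(σ ^ (s : ℕ)) i⟩ : Cyc 4 σ h) = ⟨i⟩ then 1 else 0) = _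
    refine Finset.sum_congr rfl fun s _ => ?_
    by_cases hs : (σ ^ (s : ℕ)) i = i
    · rw [if_pos hs, if_pos (by rw [hs])]
    · rw [if_neg hs, if_neg]
      intro h'
      exact hs (congrArg Cyc.v h')
  rw [h0, Fin.sum_univ_four]
  change (if (σ ^ 0) i = i then 1 else 0) + (if (σ ^ 1) i = i then 1 else 0)
    + (if (σ ^ 2) i = i then 1 else 0) + (if (σ ^ 3) i = i then 1 else 0) = _
  rw [pow_one, if_pos (show (σ ^ 0) i = i from rfl)]
  simp only [h3]
  ring

theorem sq_fix {σ : Perm (Fin 40)} {i : Fin 40} (h : σ i = i) : (σ ^ 2) i = i := by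
  rw [pow_two, Perm.mul_apply, h, h]

theorem sum_w_four (σ : Perm (Fin 40)) (h : σ ^ 4 = 1) :
    ∑ i : Cyc 4 σ h, Orb.w (Multiplicative (ZMod 4)) i
      = 40 + 2 * (univ.filter fun i => σ i = i).card
        + (univ.filter fun i => (σ ^ 2) i = i).card := by
  rw [Finset.sum_congr rfl fun i _ => w_four σ h i,
    cyc_sum 4 σ h (fun i => 1 + 2 * (if σ i = i then 1 else 0)
      + (if (σ ^ 2) i = i then 1 else 0)), Finset.sum_add_distrib,
    Finset.sum_add_distrib, ← Finset.mul_sum, Finset.card_filter, Finset.card_filter]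
  simp

theorem sum_wv_four (σ : Perm (Fin 40)) (h : σ ^ 4 = 1) :
    ∑ i : Cyc 4 σ h, Orb.w (Multiplicative (ZMod 4)) i
        * padicValNat 2 (Orb.w (Multiplicative (ZMod 4)) i)
      = 6 * (univ.filter fun i => σ i = i).card
        + 2 * (univ.filter fun i => (σ ^ 2) i = i).card := by
  have h2 : padicValNat 2 2 = 1 := padicValNat.self (by norm_num)
  have h4 : padicValNat 2 4 = 2 := by
    rw [show 4 = 2 ^ 2 from rfl, padicValNat.prime_pow]
  have h1 : ∀ i : Cyc 4 σ h, Orb.w (Multiplicative (ZMod 4)) i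
        * padicValNat 2 (Orb.w (Multiplicative (ZMod 4)) i)
      = 6 * (if σ i.v = i.v then 1 else 0) + 2 * (if (σ ^ 2) i.v = i.v then 1 else 0) := by
    intro i
    rw [w_four]
    by_cases ha : σ i.v = i.v
    · rw [if_pos ha, if_pos (sq_fix ha)]
      norm_num [h4]
    · rw [if_neg ha]
      by_cases hb : (σ ^ 2) i.v = i.v
      · rw [if_pos hb]
        norm_num [h2]
      · rw [if_neg hb]
        norm_num
  rw [Finset.sum_congr rfl fun i _ => h1 i,
    cyc_sum 4 σ h (fun i => 6 * (if σ i = i then 1 else 0)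
      + 2 * (if (σ ^ 2) i = i then 1 else 0)), Finset.sum_add_distrib, ← Finset.mul_sum,
    ← Finset.mul_sum, Finset.card_filter, Finset.card_filter]

end Det

theorem det4 : St_det4 := by
  intro E hE σ τ hσ hτ hinv hf1 hf2
  classical
  let : Fintype (MulAction.orbitRel.Quotient (Multiplicative (ZMod 4)) (Det.Cyc 4 σ hσ)) :=
    Fintype.ofFinite _
  let : Fintype (MulAction.orbitRel.Quotient (Multiplicative (ZMod 4)) (Det.Cyc 4 τ hτ)) :=
    Fintype.ofFinite _
  have hcG : Fintype.card (Multiplicative (ZMod 4)) = 4 := by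
    rw [Fintype.card_multiplicative, ZMod.card]
  have hR := Det.burnside (G := Multiplicative (ZMod 4)) (X := Det.Cyc 4 σ hσ)
  have hC := Det.burnside (G := Multiplicative (ZMod 4)) (X := Det.Cyc 4 τ hτ)
  rw [Det.sum_w_four, hcG] at hR hC
  rw [← hf1, ← hf2] at hC
  have hcard : Fintype.card (MulAction.orbitRel.Quotient (Multiplicative (ZMod 4))
      (Det.Cyc 4 σ hσ)) = Fintype.card (MulAction.orbitRel.Quotient (Multiplicative (ZMod 4))
      (Det.Cyc 4 τ hτ)) := by
    omega
  obtain ⟨δ, hδ, hδ'⟩ := Orb.main (G := Multiplicative (ZMod 4)) (R := Det.Cyc 4 σ hσ)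
    (C := Det.Cyc 4 τ hτ) 1 (fun g => by simp) (fun i j => e (E i.v j.v))
    (fun g i j => by rw [Det.cyc_smul, Det.cyc_smul, Det.inv_pow hinv])
    40 (fun i i' => by
      rw [Det.cyc_sum 4 τ hτ (fun j => e (E i.v j) * (starRingEnd ℂ) (e (E i'.v j))),
        Det.orth hE]
      by_cases h : i = i'
      · rw [if_pos h, if_pos (congrArg Det.Cyc.v h)]
      · rw [if_neg h, if_neg fun h' => h (Det.Cyc.ext h')])
    (Algebra.adjoin ℤ {e 1}) (fun i j => Det.e_mem _)
    (fun g => Subalgebra.one_mem _) univ univ (fun a _ s _ => rfl)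
    (fun b hb => absurd (Finset.mem_univ b) hb) (by rw [Finset.card_univ, Finset.card_univ, hcard])
  have hne : 40 ^ (univ : Finset (MulAction.orbitRel.Quotient (Multiplicative (ZMod 4))
      (Det.Cyc 4 σ hσ))).card * (∏ a : MulAction.orbitRel.Quotient (Multiplicative (ZMod 4))
      (Det.Cyc 4 σ hσ), Orb.w (Multiplicative (ZMod 4)) a.out)
      * ∏ b : MulAction.orbitRel.Quotient (Multiplicative (ZMod 4))
      (Det.Cyc 4 τ hτ), Orb.w (Multiplicative (ZMod 4)) b.out ≠ 0 := by
    refine mul_ne_zero (mul_ne_zero (by positivity) ?_) ?_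
    · exact Finset.prod_ne_zero_iff.2 fun a _ => Det.w_pos _
    · exact Finset.prod_ne_zero_iff.2 fun a _ => Det.w_pos _
  have hev := par 5 2 (by norm_num) (by norm_num) (e 1) e_one_primitive.pow_eq_one δ hδ _ hne hδ'
  rw [padicValNat.mul (by
      refine mul_ne_zero (by positivity) ?_
      exact Finset.prod_ne_zero_iff.2 fun a _ => Det.w_pos _)
      (Finset.prod_ne_zero_iff.2 fun a _ => Det.w_pos _),
    padicValNat.mul (by positivity) (Finset.prod_ne_zero_iff.2 fun a _ => Det.w_pos _),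
    Det.padic_forty, Det.padic_prod _ _ fun a _ => Det.w_pos _,
    Det.padic_prod _ _ fun a _ => Det.w_pos _] at hev
  have hlen : ∀ (ρ : Perm (Fin 40)) (hρ : ρ ^ 4 = 1)
      [Fintype (MulAction.orbitRel.Quotient (Multiplicative (ZMod 4)) (Det.Cyc 4 ρ hρ))],
      4 * ∑ a : MulAction.orbitRel.Quotient (Multiplicative (ZMod 4)) (Det.Cyc 4 ρ hρ),
        padicValNat 2 (Orb.w (Multiplicative (ZMod 4)) a.out)
      = 6 * (univ.filter fun i => ρ i = i).card
        + 2 * (univ.filter fun i => (ρ ^ 2) i = i).card := by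
    intro ρ hρ _
    rw [← Det.sum_wv_four ρ hρ, Orb.sum_orbits (G := Multiplicative (ZMod 4))
      (fun i : Det.Cyc 4 ρ hρ => Orb.w (Multiplicative (ZMod 4)) i
        * padicValNat 2 (Orb.w (Multiplicative (ZMod 4)) i))
      (fun g i => by simp only [Det.w_smul]), Finset.mul_sum]
    refine Finset.sum_congr rfl fun a _ => ?_
    rw [Nat.cast_id, ← mul_assoc, Orb.len_mul_w, hcG]
  have h1 := hlen σ hσ
  have h2 := hlen τ hτ
  rw [← hf1, ← hf2] at h2
  rw [Finset.card_univ] at hev
  obtain ⟨c, hc⟩ := hev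
  omega

/-! ## Groups of order eight -/

namespace Det

/-- The rows with the action of a group of pairs of permutations. -/
@[ext] structure RowT (Q : Subgroup (Perm (Fin 40) × Perm (Fin 40))) where
  /-- the row -/
  v : Fin 40

/-- The columns with the action of a group of pairs of permutations. -/
@[ext] structure ColT (Q : Subgroup (Perm (Fin 40) × Perm (Fin 40))) where
  /-- the column -/
  v : Fin 40

variable (Q : Subgroup (Perm (Fin 40) × Perm (Fin 40)))

/-- The rows are numbered from 0 to 39. -/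
def RowT.equiv : RowT Q ≃ Fin 40 where
  toFun i := i.v
  invFun i := ⟨i⟩
  left_inv _ := rfl
  right_inv _ := rfl

/-- The columns are numbered from 0 to 39. -/
def ColT.equiv : ColT Q ≃ Fin 40 where
  toFun i := i.v
  invFun i := ⟨i⟩
  left_inv _ := rfl
  right_inv _ := rfl

instance : Fintype (RowT Q) := Fintype.ofEquiv _ (RowT.equiv Q).symm

instance : DecidableEq (RowT Q) := (RowT.equiv Q).decidableEq

instance : Fintype (ColT Q) := Fintype.ofEquiv _ (ColT.equiv Q).symm

instance : DecidableEq (ColT Q) := (ColT.equiv Q).decidableEq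

instance : MulAction Q (RowT Q) where
  smul g i := ⟨g.1.1 i.v⟩
  one_smul _ := rfl
  mul_smul _ _ _ := rfl

instance : MulAction Q (ColT Q) where
  smul g i := ⟨g.1.2 i.v⟩
  one_smul _ := rfl
  mul_smul _ _ _ := rfl

theorem row_smul (g : Q) (i : RowT Q) : (g • i).v = g.1.1 i.v := rfl

theorem col_smul (g : Q) (i : ColT Q) : (g • i).v = g.1.2 i.v := rfl

theorem col_sum {A : Type*} [AddCommMonoid A] (F : Fin 40 → A) :
    ∑ i : ColT Q, F i.v = ∑ i : Fin 40, F i :=
  Equiv.sum_comp (ColT.equiv Q) F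

/-- The stabilisers of a free action are trivial. -/
theorem w_free {G : Type*} [Group G] [Fintype G] {X : Type*} [DecidableEq X] [MulAction G X]
    (x : X) (h : ∀ g : G, g • x = x → g = 1) : Orb.w G x = 1 := by
  unfold Orb.w
  rw [Finset.card_eq_one]
  refine ⟨1, ?_⟩
  ext g
  rw [Finset.mem_filter, Finset.mem_singleton]
  constructor
  · intro hg
    exact h g hg.2
  · rintro rfl
    exact ⟨Finset.mem_univ _, one_smul _ _⟩

end Det

theorem det8 : St_det8 := by
  intro E hE Q hQ hinv hfree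
  classical
  let : Fintype Q := Fintype.ofFinite _
  have hcG : Fintype.card Q = 8 := by rw [← Nat.card_eq_fintype_card, hQ]
  let : Fintype (MulAction.orbitRel.Quotient Q (Det.RowT Q)) := Fintype.ofFinite _
  let : Fintype (MulAction.orbitRel.Quotient Q (Det.ColT Q)) := Fintype.ofFinite _
  have hwR : ∀ i : Det.RowT Q, Orb.w Q i = 1 := by
    intro i
    refine Det.w_free i fun g hg => ?_
    by_contra hne
    have h1 : g.1 ≠ 1 := fun h => hne (Subtype.ext h)
    exact (hfree g.1 g.2 h1).1 i.v (congrArg Det.RowT.v hg)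
  have hwC : ∀ i : Det.ColT Q, Orb.w Q i = 1 := by
    intro i
    refine Det.w_free i fun g hg => ?_
    by_contra hne
    have h1 : g.1 ≠ 1 := fun h => hne (Subtype.ext h)
    exact (hfree g.1 g.2 h1).2 i.v (congrArg Det.ColT.v hg)
  have hR := Det.burnside (G := Q) (X := Det.RowT Q)
  have hC := Det.burnside (G := Q) (X := Det.ColT Q)
  rw [Finset.sum_congr rfl fun i _ => hwR i, Finset.sum_const, Finset.card_univ,
    Fintype.card_congr (Det.RowT.equiv Q), Fintype.card_fin, hcG, smul_eq_mul, mul_one] at hR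
  rw [Finset.sum_congr rfl fun i _ => hwC i, Finset.sum_const, Finset.card_univ,
    Fintype.card_congr (Det.ColT.equiv Q), Fintype.card_fin, hcG, smul_eq_mul, mul_one] at hC
  have hR5 : Fintype.card (MulAction.orbitRel.Quotient Q (Det.RowT Q)) = 5 := by omega
  have hC5 : Fintype.card (MulAction.orbitRel.Quotient Q (Det.ColT Q)) = 5 := by omega
  obtain ⟨δ, hδ, hδ'⟩ := Orb.main (G := Q) (R := Det.RowT Q)
    (C := Det.ColT Q) 1 (fun g => by simp) (fun i j => e (E i.v j.v))
    (fun g i j => by rw [Det.row_smul, Det.col_smul, hinv g.1 g.2])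
    40 (fun i i' => by
      rw [Det.col_sum Q (fun j => e (E i.v j) * (starRingEnd ℂ) (e (E i'.v j))),
        Det.orth hE]
      by_cases h : i = i'
      · rw [if_pos h, if_pos (congrArg Det.RowT.v h)]
      · rw [if_neg h, if_neg fun h' => h (Det.RowT.ext h')])
    (Algebra.adjoin ℤ {e 1}) (fun i j => Det.e_mem _)
    (fun g => Subalgebra.one_mem _) univ univ (fun a _ s _ => rfl)
    (fun b hb => absurd (Finset.mem_univ b) hb) (by rw [Finset.card_univ, Finset.card_univ, hR5, hC5])
  have h1 : 40 ^ (univ : Finset (MulAction.orbitRel.Quotient Q (Det.RowT Q))).card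
      * (∏ a : MulAction.orbitRel.Quotient Q (Det.RowT Q), Orb.w Q a.out)
      * ∏ b : MulAction.orbitRel.Quotient Q (Det.ColT Q), Orb.w Q b.out = 40 ^ 5 := by
    rw [Finset.prod_eq_one fun a _ => hwR _, Finset.prod_eq_one fun a _ => hwC _,
      Finset.card_univ, hR5, mul_one, mul_one]
  rw [h1] at hδ'
  have hev := par 5 2 (by norm_num) (by norm_num) (e 1) e_one_primitive.pow_eq_one δ hδ _
    (by norm_num) hδ'
  rw [Det.padic_forty] at hev
  exact absurd hev (by decide)

/-! ## Order thirteen -/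

namespace Det

/-- A primitive 65-th root of unity. -/
noncomputable def η : ℂ := Complex.exp (2 * Real.pi * Complex.I / 65)

theorem η_pow : η ^ 65 = 1 := by
  unfold η
  rw [← Complex.exp_nat_mul]
  push_cast
  rw [mul_div_cancel₀ _ (by norm_num : (65 : ℂ) ≠ 0), Complex.exp_two_pi_mul_I]

theorem e_η (x : ZMod 5) : e x ∈ Algebra.adjoin ℤ {η} := by
  have h : e x = η ^ (13 * x.val) := by
    unfold e η
    rw [ZMod.stdAddChar_apply, ZMod.toCircle_apply, ← Complex.exp_nat_mul]
    congr 1
    push_cast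
    ring
  rw [h]
  exact Subalgebra.pow_mem _ (Algebra.subset_adjoin (Set.mem_singleton _)) _

theorem χ_η (x : ZMod 13) : (ZMod.stdAddChar x : ℂ) ∈ Algebra.adjoin ℤ {η} := by
  have h : (ZMod.stdAddChar x : ℂ) = η ^ (5 * x.val) := by
    unfold η
    rw [ZMod.stdAddChar_apply, ZMod.toCircle_apply, ← Complex.exp_nat_mul]
    congr 1
    push_cast
    ring
  rw [h]
  exact Subalgebra.pow_mem _ (Algebra.subset_adjoin (Set.mem_singleton _)) _

/-- The character of order 13. -/
noncomputable def χ : Multiplicative (ZMod 13) →* ℂ := (ZMod.stdAddChar (N := 13)).toMonoidHom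

theorem χ_apply (g : Multiplicative (ZMod 13)) :
    χ g = ZMod.stdAddChar (Multiplicative.toAdd g) := rfl

theorem χ_norm (g : Multiplicative (ZMod 13)) : χ g * (starRingEnd ℂ) (χ g) = 1 := by
  rw [χ_apply, ← AddChar.map_neg_eq_conj, ← AddChar.map_add_eq_mul, add_neg_cancel,
    AddChar.map_zero_eq_one]

theorem fix_of_pow {σ : Perm (Fin 40)} (h : σ ^ 13 = 1) {k : ℕ} (hk : 0 < k) (hk' : k < 13)
    {i : Fin 40} (hi : (σ ^ k) i = i) : σ i = i := by
  have hit : ∀ m : ℕ, (σ ^ (k * m)) i = i := by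
    intro m
    induction m with
    | zero => rfl
    | succ m ih => rw [Nat.mul_succ, pow_add, Perm.mul_apply, hi, ih]
  have hco : Nat.Coprime k 13 := by
    rw [Nat.coprime_comm, Nat.Prime.coprime_iff_not_dvd (by norm_num)]
    intro hd
    exact absurd (Nat.le_of_dvd hk hd) (by omega)
  obtain ⟨m, hm⟩ := Nat.exists_mul_mod_eq_one_of_coprime hco (by norm_num)
  have h1 : σ ^ (k * m) = σ := by
    rw [pow_eq_pow_mod (k * m) h, hm.2, pow_one]
  have h2 := hit m
  rw [h1] at h2
  exact h2

/-- The stabiliser of a point which is not fixed is trivial. -/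
theorem free_of {σ : Perm (Fin 40)} (h : σ ^ 13 = 1) (i : Cyc 13 σ h) (hi : σ i.v ≠ i.v)
    (g : Multiplicative (ZMod 13)) (hg : g • i = i) : g = 1 := by
  by_contra hne
  have h1 : (σ ^ (Multiplicative.toAdd g).val) i.v = i.v := congrArg Cyc.v hg
  have h2 : 0 < (Multiplicative.toAdd g).val := by
    rw [Nat.pos_iff_ne_zero, Ne, ZMod.val_eq_zero]
    intro h0
    exact hne (Multiplicative.toAdd.injective h0)
  exact hi (fix_of_pow h h2 (ZMod.val_lt _) h1)

theorem fix_all {σ : Perm (Fin 40)} (h : σ ^ 13 = 1) (i : Cyc 13 σ h) (hi : σ i.v = i.v)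
    (g : Multiplicative (ZMod 13)) : g • i = i := by
  apply Cyc.ext
  rw [cyc_smul]
  have : ∀ k : ℕ, (σ ^ k) i.v = i.v := by
    intro k
    induction k with
    | zero => rfl
    | succ k ih => rw [pow_succ', Perm.mul_apply, ih, hi]
  exact this _

theorem not_good {σ : Perm (Fin 40)} (h : σ ^ 13 = 1) (i : Cyc 13 σ h) (hi : σ i.v = i.v) :
    ¬ Orb.Good χ i := by
  intro hg
  have h1 := hg (Multiplicative.ofAdd 1) (fix_all h i hi _)
  rw [χ_apply, toAdd_ofAdd, ← AddChar.map_zero_eq_one (ZMod.stdAddChar (N := 13))] at h1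
  have h2 := ZMod.injective_stdAddChar h1
  exact absurd h2 (by decide)

/-- The free orbits. -/
noncomputable def freeOrb {σ : Perm (Fin 40)} (h : σ ^ 13 = 1)
    [Fintype (MulAction.orbitRel.Quotient (Multiplicative (ZMod 13)) (Cyc 13 σ h))] :
    Finset (MulAction.orbitRel.Quotient (Multiplicative (ZMod 13)) (Cyc 13 σ h)) :=
  univ.filter fun a => σ a.out.v ≠ a.out.v

theorem card_freeOrb {σ : Perm (Fin 40)} (h : σ ^ 13 = 1)
    [Fintype (MulAction.orbitRel.Quotient (Multiplicative (ZMod 13)) (Cyc 13 σ h))]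
    (h1 : (univ.filter fun i => σ i = i).card = 1) : (freeOrb h).card = 3 := by
  classical
  have hcG : Fintype.card (Multiplicative (ZMod 13)) = 13 := by
    rw [Fintype.card_multiplicative, ZMod.card]
  have hs := Orb.sum_orbits (G := Multiplicative (ZMod 13))
    (fun i : Cyc 13 σ h => if σ i.v ≠ i.v then 1 else 0) (A := ℕ) (by
      intro g i
      rw [cyc_smul]
      have h2 : (σ ((σ ^ (Multiplicative.toAdd g).val) i.v)
          = (σ ^ (Multiplicative.toAdd g).val) i.v) ↔ σ i.v = i.v := by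
        rw [← Perm.mul_apply, ← pow_succ', pow_succ, Perm.mul_apply]
        exact (σ ^ (Multiplicative.toAdd g).val).injective.eq_iff
      simp only [ne_eq, h2])
  rw [cyc_sum 13 σ h (fun i => if σ i ≠ i then 1 else 0)] at hs
  have h3 : ∑ i : Fin 40, (if σ i ≠ i then 1 else 0) = 39 := by
    rw [← Finset.card_filter]
    have := Finset.card_filter_add_card_filter_not (s := (univ : Finset (Fin 40)))
      (fun i => σ i = i)
    rw [h1, Finset.card_univ, Fintype.card_fin] at this
    have h4 : (univ.filter fun i => ¬ σ i = i).card = 39 := by omega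
    exact h4
  have h4 : ∀ a : MulAction.orbitRel.Quotient (Multiplicative (ZMod 13)) (Cyc 13 σ h),
      ((Orb.len a : ℕ) : ℕ) * (if σ a.out.v ≠ a.out.v then 1 else 0)
        = if σ a.out.v ≠ a.out.v then 13 else 0 := by
    intro a
    by_cases ha : σ a.out.v ≠ a.out.v
    · have h5 := Orb.len_mul_w a
      rw [w_free a.out (free_of h a.out ha), mul_one, hcG] at h5
      rw [if_pos ha, if_pos ha, mul_one, h5]
    · rw [if_neg ha, if_neg ha, mul_zero]
  simp only [Nat.cast_id] at hs
  rw [h3, Finset.sum_congr rfl fun a _ => h4 a, ← Finset.sum_filter, Finset.sum_const,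
    smul_eq_mul] at hs
  unfold freeOrb
  have h5 : (univ.filter fun a : MulAction.orbitRel.Quotient (Multiplicative (ZMod 13))
      (Cyc 13 σ h) => σ a.out.v ≠ a.out.v).card = 3 := by omega
  exact h5

end Det

theorem det13 : St_det13 := by
  intro E hE σ τ hσ hτ hinv h1 h2
  classical
  let : Fintype (MulAction.orbitRel.Quotient (Multiplicative (ZMod 13)) (Det.Cyc 13 σ hσ)) :=
    Fintype.ofFinite _
  let : Fintype (MulAction.orbitRel.Quotient (Multiplicative (ZMod 13)) (Det.Cyc 13 τ hτ)) :=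
    Fintype.ofFinite _
  obtain ⟨δ, hδ, hδ'⟩ := Orb.main (G := Multiplicative (ZMod 13)) (R := Det.Cyc 13 σ hσ)
    (C := Det.Cyc 13 τ hτ) Det.χ Det.χ_norm (fun i j => e (E i.v j.v))
    (fun g i j => by rw [Det.cyc_smul, Det.cyc_smul, Det.inv_pow hinv])
    40 (fun i i' => by
      rw [Det.cyc_sum 13 τ hτ (fun j => e (E i.v j) * (starRingEnd ℂ) (e (E i'.v j))),
        Det.orth hE]
      by_cases h : i = i'
      · rw [if_pos h, if_pos (congrArg Det.Cyc.v h)]
      · rw [if_neg h, if_neg fun h' => h (Det.Cyc.ext h')])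
    (Algebra.adjoin ℤ {Det.η}) (fun i j => Det.e_η _)
    (fun g => Det.χ_η _) (Det.freeOrb hσ) (Det.freeOrb hτ)
    (fun a ha s hs => by
      rw [Det.freeOrb, Finset.mem_filter] at ha
      rw [Det.free_of hσ a.out ha.2 s hs, map_one])
    (fun b hb => by
      rw [Det.freeOrb, Finset.mem_filter] at hb
      push Not at hb
      exact Det.not_good hτ b.out (hb (Finset.mem_univ _)))
    (by rw [Det.card_freeOrb hσ h1, Det.card_freeOrb hτ h2])
  have h3 : 40 ^ (Det.freeOrb hσ).card
      * (∏ a ∈ Det.freeOrb hσ, Orb.w (Multiplicative (ZMod 13)) a.out)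
      * ∏ b ∈ Det.freeOrb hτ, Orb.w (Multiplicative (ZMod 13)) b.out = 40 ^ 3 := by
    rw [Finset.prod_eq_one fun a ha => by
        rw [Det.freeOrb, Finset.mem_filter] at ha
        exact Det.w_free a.out (Det.free_of hσ a.out ha.2),
      Finset.prod_eq_one fun a ha => by
        rw [Det.freeOrb, Finset.mem_filter] at ha
        exact Det.w_free a.out (Det.free_of hτ a.out ha.2),
      Det.card_freeOrb hσ h1, mul_one, mul_one]
  rw [h3] at hδ'
  have hev := par 65 6 (by norm_num) (by norm_num) Det.η Det.η_pow δ hδ _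
    (by norm_num) hδ'
  rw [Det.padic_forty] at hev
  exact absurd hev (by decide)

end Pool.Agent.GH5
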