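import Mathlib
import Pool.Agent.Lib_helper98.GH5.Prime

/-!
# No symmetry of order 7

Agreements between the 7 rows of a cycle: `7 * 40 + 42 * 8 = 616` ordered pairs, but a fixed
column contributes 49 and every other column at least 11.
-/

set_option autoImplicit false

open Finset Equiv

namespace Pool.Agent.GH5

/-- Seven values in `ZMod 5` have at least 11 ordered coincidences. -/
theorem coincidences (φ : ℕ → ZMod 5) :
    11 ≤ ∑ k ∈ range 7, ∑ l ∈ range 7, (if φ k = φ l then 1 else 0) := by
  set n : ZMod 5 → ℕ := fun v => ((range 7).filter fun l => φ l = v).card with hn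
  have h1 : ∑ k ∈ range 7, ∑ l ∈ range 7, (if φ k = φ l then 1 else 0)
      = ∑ v : ZMod 5, n v * n v := by
    rw [← Finset.sum_fiberwise (s := range 7) (g := φ)]
    refine Finset.sum_congr rfl fun v _ => ?_
    have h2 : ∀ k ∈ (range 7).filter (fun k => φ k = v),
        (∑ l ∈ range 7, (if φ k = φ l then 1 else 0)) = n v := by
      intro k hk
      rw [← Finset.card_filter, hn]
      congr 1
      ext l
      rw [Finset.mem_filter, Finset.mem_filter, (Finset.mem_filter.1 hk).2, eq_comm]
    rw [Finset.sum_congr rfl h2, Finset.sum_const, smul_eq_mul]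
  have h3 : ∑ v : ZMod 5, n v = 7 := by
    have := Finset.card_eq_sum_card_fiberwise (s := range 7)
      (t := (univ : Finset (ZMod 5))) (f := φ) (fun k _ => by simp)
    rw [Finset.card_range] at this
    exact this.symm
  rw [h1]
  have h4 : ∀ v, 3 * n v ≤ n v * n v + 2 := by
    intro v
    rcases Nat.lt_or_ge (n v) 3 with h | h
    · interval_cases n v <;> norm_num
    · nlinarith
  have h5 : ∑ v : ZMod 5, 3 * n v ≤ ∑ v : ZMod 5, (n v * n v + 2) :=
    Finset.sum_le_sum fun v _ => h4 v
  rw [← Finset.mul_sum, h3, Finset.sum_add_distrib, Finset.sum_const, Finset.card_univ,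
    ZMod.card] at h5
  simp only [smul_eq_mul] at h5
  omega

/-- No symmetry of order 7 with 5 fixed columns. -/
theorem no_seven {E : Fin 40 → Fin 40 → ZMod 5} {σ τ : Perm (Fin 40)} (hE : IsGH E)
    (hinv : ∀ i j, E (σ i) (τ j) = E i j) (hσ : σ ^ 7 = 1) {i0 : Fin 40} (hi0 : σ i0 ≠ i0)
    (hf : (univ.filter fun j => τ j = j).card = 5) : False := by
  have hinj : ∀ k ∈ range 7, ∀ l ∈ range 7, (σ ^ k) i0 = (σ ^ l) i0 → k = l := by
    intro k hk l hl hkl
    have hper : Function.IsPeriodicPt σ 7 i0 := by
      change σ^[7] i0 = i0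
      rw [← Perm.coe_pow, hσ]
      rfl
    have hdvd := hper.minimalPeriod_dvd
    have h7 : Function.minimalPeriod σ i0 = 7 := by
      rcases (Nat.dvd_prime (by norm_num : Nat.Prime 7)).1 hdvd with h | h
      · rw [Function.minimalPeriod_eq_one_iff_isFixedPt] at h
        exact absurd h hi0
      · exact h
    have := Function.iterate_injOn_Iio_minimalPeriod (f := σ) (x := i0)
    rw [h7] at this
    apply this (Set.mem_Iio.2 (Finset.mem_range.1 hk)) (Set.mem_Iio.2 (Finset.mem_range.1 hl))
    change σ^[k] i0 = σ^[l] i0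
    rw [← Perm.coe_pow, ← Perm.coe_pow]
    exact hkl
  have h1 : ∑ k ∈ range 7, ∑ l ∈ range 7, ∑ j : Fin 40,
      (if E ((σ ^ k) i0) j = E ((σ ^ l) i0) j then 1 else 0) = 616 := by
    have h2 : ∀ k ∈ range 7, ∀ l ∈ range 7, (∑ j : Fin 40,
        (if E ((σ ^ k) i0) j = E ((σ ^ l) i0) j then 1 else 0)) = if k = l then 40 else 8 := by
      intro k hk l hl
      by_cases hkl : k = l
      · subst hkl
        simp
      · rw [if_neg hkl, ← Finset.card_filter]
        exact hE.agree fun h => hkl (hinj k hk l hl h)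
    rw [Finset.sum_congr rfl fun k hk => Finset.sum_congr rfl fun l hl => h2 k hk l hl]
    decide
  have h3 : ∑ k ∈ range 7, ∑ l ∈ range 7, ∑ j : Fin 40,
      (if E ((σ ^ k) i0) j = E ((σ ^ l) i0) j then 1 else 0)
      = ∑ j : Fin 40, ∑ k ∈ range 7, ∑ l ∈ range 7,
      (if E ((σ ^ k) i0) j = E ((σ ^ l) i0) j then 1 else 0) := by
    rw [Finset.sum_congr rfl fun k _ => Finset.sum_comm, Finset.sum_comm]
  have h4 : ∀ j : Fin 40, 11 + 38 * (if τ j = j then 1 else 0) ≤ ∑ k ∈ range 7, ∑ l ∈ range 7,
      (if E ((σ ^ k) i0) j = E ((σ ^ l) i0) j then 1 else 0) := by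
    intro j
    by_cases hj : τ j = j
    · have h5 : ∀ k, E ((σ ^ k) i0) j = E i0 j := by
        intro k
        induction k with
        | zero => rfl
        | succ k ih =>
          rw [pow_succ']
          have := hinv ((σ ^ k) i0) j
          rw [hj, ih] at this
          exact this
      simp only [h5, if_true, hj]
      simp
    · rw [if_neg hj]
      have := coincidences fun k => E ((σ ^ k) i0) j
      simpa using this
  have h6 := Finset.sum_le_sum fun (j : Fin 40) (_ : j ∈ univ) => h4 j
  rw [← h3, h1, Finset.sum_add_distrib, ← Finset.mul_sum, ← Finset.card_filter, hf] at h6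
  simp at h6

end Pool.Agent.GH5
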