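import Mathlib
import Pool.Agent.Lib_helper98.GH5.Group

/-!
# Further statements (targets for modules)
-/

set_option autoImplicit false

open Finset Equiv

namespace Pool.Agent.GH5

/-- DETC: the number of orbits of a cyclic 2-group of symmetries is even.  By Burnside the number
of orbits is `2⁻ᵏ ∑ i < 2 ^ k, |Fix (σ ^ i)|`; fixed points of `σ ^ i` and `τ ^ i` are equally many
(`card_fixed_eq`), and the stabiliser of a point is determined by the powers which fix it, so the
multisets of the orders of the stabilisers agree for rows and columns and `3 m` is even.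
(`k = 2` is `St_det4`.) -/
def St_detC : Prop :=
  ∀ (E : Fin 40 → Fin 40 → ZMod 5), IsGH E → ∀ (k : ℕ) (σ τ : Perm (Fin 40)),
    σ ^ 2 ^ k = 1 → τ ^ 2 ^ k = 1 → (∀ i j, E (σ i) (τ j) = E i j) →
    2 ^ (k + 1) ∣ ∑ n ∈ range (2 ^ k), (univ.filter fun i => (σ ^ n) i = i).card

/-- O4F8: a symmetry of order 4 does not fix 8 rows.
Proof.  `R0`, `C0` = fixed rows, columns (8 each; `card_fixed_eq`); all other cycles of `σ`, `τ`
have length 4.  For `i ≠ i'` in `R0` the difference `E i - E i'` is `τ`-invariant, so on `C0` every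
value has multiplicity 0, 4 or 8 (total 8 - multiple of 4); same for two columns of `C0` on `R0`.
(1) Not all rows of `R0` have pairwise constant differences on `C0`: otherwise fix `j0 ∈ C0` and
`j ∉ C0`; `i ↦ E i j - E i j0` is injective on `R0` (the value `E i j0 - E i' j0` is used up by the
8 columns of `C0`), but `8 > 5`.
(2) So `E i1 - E i0 = a` on `A`, `b ≠ a` on `C0 \ A`, `|A| = 4`.
(3) Every `G = E i - E i0` (`i ∈ R0`) is constant on `A` and on `C0 \ A`: if `G = p` on `P`, `q ≠ p`
on `C0 \ P`, `t = |P ∩ A|`, then `G - (E i1 - E i0)` has the values `p-a (t)`, `p-b (4-t)`,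
`q-a (4-t)`, `q-b (t)`; `t = 1, 3` impossible, `t = 2` gives `p-a = q-b` and `p-b = q-a`, so
`2 (a - b) = 0`; hence `t = 0` or `4`.
(4) Let `E i j - E i0 j = α i` on `A`, `β i` on `C0 \ A`, `d = α - β`.  Comparing a column of `A`
with one of `C0 \ A`: `d` has multiplicities 0, 4, 8 on `R0`, `d i0 = 0`, `d i1 ≠ 0`; so
`B = {d = 0}` and `B' = R0 \ B = {d = δ}` have 4 elements each.
(5) For `j ∉ C0` let `y i = E i j - β i`.  `y` is injective on `B` and on `B'` (their value is used
up 8 times on `C0`), so at least `4 + 4 - 5 = 3` pairs of `B × B'` agree; total at least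
`32 * 3 = 96`.  But a pair of `B × B'` has 4 agreements of `E - β` on `C0 \ A`, none on `A`, so 4
outside `C0`: total `16 * 4 = 64`. Contradiction. -/
def St_o4f8 : Prop :=
  ∀ (E : Fin 40 → Fin 40 → ZMod 5), IsGH E → ∀ (σ τ : Perm (Fin 40)),
    σ ^ 4 = 1 → τ ^ 4 = 1 → (∀ i j, E (σ i) (τ j) = E i j) →
    (univ.filter fun i => σ i = i).card = 8 → (univ.filter fun i => (σ ^ 2) i = i).card = 8 → False

/-- NORM5: a symmetry of order 5 without fixed rows and fixed columns can be normalised.
Proof.  `A i = a i + a (σ i) + ... + a (σ⁴ i)`, `B j` similarly; `D = D (σ⁵ i) (τ⁵ j)` gives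
`A i + B j = 0`, so `A i = c`, `B j = -c`.  Sum of `D (σ i) (τ j) = D i j + a i + b j` over `j`
(`40 = 0` in `ZMod 5`, and `∑ j, D i j - ∑ j, D i' j = 8 * 10 = 0` for any two rows) gives
`∑ j, b j = 0`; but `∑ j, b j` is the sum of `B` over the 8 cycles, `= - 8 c`, so `c = 0`
(`5 * ∑ b` is useless: choose representatives).  Then `a i = u i - u (σ i)` for some `u` (partial
sums along the cycles), `b j = v j - v (τ j)`, and `D + u + v` is invariant. -/
def St_norm5 : Prop :=
  ∀ (D : Fin 40 → Fin 40 → ZMod 5), IsGH D → ∀ (σ τ : Perm (Fin 40)) (a b : Fin 40 → ZMod 5),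
    σ ^ 5 = 1 → τ ^ 5 = 1 → (∀ i, σ i ≠ i) → (∀ j, τ j ≠ j) →
    (∀ i j, D (σ i) (τ j) = D i j + a i + b j) →
    ∃ u v : Fin 40 → ZMod 5, ∀ i j,
      D (σ i) (τ j) + u (σ i) + v (τ j) = D i j + u i + v j

end Pool.Agent.GH5
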