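import Mathlib
import Pool.Agent.Lib_helper98.GH5.Alg

/-!
# The configuration of an elementary abelian group of order 25 is impossible

`(σ1, τ1)`, `(σ2, τ2)` are commuting symmetries of order 5; `(σ1, τ1)`, `(σ2, τ2)` and their
product fix a row and no column, and `(σ1 σ2 ^ μ, τ1 τ2 ^ μ)` fixes 5 columns for `μ = 2, 3, 4`.
-/

set_option autoImplicit false

open Finset Equiv

namespace Pool.Agent.GH5

/-- The action of `ZMod 5 × ZMod 5`. -/
def P (τ1 τ2 : Perm (Fin 40)) (x y : ZMod 5) (j : Fin 40) : Fin 40 :=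
  (τ1 ^ x.val) ((τ2 ^ y.val) j)

theorem pow_val_add {τ : Perm (Fin 40)} (h : τ ^ 5 = 1) (x y : ZMod 5) :
    τ ^ (x + y).val = τ ^ x.val * τ ^ y.val := by
  rw [← pow_add, ZMod.val_add, ← pow_eq_pow_mod _ h]

section

variable {τ1 τ2 : Perm (Fin 40)} (t1 : τ1 ^ 5 = 1) (t2 : τ2 ^ 5 = 1) (hτ : τ1 * τ2 = τ2 * τ1)

include t1 t2 hτ

theorem P_add (x y x' y' : ZMod 5) (j : Fin 40) :
    P τ1 τ2 (x + x') (y + y') j = P τ1 τ2 x y (P τ1 τ2 x' y' j) := by
  unfold P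
  rw [pow_val_add t1, pow_val_add t2]
  have hc : τ2 ^ y.val * τ1 ^ x'.val = τ1 ^ x'.val * τ2 ^ y.val :=
    ((Commute.pow_pow (show Commute τ1 τ2 from hτ) x'.val y.val).eq).symm
  have h1 : (τ2 ^ y.val) ((τ1 ^ x'.val) ((τ2 ^ y'.val) j))
      = (τ1 ^ x'.val) ((τ2 ^ y.val) ((τ2 ^ y'.val) j)) := by
    rw [← Perm.mul_apply, hc, Perm.mul_apply]
  rw [h1]
  rfl

omit t1 t2 hτ in
theorem P_zero (j : Fin 40) : P τ1 τ2 0 0 j = j := by
  unfold P
  simp

omit t1 t2 hτ in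
theorem P_inj (x y : ZMod 5) {j k : Fin 40} (h : P τ1 τ2 x y j = P τ1 τ2 x y k) : j = k := by
  unfold P at h
  exact (τ2 ^ y.val).injective ((τ1 ^ x.val).injective h)

theorem P_smul {x y : ZMod 5} {j : Fin 40} (h : P τ1 τ2 x y j = j) (k : ZMod 5) :
    P τ1 τ2 (k * x) (k * y) j = j := by
  refine ind5 (P := fun k => P τ1 τ2 (k * x) (k * y) j = j) ?_ ?_ k
  · rw [zero_mul, zero_mul]; exact P_zero j
  · intro k hk
    rw [add_mul, add_mul, one_mul, one_mul, P_add t1 t2 hτ, h]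
    exact hk

omit t1 t2 hτ in
theorem P_one_zero (j : Fin 40) : P τ1 τ2 1 0 j = τ1 j := by
  unfold P
  have : (1 : ZMod 5).val = 1 := rfl
  simp [this]

omit t1 t2 hτ in
theorem P_zero_one (j : Fin 40) : P τ1 τ2 0 1 j = τ2 j := by
  unfold P
  have : (1 : ZMod 5).val = 1 := rfl
  simp [this]

theorem P_succ_left (x y : ZMod 5) (j : Fin 40) : P τ1 τ2 (x + 1) y j = τ1 (P τ1 τ2 x y j) := by
  have h := P_add t1 t2 hτ 1 0 x y j
  rw [zero_add, add_comm 1 x] at h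
  rw [h, P_one_zero]

theorem P_succ_right (x y : ZMod 5) (j : Fin 40) : P τ1 τ2 x (y + 1) j = τ2 (P τ1 τ2 x y j) := by
  have h := P_add t1 t2 hτ 0 1 x y j
  rw [zero_add, add_comm 1 y] at h
  rw [h, P_zero_one]

end

/-- Second moment of the difference of two rows. -/
theorem second_moment {D : Fin 40 → Fin 40 → ZMod 5} (hD : IsGH D) (i j : Fin 40) :
    ∑ k, (D i k - D j k) * (D i k - D j k) = 0 := by
  by_cases h : i = j
  · subst h
    simp
  · rw [← Finset.sum_fiberwise (s := univ) (g := fun k => D i k - D j k)]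
    have h1 : ∀ v : ZMod 5, ∑ k ∈ univ.filter (fun k => D i k - D j k = v),
        (D i k - D j k) * (D i k - D j k) = 3 * (v * v) := by
      intro v
      rw [Finset.sum_congr rfl (g := fun _ => v * v) (fun k hk => by
        rw [(Finset.mem_filter.1 hk).2]), Finset.sum_const, hD i j h v, nsmul_eq_mul]
      have : ((8 : ℕ) : ZMod 5) = 3 := by decide
      rw [this]
    rw [Finset.sum_congr rfl fun v _ => h1 v, ← Finset.mul_sum, sum_sq5, mul_zero]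

/-- The contradiction for the plane configuration. -/
theorem plane_core {D : Fin 40 → Fin 40 → ZMod 5} (hD : IsGH D) {σ1 τ1 σ2 τ2 : Perm (Fin 40)}
    {a1 b1 a2 b2 : Fin 40 → ZMod 5}
    (h1 : ∀ i j, D (σ1 i) (τ1 j) = D i j + a1 i + b1 j)
    (h2 : ∀ i j, D (σ2 i) (τ2 j) = D i j + a2 i + b2 j)
    (hσ : σ1 * σ2 = σ2 * σ1) (hτ : τ1 * τ2 = τ2 * τ1) (t1 : τ1 ^ 5 = 1) (t2 : τ2 ^ 5 = 1)
    {r1 r2 r3 : Fin 40} (hr1 : σ1 r1 = r1) (hr2 : σ2 r2 = r2) (hr3 : σ1 (σ2 r3) = r3)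
    (hκ : a1 (σ2 r1) ≠ a1 r1)
    (n1 : ∀ j, τ1 j ≠ j) (n2 : ∀ j, τ2 j ≠ j) (n3 : ∀ j, τ1 (τ2 j) ≠ j)
    (hc : ∀ μ : ZMod 5, μ ≠ 0 → μ ≠ 1 → (univ.filter fun j => P τ1 τ2 1 μ j = j).card = 5) :
    False := by
  have hτ' : ∀ j, τ1 (τ2 j) = τ2 (τ1 j) := fun j => by
    rw [← Perm.mul_apply, hτ, Perm.mul_apply]
  have hσ' : ∀ i, σ1 (σ2 i) = σ2 (σ1 i) := fun i => by
    rw [← Perm.mul_apply, hσ, Perm.mul_apply]
  -- the commutator
  set κ : ZMod 5 := a1 r1 - a1 (σ2 r1) with hκdef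
  have hκ0 : κ ≠ 0 := fun h => hκ (sub_eq_zero.1 h).symm
  have hb : ∀ j, b1 (τ2 j) - b1 j - b2 (τ1 j) + b2 j = κ := by
    intro j
    have e1 := h1 (σ2 r1) (τ2 j)
    have e2 := h2 r1 j
    have e3 := h2 (σ1 r1) (τ1 j)
    have e4 := h1 r1 j
    rw [hσ' r1, hτ' j, e3, e4, e2, hr1] at e1
    have e5 : (b1 (τ2 j) - b1 j - b2 (τ1 j) + b2 j) - κ = 0 := by
      rw [hκdef]
      linear_combination (-1 : ZMod 5) * e1
    exact sub_eq_zero.1 e5
  -- the three difference functions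
  set G12 : Fin 40 → ZMod 5 := fun j => D r1 j - D r2 j with hG12
  set G13 : Fin 40 → ZMod 5 := fun j => D r1 j - D r3 j with hG13
  set G23 : Fin 40 → ZMod 5 := fun j => D r2 j - D r3 j with hG23
  have d1 : ∀ j, D r1 (τ1 j) = D r1 j + a1 r1 + b1 j := fun j => by
    have := h1 r1 j
    rwa [hr1] at this
  have d2 : ∀ j, D r2 (τ2 j) = D r2 j + a2 r2 + b2 j := fun j => by
    have := h2 r2 j
    rwa [hr2] at this
  have d3 : ∀ j, D r3 (τ1 (τ2 j)) = D r3 j + a2 r3 + b2 j + a1 (σ2 r3) + b1 (τ2 j) := fun j => by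
    have := h1 (σ2 r3) (τ2 j)
    rw [hr3, h2 r3 j] at this
    exact this
  have m12 : ∀ j, G12 (τ1 (τ2 j)) - G12 (τ1 j) - G12 (τ2 j) + G12 j = κ := by
    intro j
    rw [← hb j]
    simp only [hG12]
    rw [d1 (τ2 j), hτ' j, d2 (τ1 j), d1 j, d2 j]
    ring
  have m13 : ∀ j, G13 (τ1 (τ1 (τ2 j))) - G13 (τ1 j) - G13 (τ1 (τ2 j)) + G13 j = κ := by
    intro j
    rw [← hb j]
    simp only [hG13]
    have e0 : D r3 (τ1 (τ1 (τ2 j))) = D r3 (τ1 (τ2 (τ1 j))) := by rw [hτ' j]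
    rw [e0, d3 (τ1 j), d1 (τ1 (τ2 j)), d1 j, d3 j, hτ' j]
    ring
  have m23 : ∀ j, G23 (τ2 (τ1 (τ2 j))) - G23 (τ2 j) - G23 (τ1 (τ2 j)) + G23 j = -κ := by
    intro j
    rw [← hb (τ2 j)]
    simp only [hG23]
    have e0 : D r3 (τ2 (τ1 (τ2 j))) = D r3 (τ1 (τ2 (τ2 j))) := by rw [hτ' (τ2 j)]
    rw [e0, d3 (τ2 j), d2 (τ1 (τ2 j)), d2 j, d3 j]
    ring
  -- the partition of the columns
  have trivial_of : ∀ c : Fin 40, (∀ μ : ZMod 5, μ ≠ 0 → μ ≠ 1 → P τ1 τ2 1 μ c ≠ c) →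
      ∀ x y : ZMod 5, P τ1 τ2 x y c = c → x = 0 ∧ y = 0 := by
    intro c hc0 x y hxy
    by_cases hx : x = 0
    · subst hx
      refine ⟨rfl, ?_⟩
      by_contra hy
      have h3 := P_smul t1 t2 hτ hxy y⁻¹
      rw [mul_zero, inv_mul_cancel₀ hy, P_zero_one] at h3
      exact n2 c h3
    · exfalso
      have h3 := P_smul t1 t2 hτ hxy x⁻¹
      rw [inv_mul_cancel₀ hx] at h3
      by_cases h0 : x⁻¹ * y = 0
      · rw [h0, P_one_zero] at h3
        exact n1 c h3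
      · by_cases h1' : x⁻¹ * y = 1
        · rw [h1'] at h3
          have h4 := P_add t1 t2 hτ 1 0 0 1 c
          rw [add_zero, zero_add, P_one_zero, P_zero_one] at h4
          rw [h4] at h3
          exact n3 c h3
        · exact hc0 _ h0 h1' h3
  set S : ZMod 5 → Finset (Fin 40) := fun μ => univ.filter fun j => P τ1 τ2 1 μ j = j with hS
  have memS : ∀ μ j, j ∈ S μ ↔ P τ1 τ2 1 μ j = j := fun μ j => by simp [hS]
  have hdisj : ∀ μ ν : ZMod 5, μ ≠ ν → Disjoint (S μ) (S ν) := by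
    intro μ ν hne
    rw [Finset.disjoint_left]
    intro j hj hj'
    rw [memS] at hj hj'
    have h3 := P_add t1 t2 hτ 0 (μ - ν) 1 ν j
    rw [zero_add, sub_add_cancel, hj', hj] at h3
    have hne' : μ - ν ≠ 0 := sub_ne_zero.2 hne
    have h4 := P_smul t1 t2 hτ h3.symm (μ - ν)⁻¹
    rw [mul_zero, inv_mul_cancel₀ hne', P_zero_one] at h4
    exact n2 j h4
  set U : Finset (Fin 40) := (S 2 ∪ S 3) ∪ S 4 with hU
  have d23 : Disjoint (S 2) (S 3) := hdisj 2 3 (by decide)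
  have dU4 : Disjoint (S 2 ∪ S 3) (S 4) :=
    Finset.disjoint_union_left.2 ⟨hdisj 2 4 (by decide), hdisj 3 4 (by decide)⟩
  have hUcard : U.card = 15 := by
    rw [hU, Finset.card_union_of_disjoint dU4, Finset.card_union_of_disjoint d23,
      hc 2 (by decide) (by decide), hc 3 (by decide) (by decide), hc 4 (by decide) (by decide)]
  have hOcard : Uᶜ.card = 25 := by
    rw [Finset.card_compl, hUcard, Fintype.card_fin]
  obtain ⟨c0, hc0⟩ := Finset.card_pos.1 (by rw [hOcard]; norm_num : 0 < Uᶜ.card)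
  rw [Finset.mem_compl] at hc0
  have hnotS : ∀ j, j ∉ U → ∀ μ : ZMod 5, μ ≠ 0 → μ ≠ 1 → P τ1 τ2 1 μ j ≠ j := by
    intro j hj μ hμ0 hμ1 hcon
    apply hj
    rw [hU, Finset.mem_union, Finset.mem_union]
    have h5 : ∀ μ : ZMod 5, μ ≠ 0 → μ ≠ 1 → μ = 2 ∨ μ = 3 ∨ μ = 4 := by decide
    rcases h5 μ hμ0 hμ1 with h | h | h
    · exact Or.inl (Or.inl ((memS 2 j).2 (h ▸ hcon)))
    · exact Or.inl (Or.inr ((memS 3 j).2 (h ▸ hcon)))
    · exact Or.inr ((memS 4 j).2 (h ▸ hcon))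
  have htriv := trivial_of c0 (hnotS c0 hc0)
  have hO : Uᶜ = (univ : Finset (ZMod 5 × ZMod 5)).image (fun q => P τ1 τ2 q.1 q.2 c0) := by
    symm
    apply Finset.eq_of_subset_of_card_le
    · intro j hj
      rw [Finset.mem_image] at hj
      obtain ⟨⟨x, y⟩, -, rfl⟩ := hj
      rw [Finset.mem_compl]
      intro hcon
      have h6 : ∀ μ : ZMod 5, P τ1 τ2 x y c0 ∈ S μ → False := by
        intro μ hm
        rw [memS] at hm
        have h7 := P_add t1 t2 hτ x y 1 μ c0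
        have h8 := P_add t1 t2 hτ 1 μ x y c0
        rw [add_comm x 1, add_comm y μ, h8, hm] at h7
        have h9 := P_inj x y h7
        exact one_ne_zero (htriv 1 μ h9.symm).1
      rw [hU, Finset.mem_union, Finset.mem_union] at hcon
      rcases hcon with (h | h) | h
      · exact h6 _ h
      · exact h6 _ h
      · exact h6 _ h
    · rw [hOcard, Finset.card_image_of_injective]
      · simp
      · rintro ⟨x, y⟩ ⟨x', y'⟩ hxy
        have h7 := P_add t1 t2 hτ x' y' (x - x') (y - y') c0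
        rw [add_sub_cancel, add_sub_cancel] at h7
        change P τ1 τ2 x y c0 = P τ1 τ2 x' y' c0 at hxy
        rw [hxy] at h7
        have h8 := P_inj x' y' h7
        have h9 := htriv _ _ h8.symm
        exact Prod.ext (sub_eq_zero.1 h9.1) (sub_eq_zero.1 h9.2)
  have sumO : ∀ G : Fin 40 → ZMod 5, ∑ j ∈ Uᶜ, G j = ∑ x, ∑ y, G (P τ1 τ2 x y c0) := by
    intro G
    rw [hO, Finset.sum_image, ← Finset.univ_product_univ, Finset.sum_product]
    rintro ⟨x, y⟩ - ⟨x', y'⟩ - hxy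
    have h7 := P_add t1 t2 hτ x' y' (x - x') (y - y') c0
    rw [add_sub_cancel, add_sub_cancel] at h7
    change P τ1 τ2 x y c0 = P τ1 τ2 x' y' c0 at hxy
    rw [hxy] at h7
    have h8 := P_inj x' y' h7
    have h9 := htriv _ _ h8.symm
    exact Prod.ext (sub_eq_zero.1 h9.1) (sub_eq_zero.1 h9.2)
  -- the short orbits
  have short : ∀ μ : ZMod 5, μ ≠ 0 → μ ≠ 1 → ∃ c : Fin 40, P τ1 τ2 1 μ c = c ∧
      ∀ G : Fin 40 → ZMod 5, ∑ j ∈ S μ, G j = ∑ y, G (P τ1 τ2 0 y c) := by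
    intro μ hμ0 hμ1
    have hcard := hc μ hμ0 hμ1
    obtain ⟨c, hcS⟩ := Finset.card_pos.1 (by rw [hcard]; norm_num :
      0 < (univ.filter fun j => P τ1 τ2 1 μ j = j).card)
    have hcf : P τ1 τ2 1 μ c = c := (Finset.mem_filter.1 hcS).2
    have hinj : Function.Injective (fun y : ZMod 5 => P τ1 τ2 0 y c) := by
      intro y y' hy
      have h7 := P_add t1 t2 hτ 0 y' 0 (y - y') c
      rw [add_zero, add_sub_cancel] at h7
      change P τ1 τ2 0 y c = P τ1 τ2 0 y' c at hy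
      rw [hy] at h7
      have h8 := P_inj 0 y' h7
      by_contra hne
      have hne' : y - y' ≠ 0 := sub_ne_zero.2 hne
      have h9 := P_smul t1 t2 hτ h8.symm (y - y')⁻¹
      rw [mul_zero, inv_mul_cancel₀ hne', P_zero_one] at h9
      exact n2 c h9
    have him : S μ = (univ : Finset (ZMod 5)).image (fun y => P τ1 τ2 0 y c) := by
      symm
      apply Finset.eq_of_subset_of_card_le
      · intro j hj
        rw [Finset.mem_image] at hj
        obtain ⟨y, -, rfl⟩ := hj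
        rw [memS]
        have h7 := P_add t1 t2 hτ 1 μ 0 y c
        have h8 := P_add t1 t2 hτ 0 y 1 μ c
        rw [hcf] at h8
        rw [← h7, ← h8, add_comm 1 0, add_comm μ y]
      · rw [Finset.card_image_of_injective _ hinj]
        rw [show (S μ).card = 5 from hcard]
        simp
    refine ⟨c, hcf, fun G => ?_⟩
    rw [him, Finset.sum_image]
    intro y _ y' _ hy
    exact hinj hy
  have step : ∀ (μ : ZMod 5) (c : Fin 40), P τ1 τ2 1 μ c = c → ∀ y : ZMod 5,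
      τ1 (P τ1 τ2 0 y c) = P τ1 τ2 0 (y - μ) c := by
    intro μ c hcf y
    have h7 := P_succ_left t1 t2 hτ 0 y c
    have h8 := P_add t1 t2 hτ 0 (y - μ) 1 μ c
    rw [hcf, sub_add_cancel] at h8
    rw [← h7, ← h8]
  have step2 : ∀ (c : Fin 40) (y : ZMod 5), τ2 (P τ1 τ2 0 y c) = P τ1 τ2 0 (y + 1) c :=
    fun c y => (P_succ_right t1 t2 hτ 0 y c).symm
  have q12 : ∀ μ : ZMod 5, μ ≠ 0 → μ ≠ 1 → ∑ j ∈ S μ, G12 j * G12 j
      = κ * κ * ((-μ * 1) * (-μ * 1)) := by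
    intro μ hμ0 hμ1
    obtain ⟨c, hcf, hsum⟩ := short μ hμ0 hμ1
    rw [hsum]
    refine sumsq_line (fun y => G12 (P τ1 τ2 0 y c)) (-μ) 1 κ (neg_ne_zero.2 hμ0) one_ne_zero ?_
    intro y
    have h := m12 (P τ1 τ2 0 y c)
    rw [step2, step μ c hcf, step μ c hcf] at h
    have e2 : y + -μ = y - μ := by ring
    have e1 : y - μ + 1 = y + 1 - μ := by ring
    simp only [e2, e1]
    exact h
  have q13 : ∀ μ : ZMod 5, μ ≠ 0 → μ ≠ 1 → ∑ j ∈ S μ, G13 j * G13 j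
      = κ * κ * ((-μ * (1 - μ)) * (-μ * (1 - μ))) := by
    intro μ hμ0 hμ1
    obtain ⟨c, hcf, hsum⟩ := short μ hμ0 hμ1
    rw [hsum]
    refine sumsq_line (fun y => G13 (P τ1 τ2 0 y c)) (-μ) (1 - μ) κ (neg_ne_zero.2 hμ0)
      (sub_ne_zero.2 (Ne.symm hμ1)) ?_
    intro y
    have h := m13 (P τ1 τ2 0 y c)
    rw [step2, step μ c hcf, step μ c hcf, step μ c hcf] at h
    have e2 : y + -μ = y - μ := by ring
    have e1 : y - μ + (1 - μ) = y + 1 - μ - μ := by ring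
    have e3 : y + (1 - μ) = y + 1 - μ := by ring
    simp only [e2, e1, e3]
    exact h
  have q23 : ∀ μ : ZMod 5, μ ≠ 0 → μ ≠ 1 → ∑ j ∈ S μ, G23 j * G23 j
      = (-κ) * (-κ) * ((1 * (1 - μ)) * (1 * (1 - μ))) := by
    intro μ hμ0 hμ1
    obtain ⟨c, hcf, hsum⟩ := short μ hμ0 hμ1
    rw [hsum]
    refine sumsq_line (fun y => G23 (P τ1 τ2 0 y c)) 1 (1 - μ) (-κ) one_ne_zero
      (sub_ne_zero.2 (Ne.symm hμ1)) ?_
    intro y
    have h := m23 (P τ1 τ2 0 y c)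
    rw [step2, step μ c hcf, step2] at h
    have e1 : y + 1 + (1 - μ) = y + 1 - μ + 1 := by ring
    have e3 : y + (1 - μ) = y + 1 - μ := by ring
    simp only [e1, e3]
    exact h
  -- total second moments
  have total : ∀ G : Fin 40 → ZMod 5, ∑ j, G j = ∑ x, ∑ y, G (P τ1 τ2 x y c0)
      + ((∑ j ∈ S 2, G j + ∑ j ∈ S 3, G j) + ∑ j ∈ S 4, G j) := by
    intro G
    rw [← Finset.sum_compl_add_sum U, sumO, hU, Finset.sum_union dU4, Finset.sum_union d23]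
  have T12 := second_moment hD r1 r2
  have T13 := second_moment hD r1 r3
  have T23 := second_moment hD r2 r3
  rw [total (fun k => (D r1 k - D r2 k) * (D r1 k - D r2 k))] at T12
  rw [total (fun k => (D r1 k - D r3 k) * (D r1 k - D r3 k))] at T13
  rw [total (fun k => (D r2 k - D r3 k) * (D r2 k - D r3 k))] at T23
  have k12 : ∀ μ : ZMod 5, μ ≠ 0 → μ ≠ 1 → ∑ j ∈ S μ, (D r1 j - D r2 j) * (D r1 j - D r2 j)
      = κ * κ * ((-μ * 1) * (-μ * 1)) := q12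
  have k13 : ∀ μ : ZMod 5, μ ≠ 0 → μ ≠ 1 → ∑ j ∈ S μ, (D r1 j - D r3 j) * (D r1 j - D r3 j)
      = κ * κ * ((-μ * (1 - μ)) * (-μ * (1 - μ))) := q13
  have k23 : ∀ μ : ZMod 5, μ ≠ 0 → μ ≠ 1 → ∑ j ∈ S μ, (D r2 j - D r3 j) * (D r2 j - D r3 j)
      = (-κ) * (-κ) * ((1 * (1 - μ)) * (1 * (1 - μ))) := q23
  rw [k12 2 (by decide) (by decide), k12 3 (by decide) (by decide),
    k12 4 (by decide) (by decide)] at T12
  rw [k13 2 (by decide) (by decide), k13 3 (by decide) (by decide),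
    k13 4 (by decide) (by decide)] at T13
  rw [k23 2 (by decide) (by decide), k23 3 (by decide) (by decide),
    k23 4 (by decide) (by decide)] at T23
  obtain ⟨p, q, t, z12, z13, z23⟩ := three_sumsq (fun x y => G12 (P τ1 τ2 x y c0))
    (fun x y => G23 (P τ1 τ2 x y c0)) κ κ (-κ) (by
      intro x y
      have h := m12 (P τ1 τ2 x y c0)
      rw [← P_succ_right t1 t2 hτ, ← P_succ_left t1 t2 hτ, ← P_succ_left t1 t2 hτ] at h
      exact h) (by
      intro x y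
      have h := m13 (P τ1 τ2 x y c0)
      rw [← P_succ_right t1 t2 hτ, ← P_succ_left t1 t2 hτ, ← P_succ_left t1 t2 hτ,
        ← P_succ_left t1 t2 hτ] at h
      have e1 : x + 2 = x + 1 + 1 := by ring
      have e2 : ∀ j, G12 j + G23 j = G13 j := by
        intro j
        simp only [hG12, hG13, hG23]
        ring
      simp only [e1, e2]
      exact h) (by
      intro x y
      have h := m23 (P τ1 τ2 x y c0)
      rw [← P_succ_right t1 t2 hτ, ← P_succ_left t1 t2 hτ, ← P_succ_right t1 t2 hτ] at h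
      have e1 : y + 2 = y + 1 + 1 := by ring
      simp only [e1]
      exact h)
  have y12 : ∑ x, ∑ y, (D r1 (P τ1 τ2 x y c0) - D r2 (P τ1 τ2 x y c0))
      * (D r1 (P τ1 τ2 x y c0) - D r2 (P τ1 τ2 x y c0)) = 2 * (p * q) := z12
  have y13 : ∑ x, ∑ y, (D r1 (P τ1 τ2 x y c0) - D r3 (P τ1 τ2 x y c0))
      * (D r1 (P τ1 τ2 x y c0) - D r3 (P τ1 τ2 x y c0)) = 2 * (t * q) := by
    rw [← z13]
    refine Finset.sum_congr rfl fun x _ => Finset.sum_congr rfl fun y _ => ?_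
    simp only [hG12, hG23]
    ring
  have y23 : ∑ x, ∑ y, (D r2 (P τ1 τ2 x y c0) - D r3 (P τ1 τ2 x y c0))
      * (D r2 (P τ1 τ2 x y c0) - D r3 (P τ1 τ2 x y c0)) = - (2 * (t * p)) := z23
  rw [y12] at T12
  rw [y13] at T13
  rw [y23] at T23
  have key : ∀ κ p q t : ZMod 5,
      2 * (p * q) + ((κ * κ * ((-2 * 1) * (-2 * 1)) + κ * κ * ((-3 * 1) * (-3 * 1)))
        + κ * κ * ((-4 * 1) * (-4 * 1))) = 0 →
      2 * (t * q) + ((κ * κ * ((-2 * (1 - 2)) * (-2 * (1 - 2)))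
        + κ * κ * ((-3 * (1 - 3)) * (-3 * (1 - 3))))
        + κ * κ * ((-4 * (1 - 4)) * (-4 * (1 - 4)))) = 0 →
      - (2 * (t * p)) + (((-κ) * (-κ) * ((1 * (1 - 2)) * (1 * (1 - 2)))
        + (-κ) * (-κ) * ((1 * (1 - 3)) * (1 * (1 - 3))))
        + (-κ) * (-κ) * ((1 * (1 - 4)) * (1 * (1 - 4)))) = 0 → κ = 0 := by decide
  exact hκ0 (key κ p q t T12 T13 T23)

end Pool.Agent.GH5
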