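import Mathlib
import Pool.Agent.Lib_helper98.GH5.Plane
import Pool.Agent.Lib_helper98.GH5.Burnside

/-!
# The order of the symmetry group is not divisible by 25
-/

set_option autoImplicit false

open Finset Equiv

namespace Pool.Agent.GH5

theorem val_mul_pow {G : Type*} [Group G] {w : G} (hw : w ^ 5 = 1) (k x : ZMod 5) :
    w ^ (k * x).val = (w ^ x.val) ^ k.val := by
  rw [← pow_mul, ZMod.val_mul, ← pow_eq_pow_mod _ hw, mul_comm]

theorem val_not_dvd {k : ZMod 5} (hk : k ≠ 0) : ¬ 5 ∣ k.val := by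
  intro h
  apply hk
  have h1 := ZMod.val_lt k
  have h2 : k.val = 0 := by omega
  exact (ZMod.val_eq_zero k).1 h2

/-- The double sum over the plane, line by line. -/
theorem sum_lines (Φ : ZMod 5 → ZMod 5 → ℕ)
    (h : ∀ k x y : ZMod 5, k ≠ 0 → Φ (k * x) (k * y) = Φ x y) :
    ∑ x, ∑ y, Φ x y = Φ 0 0 + 4 * Φ 0 1 + 4 * ∑ μ, Φ 1 μ := by
  have h1 : ∀ x : ZMod 5, x ≠ 0 → ∑ y, Φ x y = ∑ μ, Φ 1 μ := by
    intro x hx
    rw [← Fintype.sum_equiv (Equiv.mulLeft₀ x hx) (fun μ => Φ 1 μ) (fun y => Φ x y)]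
    intro μ
    have := h x 1 μ hx
    rw [mul_one] at this
    exact this.symm
  have h0 : ∀ y : ZMod 5, y ≠ 0 → Φ 0 y = Φ 0 1 := by
    intro y hy
    have := h y 0 1 hy
    rw [mul_zero, mul_one] at this
    exact this
  have e1 : ∑ x, ∑ y, Φ x y = (∑ y, Φ 0 y) + (∑ y, Φ 1 y) + (∑ y, Φ 2 y) + (∑ y, Φ 3 y)
      + (∑ y, Φ 4 y) := Fin.sum_univ_five fun x : Fin 5 => ∑ y, Φ x y
  have e2 : ∑ y, Φ 0 y = Φ 0 0 + Φ 0 1 + Φ 0 2 + Φ 0 3 + Φ 0 4 :=
    Fin.sum_univ_five fun y : Fin 5 => Φ 0 y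
  rw [e1, e2, h1 2 (by decide), h1 3 (by decide), h1 4 (by decide), h0 2 (by decide),
    h0 3 (by decide), h0 4 (by decide)]
  ring

section

variable {D : Fin 40 → Fin 40 → ZMod 5}

theorem fixedRows_pow {w : Perm (Fin 40) × Perm (Fin 40)} (hw : w ^ 5 = 1) {k : ZMod 5}
    (hk : k ≠ 0) : fixedRows (w ^ k.val) = fixedRows w := by
  unfold fixedRows
  congr 1
  refine Finset.filter_congr fun i _ => ?_
  exact fixed_pow_iff (congrArg Prod.fst hw) (val_not_dvd hk) i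

theorem fixedCols_pow {w : Perm (Fin 40) × Perm (Fin 40)} (hw : w ^ 5 = 1) {k : ZMod 5}
    (hk : k ≠ 0) : fixedCols (w ^ k.val) = fixedCols w := by
  unfold fixedCols
  congr 1
  refine Finset.filter_congr fun i _ => ?_
  exact fixed_pow_iff (congrArg Prod.snd hw) (val_not_dvd hk) i

theorem fixedRows_one : fixedRows (1 : Perm (Fin 40) × Perm (Fin 40)) = 40 := by
  unfold fixedRows
  simp

theorem fixedCols_one : fixedCols (1 : Perm (Fin 40) × Perm (Fin 40)) = 40 := by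
  unfold fixedCols
  simp

/-- Exactly one further row line and three column lines. -/
theorem arith_lines (r1 r2 r3 r4 c1 c2 c3 c4 : ℕ)
    (h1 : (r1 = 0 ∧ c1 = 0) ∨ (r1 = 5 ∧ c1 = 0) ∨ (r1 = 0 ∧ c1 = 5))
    (h2 : (r2 = 0 ∧ c2 = 0) ∨ (r2 = 5 ∧ c2 = 0) ∨ (r2 = 0 ∧ c2 = 5))
    (h3 : (r3 = 0 ∧ c3 = 0) ∨ (r3 = 5 ∧ c3 = 0) ∨ (r3 = 0 ∧ c3 = 5))
    (h4 : (r4 = 0 ∧ c4 = 0) ∨ (r4 = 5 ∧ c4 = 0) ∨ (r4 = 0 ∧ c4 = 5))
    (hr : 25 ∣ 80 + 4 * (r1 + r2 + r3 + r4)) (hc : 25 ∣ 40 + 4 * (c1 + c2 + c3 + c4)) :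
    (r1 = 5 ∧ c2 = 5 ∧ c3 = 5 ∧ c4 = 5) ∨ (r2 = 5 ∧ c1 = 5 ∧ c3 = 5 ∧ c4 = 5) ∨
      (r3 = 5 ∧ c1 = 5 ∧ c2 = 5 ∧ c4 = 5) ∨ (r4 = 5 ∧ c1 = 5 ∧ c2 = 5 ∧ c3 = 5) := by
  rcases h1 with ⟨rfl, rfl⟩ | ⟨rfl, rfl⟩ | ⟨rfl, rfl⟩ <;>
  rcases h2 with ⟨rfl, rfl⟩ | ⟨rfl, rfl⟩ | ⟨rfl, rfl⟩ <;>
  rcases h3 with ⟨rfl, rfl⟩ | ⟨rfl, rfl⟩ | ⟨rfl, rfl⟩ <;>
  rcases h4 with ⟨rfl, rfl⟩ | ⟨rfl, rfl⟩ | ⟨rfl, rfl⟩ <;>
  first
  | (exfalso; revert hr; norm_num; done)
  | (exfalso; revert hc; norm_num; done)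
  | simp

/-- The contradiction for a subgroup of order 25 generated by two commuting elements, the first
two of which fix rows. -/
theorem plane_false (hD : IsGH D) {Q : Subgroup (Perm (Fin 40) × Perm (Fin 40))} (hQ : Q ≤ Sym D)
    (hcard : Nat.card Q = 25) (hcomm : ∀ g ∈ Q, ∀ h ∈ Q, g * h = h * g)
    (hexp : ∀ g ∈ Q, g ^ 5 = 1) {g1 g2 : Perm (Fin 40) × Perm (Fin 40)} (hg1 : g1 ∈ Q)
    (hg2 : g2 ∈ Q) (hind : ∀ x y : ZMod 5, g1 ^ x.val * g2 ^ y.val = 1 → x = 0 ∧ y = 0)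
    (hf1 : fixedRows g1 = 5) (hf2 : fixedRows g2 = 5) : False := by
  classical
  let _ : Fintype Q := Fintype.ofFinite Q
  have hcard' : Fintype.card Q = 25 := by rw [← Nat.card_eq_fintype_card]; exact hcard
  set u : ZMod 5 → ZMod 5 → Perm (Fin 40) × Perm (Fin 40) :=
    fun x y => g1 ^ x.val * g2 ^ y.val with hu
  have huQ : ∀ x y, u x y ∈ Q := fun x y => Q.mul_mem (Q.pow_mem hg1 _) (Q.pow_mem hg2 _)
  have hc12 : Commute g1 g2 := hcomm g1 hg1 g2 hg2
  have hsmul : ∀ k x y : ZMod 5, u (k * x) (k * y) = u x y ^ k.val := by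
    intro k x y
    simp only [hu]
    rw [val_mul_pow (hexp g1 hg1), val_mul_pow (hexp g2 hg2),
      (Commute.pow_pow hc12 x.val y.val).mul_pow]
  have hadd : ∀ x y x' y' : ZMod 5, u (x + x') (y + y') = u x y * u x' y' := by
    intro x y x' y'
    simp only [hu]
    have e1 : ∀ {w : Perm (Fin 40) × Perm (Fin 40)}, w ^ 5 = 1 → ∀ a b : ZMod 5,
        w ^ (a + b).val = w ^ a.val * w ^ b.val := by
      intro w hw a b
      rw [← pow_add, ZMod.val_add, ← pow_eq_pow_mod _ hw]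
    rw [e1 (hexp g1 hg1), e1 (hexp g2 hg2)]
    have h3 : g2 ^ y.val * g1 ^ x'.val = g1 ^ x'.val * g2 ^ y.val :=
      ((Commute.pow_pow hc12 x'.val y.val).eq).symm
    calc g1 ^ x.val * g1 ^ x'.val * (g2 ^ y.val * g2 ^ y'.val)
        = g1 ^ x.val * (g1 ^ x'.val * g2 ^ y.val) * g2 ^ y'.val := by simp only [mul_assoc]
      _ = g1 ^ x.val * (g2 ^ y.val * g1 ^ x'.val) * g2 ^ y'.val := by rw [h3]
      _ = _ := by simp only [mul_assoc]
  have hinj : Function.Injective (fun q : ZMod 5 × ZMod 5 => (⟨u q.1 q.2, huQ q.1 q.2⟩ : Q)) := by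
    rintro ⟨x, y⟩ ⟨x', y'⟩ hxy
    have h1 : u x y = u x' y' := congrArg Subtype.val hxy
    have h2 := hadd x' y' (x - x') (y - y')
    rw [add_sub_cancel, add_sub_cancel, h1] at h2
    have h3 : u (x - x') (y - y') = 1 := by
      have := mul_left_cancel (a := u x' y') (b := u (x - x') (y - y')) (c := 1)
        (by rw [mul_one]; exact h2.symm)
      exact this
    have h4 := hind _ _ h3
    exact Prod.ext (sub_eq_zero.1 h4.1) (sub_eq_zero.1 h4.2)
  have hbij : Function.Bijective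
      (fun q : ZMod 5 × ZMod 5 => (⟨u q.1 q.2, huQ q.1 q.2⟩ : Q)) := by
    rw [Fintype.bijective_iff_injective_and_card]
    refine ⟨hinj, ?_⟩
    rw [hcard']
    simp
  have hsum : ∀ f : Perm (Fin 40) × Perm (Fin 40) → ℕ, ∑ g : Q, f g.1 = ∑ x, ∑ y, f (u x y) := by
    intro f
    rw [← Finset.sum_product', Finset.univ_product_univ]
    exact (Fintype.sum_bijective _ hbij (fun q => f (u q.1 q.2)) (fun g : Q => f g.1)
      (fun q => rfl)).symm
  have hrows : 25 ∣ ∑ x, ∑ y, fixedRows (u x y) := by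
    rw [← hsum, ← hcard']
    exact burnside_rows Q
  have hcols : 25 ∣ ∑ x, ∑ y, fixedCols (u x y) := by
    rw [← hsum, ← hcard']
    exact burnside_cols Q
  have hu5 : ∀ x y, u x y ^ 5 = 1 := fun x y => hexp _ (huQ x y)
  rw [sum_lines _ (fun k x y hk => by
    rw [hsmul, fixedRows_pow (hu5 x y) hk])] at hrows
  rw [sum_lines _ (fun k x y hk => by
    rw [hsmul, fixedCols_pow (hu5 x y) hk])] at hcols
  have u00 : u 0 0 = 1 := by simp [hu]
  have hv1 : (1 : ZMod 5).val = 1 := rfl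
  have u01 : u 0 1 = g2 := by simp [hu, hv1]
  have u10 : u 1 0 = g1 := by simp [hu, hv1]
  have hne : ∀ x y, (x ≠ 0 ∨ y ≠ 0) → u x y ≠ 1 := by
    intro x y hxy h
    have := hind x y h
    tauto
  have ht : ∀ x y, (x ≠ 0 ∨ y ≠ 0) → (fixedRows (u x y) = 0 ∧ fixedCols (u x y) = 0) ∨
      (fixedRows (u x y) = 5 ∧ fixedCols (u x y) = 0) ∨
      (fixedRows (u x y) = 0 ∧ fixedCols (u x y) = 5) :=
    fun x y hxy => types5 hD (hQ (huQ x y)) (hu5 x y) (hne x y hxy)
  have s1 : ∑ μ, fixedRows (u 1 μ) = fixedRows (u 1 0) + fixedRows (u 1 1) + fixedRows (u 1 2)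
      + fixedRows (u 1 3) + fixedRows (u 1 4) :=
    Fin.sum_univ_five fun y : Fin 5 => fixedRows (u 1 y)
  have s2 : ∑ μ, fixedCols (u 1 μ) = fixedCols (u 1 0) + fixedCols (u 1 1) + fixedCols (u 1 2)
      + fixedCols (u 1 3) + fixedCols (u 1 4) :=
    Fin.sum_univ_five fun y : Fin 5 => fixedCols (u 1 y)
  rw [s1, u00, u01, fixedRows_one, hf2] at hrows
  rw [s2, u00, u01, fixedCols_one] at hcols
  have hone : (1 : ZMod 5) ≠ 0 := by decide
  have t01 := ht 0 1 (Or.inr hone)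
  have t10 := ht 1 0 (Or.inl hone)
  have t11 := ht 1 1 (Or.inl hone)
  have t12 := ht 1 2 (Or.inl hone)
  have t13 := ht 1 3 (Or.inl hone)
  have t14 := ht 1 4 (Or.inl hone)
  rw [u01] at t01
  rw [u10] at t10 hrows hcols
  -- exactly one further row line and three column lines
  have hm : ∃ m : ZMod 5, m ≠ 0 ∧ fixedRows (u 1 m) = 5 ∧
      ∀ μ : ZMod 5, μ ≠ 0 → μ ≠ m → fixedCols (u 1 μ) = 5 := by
    have h1234 : ∀ μ : ZMod 5, μ ≠ 0 → μ = 1 ∨ μ = 2 ∨ μ = 3 ∨ μ = 4 := by decide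
    have hcases : (fixedRows (u 1 1) = 5 ∧ fixedCols (u 1 2) = 5 ∧ fixedCols (u 1 3) = 5 ∧
          fixedCols (u 1 4) = 5) ∨
        (fixedRows (u 1 2) = 5 ∧ fixedCols (u 1 1) = 5 ∧ fixedCols (u 1 3) = 5 ∧
          fixedCols (u 1 4) = 5) ∨
        (fixedRows (u 1 3) = 5 ∧ fixedCols (u 1 1) = 5 ∧ fixedCols (u 1 2) = 5 ∧
          fixedCols (u 1 4) = 5) ∨
        (fixedRows (u 1 4) = 5 ∧ fixedCols (u 1 1) = 5 ∧ fixedCols (u 1 2) = 5 ∧
          fixedCols (u 1 3) = 5) := by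
      refine arith_lines _ _ _ _ _ _ _ _ t11 t12 t13 t14 ?_ ?_
      · have e : 80 + 4 * (fixedRows (u 1 1) + fixedRows (u 1 2) + fixedRows (u 1 3)
            + fixedRows (u 1 4)) = 40 + 4 * 5 + 4 * (fixedRows g1 + fixedRows (u 1 1)
            + fixedRows (u 1 2) + fixedRows (u 1 3) + fixedRows (u 1 4)) := by
          rw [hf1]; ring
        rw [e]
        exact hrows
      · have e : 40 + 4 * (fixedCols (u 1 1) + fixedCols (u 1 2) + fixedCols (u 1 3)
            + fixedCols (u 1 4)) = 40 + 4 * fixedCols g2 + 4 * (fixedCols g1 + fixedCols (u 1 1)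
            + fixedCols (u 1 2) + fixedCols (u 1 3) + fixedCols (u 1 4)) := by
          have c1 : fixedCols g1 = 0 := by omega
          have c2 : fixedCols g2 = 0 := by omega
          rw [c1, c2]; ring
        rw [e]
        exact hcols
    rcases hcases with ⟨h, h2, h3, h4⟩ | ⟨h, h2, h3, h4⟩ | ⟨h, h2, h3, h4⟩ | ⟨h, h2, h3, h4⟩
    · refine ⟨1, by decide, h, fun μ h0 hne => ?_⟩
      rcases h1234 μ h0 with rfl | rfl | rfl | rfl
      · exact absurd rfl hne
      · exact h2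
      · exact h3
      · exact h4
    · refine ⟨2, by decide, h, fun μ h0 hne => ?_⟩
      rcases h1234 μ h0 with rfl | rfl | rfl | rfl
      · exact h2
      · exact absurd rfl hne
      · exact h3
      · exact h4
    · refine ⟨3, by decide, h, fun μ h0 hne => ?_⟩
      rcases h1234 μ h0 with rfl | rfl | rfl | rfl
      · exact h2
      · exact h3
      · exact absurd rfl hne
      · exact h4
    · refine ⟨4, by decide, h, fun μ h0 hne => ?_⟩
      rcases h1234 μ h0 with rfl | rfl | rfl | rfl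
      · exact h2
      · exact h3
      · exact h4
      · exact absurd rfl hne
  obtain ⟨m, hm0, hmR, hmC⟩ := hm
  -- the new second generator
  set g2' := g2 ^ m.val with hg2'
  have hg2'Q : g2' ∈ Q := Q.pow_mem hg2 _
  have hg2'R : fixedRows g2' = 5 := by rw [hg2', fixedRows_pow (hexp g2 hg2) hm0, hf2]
  have hg2'C : fixedCols g2' = 0 := by
    rw [hg2', fixedCols_pow (hexp g2 hg2) hm0]
    omega
  have hu' : ∀ μ : ZMod 5, g1 * g2' ^ μ.val = u 1 (μ * m) := by
    intro μ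
    simp only [hu, hv1, pow_one]
    rw [val_mul_pow (hexp g2 hg2)]
  have hprod : g1 * g2' = u 1 m := by
    have := hu' 1
    rw [hv1, pow_one, one_mul] at this
    exact this
  have hprodR : fixedRows (g1 * g2') = 5 := by rw [hprod]; exact hmR
  have hprodC : fixedCols (g1 * g2') = 0 := by
    rw [hprod]
    have := ht 1 m (Or.inl hone)
    omega
  have hg1C : fixedCols g1 = 0 := by omega
  have hcolsμ : ∀ μ : ZMod 5, μ ≠ 0 → μ ≠ 1 → fixedCols (g1 * g2' ^ μ.val) = 5 := by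
    intro μ h0 h1
    rw [hu' μ]
    refine hmC _ (mul_ne_zero h0 hm0) ?_
    intro h
    apply h1
    have : μ * m = 1 * m := by rw [one_mul]; exact h
    exact mul_right_cancel₀ hm0 this
  obtain ⟨a1, b1, h1⟩ := hQ hg1
  obtain ⟨a2, b2, h2⟩ := hQ hg2'Q
  have hcc : g1 * g2' = g2' * g1 := hcomm g1 hg1 g2' hg2'Q
  have getrow : ∀ w : Perm (Fin 40) × Perm (Fin 40), fixedRows w = 5 → ∃ r, w.1 r = r := by
    intro w hw
    have h0 : 0 < (univ.filter fun i => w.1 i = i).card := by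
      have : (univ.filter fun i => w.1 i = i).card = 5 := hw
      rw [this]; norm_num
    obtain ⟨r, hr⟩ := Finset.card_pos.1 h0
    exact ⟨r, (Finset.mem_filter.1 hr).2⟩
  have nocol : ∀ w : Perm (Fin 40) × Perm (Fin 40), fixedCols w = 0 → ∀ j, w.2 j ≠ j := by
    intro w hw j hj
    have h0 : (univ.filter fun i => w.2 i = i).card = 0 := hw
    rw [Finset.card_eq_zero] at h0
    have : j ∈ (univ.filter fun i => w.2 i = i) := Finset.mem_filter.2 ⟨Finset.mem_univ _, hj⟩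
    rw [h0] at this
    exact absurd this (Finset.notMem_empty _)
  have norow : ∀ w : Perm (Fin 40) × Perm (Fin 40), fixedRows w = 0 → ∀ j, w.1 j ≠ j := by
    intro w hw j hj
    have h0 : (univ.filter fun i => w.1 i = i).card = 0 := hw
    rw [Finset.card_eq_zero] at h0
    have : j ∈ (univ.filter fun i => w.1 i = i) := Finset.mem_filter.2 ⟨Finset.mem_univ _, hj⟩
    rw [h0] at this
    exact absurd this (Finset.notMem_empty _)
  obtain ⟨r1, hr1⟩ := getrow g1 hf1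
  obtain ⟨r2, hr2⟩ := getrow g2' hg2'R
  obtain ⟨r3, hr3⟩ := getrow (g1 * g2') hprodR
  have hg1five : g1 ^ 5 = 1 := hexp g1 hg1
  have hg2five : g2' ^ 5 = 1 := hexp g2' hg2'Q
  have hσ : g1.1 * g2'.1 = g2'.1 * g1.1 := congrArg Prod.fst hcc
  have hτ : g1.2 * g2'.2 = g2'.2 * g1.2 := congrArg Prod.snd hcc
  have hfixr : g1.1 (g2'.1 r1) = g2'.1 r1 := by
    rw [← Perm.mul_apply, hσ, Perm.mul_apply, hr1]
  have hκ : a1 (g2'.1 r1) ≠ a1 r1 := by
    intro h
    have h3 := five_inj hD h1 (congrArg Prod.snd hg1five) hg1C hfixr hr1 h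
    -- then `r1` is fixed by everything
    have h4 : fixedRows (g1 * g2' ^ (2 : ZMod 5).val) = 0 := by
      have h5 := hcolsμ 2 (by decide) (by decide)
      have h6 : (2 : ZMod 5) * m ≠ 0 := mul_ne_zero (by decide) hm0
      have h7 := ht 1 (2 * m) (Or.inl hone)
      rw [← hu' 2] at h7
      omega
    apply norow _ h4 r1
    have h5 : (2 : ZMod 5).val = 2 := rfl
    rw [h5]
    change g1.1 ((g2'.1 ^ 2) r1) = r1
    rw [pow_two, Perm.mul_apply, h3, h3, hr1]
  refine plane_core hD h1 h2 hσ hτ (congrArg Prod.snd hg1five) (congrArg Prod.snd hg2five)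
    hr1 hr2 hr3 hκ (nocol g1 hg1C) (nocol g2' hg2'C) (nocol _ hprodC) ?_
  intro μ h0 h1'
  have h5 := hcolsμ μ h0 h1'
  have h6 : (univ.filter fun j => (g1 * g2' ^ μ.val).2 j = j).card = 5 := h5
  refine Eq.trans (congrArg Finset.card (Finset.filter_congr fun j _ => ?_)) h6
  unfold P
  rw [hv1, pow_one]
  rfl

end

/-- The order of the symmetry group is not divisible by 25. -/
theorem not_25_dvd {D : Fin 40 → Fin 40 → ZMod 5} (hD : IsGH D) : ¬ 25 ∣ Nat.card (Sym D) := by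
  classical
  intro h25
  have h25' : 5 ^ 2 ∣ Nat.card (Sym D) := h25
  obtain ⟨K, hK⟩ := Sylow.exists_subgroup_card_pow_prime (G := Sym D) 5 h25'
  set Q : Subgroup (Perm (Fin 40) × Perm (Fin 40)) := K.map (Sym D).subtype with hQdef
  have hQ : Q ≤ Sym D := by
    rintro _ ⟨x, -, rfl⟩
    exact x.2
  have hcardQ : Nat.card Q = 25 := by
    rw [hQdef, Subgroup.card_map_of_injective (Sym D).subtype_injective, hK]
    norm_num
  let _ : Fintype Q := Fintype.ofFinite Q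
  have hcardF : Fintype.card Q = 25 := by rw [← Nat.card_eq_fintype_card]; exact hcardQ
  have hexp : ∀ g ∈ Q, g ^ 5 = 1 := by
    intro g hg
    have h1 : orderOf g ∣ 25 := by
      have h2 := orderOf_dvd_natCard (⟨g, hg⟩ : Q)
      rw [hcardQ] at h2
      rwa [Subgroup.orderOf_mk] at h2
    have h2 := no_order_25 hD (hQ hg)
    have h3 : orderOf g ∣ 5 ^ 2 := by norm_num; exact h1
    rcases (Nat.dvd_prime_pow (by norm_num : Nat.Prime 5)).1 h3 with ⟨k, hk, hk2⟩
    have hk1 : k ≤ 1 := by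
      by_contra hcon
      have : k = 2 := by omega
      rw [this] at hk2
      exact h2 (by rw [hk2]; norm_num)
    apply orderOf_dvd_iff_pow_eq_one.1
    rw [hk2]
    calc 5 ^ k ∣ 5 ^ 1 := Nat.pow_dvd_pow 5 hk1
      _ = 5 := by norm_num
  have hcomm : ∀ g ∈ Q, ∀ h ∈ Q, g * h = h * g := by
    intro g hg h hh
    have := (IsPGroup.isMulCommutative_of_card_eq_prime_sq (p := 5) (G := Q)
      (by rw [hcardQ]; norm_num)).is_comm.comm (⟨g, hg⟩ : Q) ⟨h, hh⟩
    exact congrArg Subtype.val this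
  have hB : 25 ∣ ∑ g : Q, fixedRows g.1 := by
    have := burnside_rows Q
    rwa [hcardF] at this
  have ht : ∀ g : Q, g ≠ 1 → fixedRows g.1 = 0 ∨ fixedRows g.1 = 5 := by
    intro g hg
    have := types5 hD (hQ g.2) (hexp g.1 g.2) (fun h => hg (Subtype.ext h))
    omega
  have h1sum : ∑ g : Q, fixedRows g.1 = 40 + ∑ g ∈ univ.erase (1 : Q), fixedRows g.1 := by
    rw [← Finset.add_sum_erase univ (fun g : Q => fixedRows g.1) (Finset.mem_univ 1)]
    rw [show fixedRows ((1 : Q) : Perm (Fin 40) × Perm (Fin 40)) = 40 from fixedRows_one]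
  -- first row element
  have ex1 : ∃ g1 : Q, g1 ≠ 1 ∧ fixedRows g1.1 = 5 := by
    by_contra hcon
    push Not at hcon
    have h0 : ∑ g ∈ univ.erase (1 : Q), fixedRows g.1 = 0 := by
      refine Finset.sum_eq_zero fun g hg => ?_
      have hg1 : g ≠ 1 := (Finset.mem_erase.1 hg).1
      rcases ht g hg1 with h | h
      · exact h
      · exact absurd h (hcon g hg1)
    rw [h1sum, h0] at hB
    omega
  obtain ⟨g1, hg1ne, hg1R⟩ := ex1
  have hg1ord : orderOf g1.1 = 5 := by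
    rcases (Nat.dvd_prime (by norm_num : Nat.Prime 5)).1
      (orderOf_dvd_of_pow_eq_one (hexp g1.1 g1.2)) with h | h
    · exact absurd (Subtype.ext (orderOf_eq_one_iff.1 h)) hg1ne
    · exact h
  have ex2 : ∃ g2 : Q, g2.1 ∉ Subgroup.zpowers g1.1 ∧ fixedRows g2.1 = 5 := by
    by_contra hcon
    push Not at hcon
    have hsub : ∑ g ∈ univ.erase (1 : Q), fixedRows g.1
        = ∑ g ∈ (univ.erase (1 : Q)).filter (fun g => g.1 ∈ Subgroup.zpowers g1.1), 5 := by
      rw [Finset.sum_filter]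
      refine Finset.sum_congr rfl fun g hg => ?_
      have hgne : g ≠ 1 := (Finset.mem_erase.1 hg).1
      by_cases hz : g.1 ∈ Subgroup.zpowers g1.1
      · rw [if_pos hz]
        have hfin : IsOfFinOrder g1.1 := isOfFinOrder_of_finite _
        obtain ⟨k, hk1, hk2⟩ := Finset.mem_image.1
          ((hfin.mem_zpowers_iff_mem_range_orderOf).1 hz)
        rw [hg1ord] at hk1
        have hk0 : k ≠ 0 := by
          rintro rfl
          apply hgne
          apply Subtype.ext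
          rw [← hk2]
          simp
        have hkd : ¬ 5 ∣ k := by
          have := Finset.mem_range.1 hk1
          omega
        rw [← hk2, ← hg1R]
        change fixedRows (g1.1 ^ k) = _
        unfold fixedRows
        congr 1
        refine Finset.filter_congr fun i _ => ?_
        exact fixed_pow_iff (congrArg Prod.fst (hexp g1.1 g1.2)) hkd i
      · rw [if_neg hz]
        rcases ht g hgne with h | h
        · exact h
        · exact absurd h (hcon g hz)
    have hcount : ((univ.erase (1 : Q)).filter (fun g => g.1 ∈ Subgroup.zpowers g1.1)).card = 4 := by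
      have h2 : (univ.filter (fun g : Q => g.1 ∈ Subgroup.zpowers g1.1)).card = 5 := by
        have h3 : (univ.filter (fun g : Q => g.1 ∈ Subgroup.zpowers g1.1)).card
            = Nat.card (Subgroup.zpowers g1.1) := by
          have hle : Subgroup.zpowers g1.1 ≤ Q := by
            rw [Subgroup.zpowers_le]
            exact g1.2
          rw [← Fintype.card_subtype, ← Nat.card_eq_fintype_card]
          exact Nat.card_congr ⟨fun g => ⟨g.1.1, g.2⟩, fun z => ⟨⟨z.1, hle z.2⟩, z.2⟩,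
            fun _ => rfl, fun _ => rfl⟩
        rw [h3, Nat.card_zpowers, hg1ord]
      rw [Finset.filter_erase, Finset.card_erase_of_mem, h2]
      rw [Finset.mem_filter]
      exact ⟨Finset.mem_univ _, Subgroup.one_mem _⟩
    rw [h1sum, hsub, Finset.sum_const, hcount] at hB
    norm_num at hB
  obtain ⟨g2, hg2z, hg2R⟩ := ex2
  refine plane_false hD hQ hcardQ hcomm hexp g1.2 g2.2 ?_ hg1R hg2R
  intro x y hxy
  have hy : y = 0 := by
    by_contra hy
    apply hg2z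
    -- `g2 = (g2 ^ y) ^ (y⁻¹)`
    have h1 : g2.1 = (g2.1 ^ y.val) ^ (y⁻¹).val := by
      rw [← val_mul_pow (hexp g2.1 g2.2), inv_mul_cancel₀ hy]
      exact (pow_one _).symm
    have h2 : g2.1 ^ y.val = (g1.1 ^ x.val)⁻¹ := (inv_eq_of_mul_eq_one_right hxy).symm
    rw [h1, h2]
    exact Subgroup.pow_mem _ (Subgroup.inv_mem _ (Subgroup.pow_mem _
      (Subgroup.mem_zpowers g1.1) _)) _
  subst hy
  refine ⟨?_, rfl⟩
  have h0 : (0 : ZMod 5).val = 0 := rfl
  rw [h0, pow_zero, mul_one] at hxy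
  have h1 := orderOf_dvd_of_pow_eq_one hxy
  rw [hg1ord] at h1
  by_contra hx
  exact val_not_dvd hx h1

end Pool.Agent.GH5
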