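import Mathlib
import Pool.Agent.Lib_helper98.GH5.Burnside

/-!
# The rectangle inequality and the pointwise stabiliser of seven rows
-/

set_option autoImplicit false

open Finset Equiv

namespace Pool.Agent.GH5

/-- Ordered coincidences of a function with values in `ZMod 5`. -/
theorem coincidences_sq (B : Finset (Fin 40)) (φ : Fin 40 → ZMod 5) :
    B.card * B.card ≤ 5 * ∑ k ∈ B, ∑ l ∈ B, (if φ k = φ l then 1 else 0) := by
  set n : ZMod 5 → ℕ := fun v => (B.filter fun l => φ l = v).card with hn
  have h1 : ∑ k ∈ B, ∑ l ∈ B, (if φ k = φ l then 1 else 0) = ∑ v : ZMod 5, n v * n v := by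
    rw [← Finset.sum_fiberwise (s := B) (g := φ)]
    refine Finset.sum_congr rfl fun v _ => ?_
    have h2 : ∀ k ∈ B.filter (fun k => φ k = v),
        (∑ l ∈ B, (if φ k = φ l then 1 else 0)) = n v := by
      intro k hk
      rw [← Finset.card_filter, hn]
      congr 1
      ext l
      rw [Finset.mem_filter, Finset.mem_filter, (Finset.mem_filter.1 hk).2, eq_comm]
    rw [Finset.sum_congr rfl h2, Finset.sum_const, smul_eq_mul]
  have h3 : ∑ v : ZMod 5, n v = B.card :=
    (Finset.card_eq_sum_card_fiberwise (s := B)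
      (t := (univ : Finset (ZMod 5))) (f := φ) (fun k _ => by simp)).symm
  have h4 := sq_sum_le_card_mul_sum_sq (s := (univ : Finset (ZMod 5))) (f := fun v => n v)
  rw [h3, Finset.card_univ, ZMod.card] at h4
  rw [h1]
  calc B.card * B.card = B.card ^ 2 := by ring
    _ ≤ 5 * ∑ v : ZMod 5, n v ^ 2 := h4
    _ = 5 * ∑ v : ZMod 5, n v * n v := by
      congr 1
      exact Finset.sum_congr rfl fun v _ => by ring

/-- The rectangle inequality: if every row of `A` is constant on the columns of `B` then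
`|A| |B| ≤ 40`. -/
theorem rect {E : Fin 40 → Fin 40 → ZMod 5} (hE : IsGH E) (A B : Finset (Fin 40))
    (h : ∀ i ∈ A, ∀ j ∈ B, ∀ j' ∈ B, E i j = E i j') : A.card * B.card ≤ 40 := by
  have hsum : ∑ i : Fin 40, ∑ j ∈ B, ∑ j' ∈ B, (if E i j = E i j' then 1 else 0)
      = 8 * (B.card * B.card) + 32 * B.card := by
    rw [Finset.sum_comm]
    have h1 : ∀ j ∈ B, ∑ i : Fin 40, ∑ j' ∈ B, (if E i j = E i j' then 1 else 0)
        = ∑ j' ∈ B, (8 + 32 * (if j = j' then 1 else 0)) := by
      intro j _
      rw [Finset.sum_comm]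
      refine Finset.sum_congr rfl fun j' _ => ?_
      by_cases hj : j = j'
      · subst hj
        simp
      · rw [if_neg hj, ← Finset.card_filter]
        exact hE.transpose.agree hj
    rw [Finset.sum_congr rfl h1]
    have h2 : ∀ j ∈ B, ∑ j' ∈ B, (8 + 32 * (if j = j' then 1 else 0)) = 8 * B.card + 32 := by
      intro j hj
      rw [Finset.sum_add_distrib, ← Finset.mul_sum, Finset.sum_const, smul_eq_mul,
        Finset.sum_ite_eq, if_pos hj]
      ring
    rw [Finset.sum_congr rfl h2, Finset.sum_const, smul_eq_mul]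
    ring
  have hrow : ∀ i : Fin 40, B.card * B.card + (if i ∈ A then 4 * (B.card * B.card) else 0)
      ≤ 5 * ∑ j ∈ B, ∑ j' ∈ B, (if E i j = E i j' then 1 else 0) := by
    intro i
    by_cases hi : i ∈ A
    · rw [if_pos hi]
      have h1 : ∑ j ∈ B, ∑ j' ∈ B, (if E i j = E i j' then 1 else 0) = B.card * B.card := by
        rw [Finset.sum_congr rfl fun j hj => Finset.sum_congr rfl fun j' hj' => by
          rw [if_pos (h i hi j hj j' hj')]]
        simp
      rw [h1]
      omega
    · rw [if_neg hi, add_zero]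
      exact coincidences_sq B (E i)
  have htot := Finset.sum_le_sum fun (i : Fin 40) (_ : i ∈ univ) => hrow i
  rw [← Finset.mul_sum, hsum, Finset.sum_add_distrib, Finset.sum_const, Finset.card_univ,
    Fintype.card_fin, smul_eq_mul, ← Finset.sum_filter, Finset.sum_const, smul_eq_mul] at htot
  have hA : (univ.filter fun i => i ∈ A) = A := by ext; simp
  rw [hA] at htot
  by_cases hB : B.card = 0
  · rw [hB]; omega
  · have hB' : 0 < B.card := Nat.pos_of_ne_zero hB
    have h5 : (A.card * B.card) * B.card ≤ 40 * B.card := by nlinarith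
    exact Nat.le_of_mul_le_mul_right h5 hB'

section

variable {D : Fin 40 → Fin 40 → ZMod 5}

/-- The orbit of a column under a group which fixes the rows of `A`. -/
theorem rect_orbit (hD : IsGH D) (Q : Subgroup (Perm (Fin 40) × Perm (Fin 40)))
    (hQ : Q ≤ Sym D) (h5 : (Nat.card Q).Coprime 5) (A B : Finset (Fin 40))
    (hA : ∀ i ∈ A, ∀ g ∈ Q, g.1 i = i) (j : Fin 40) (hB : ∀ k ∈ B, ∃ g ∈ Q, g.2 j = k) :
    A.card * B.card ≤ 40 := by
  obtain ⟨E, hE, -, hinv⟩ := exists_invariant hD Q hQ h5
  refine rect hE A B ?_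
  have key : ∀ i ∈ A, ∀ k ∈ B, E i k = E i j := by
    intro i hi k hk
    obtain ⟨g, hg, rfl⟩ := hB k hk
    have := hinv g hg i j
    rw [hA i hi g hg] at this
    exact this
  intro i hi k hk k' hk'
  rw [key i hi k hk, key i hi k' hk']

/-- The dual statement. -/
theorem rect_orbit' (hD : IsGH D) (Q : Subgroup (Perm (Fin 40) × Perm (Fin 40)))
    (hQ : Q ≤ Sym D) (h5 : (Nat.card Q).Coprime 5) (A B : Finset (Fin 40))
    (hA : ∀ j ∈ A, ∀ g ∈ Q, g.2 j = j) (i : Fin 40) (hB : ∀ k ∈ B, ∃ g ∈ Q, g.1 i = k) :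
    A.card * B.card ≤ 40 := by
  obtain ⟨E, hE, -, hinv⟩ := exists_invariant hD Q hQ h5
  refine rect hE.transpose A B ?_
  have key : ∀ j ∈ A, ∀ k ∈ B, E k j = E i j := by
    intro j hj k hk
    obtain ⟨g, hg, rfl⟩ := hB k hk
    have := hinv g hg i j
    rw [hA j hj g hg] at this
    exact this
  intro j hj k hk k' hk'
  rw [key j hj k hk, key j hj k' hk']

theorem fixedRows_eq_one_iff : fixedRows (1 : Perm (Fin 40) × Perm (Fin 40)) = 40 := by
  unfold fixedRows
  simp

/-- The number of fixed rows of an element of 2-power order is even. -/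
theorem even_fixed {g : Perm (Fin 40) × Perm (Fin 40)} {n : ℕ} (h : g ^ 2 ^ n = 1) :
    2 ∣ fixedRows g := by
  have h40 := card_modEq_fixed (p := 2) (n := n) (τ := g.1) (congrArg Prod.fst h)
    (univ : Finset (Fin 40)) (fun x _ => Finset.mem_univ _)
  rw [Finset.card_univ, Fintype.card_fin] at h40
  unfold Nat.ModEq at h40
  unfold fixedRows
  omega

/-- A 2-group which fixes seven rows has order at most 16. -/
theorem card_le_16 (hD : IsGH D) (K : Subgroup (Perm (Fin 40) × Perm (Fin 40)))
    (hK : K ≤ Sym D) {n : ℕ} (hcard : Nat.card K = 2 ^ n) (A : Finset (Fin 40))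
    (hA7 : 7 ≤ A.card) (hA : ∀ i ∈ A, ∀ g ∈ K, g.1 i = i) : Nat.card K ≤ 16 := by
  classical
  have h5 : (Nat.card K).Coprime 5 := by
    rw [hcard]
    exact Nat.Coprime.pow_left n (by norm_num)
  let _ : Fintype K := Fintype.ofFinite K
  have hcardF : Fintype.card K = 2 ^ n := by rw [← Nat.card_eq_fintype_card]; exact hcard
  -- fixed columns
  have hfix : ∀ g : K, g ≠ 1 → fixedCols g.1 = 8 := by
    intro g hg
    have hord : orderOf g.1 ∣ 2 ^ n := by
      have h2 := orderOf_dvd_natCard g
      rw [hcard] at h2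
      rwa [← Subgroup.orderOf_coe] at h2
    have hpow : g.1 ^ 2 ^ n = 1 := orderOf_dvd_iff_pow_eq_one.1 hord
    have hco : (orderOf g.1).Coprime 5 :=
      Nat.Coprime.coprime_dvd_left hord (Nat.Coprime.pow_left n (by norm_num))
    have h8 := fixed_of_coprime hD (hK g.2) hco
    have hne : g.1 ≠ 1 := fun h => hg (Subtype.ext h)
    have hle := h8.2 hne
    have h7 : 7 ≤ fixedRows g.1 := by
      refine le_trans hA7 (Finset.card_le_card fun i hi => ?_)
      rw [Finset.mem_filter]
      exact ⟨Finset.mem_univ _, hA i hi g.1 g.2⟩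
    have hev := even_fixed hpow
    rw [← h8.1]
    omega
  let ρ : K →* Perm (Fin 40) := (MonoidHom.snd _ _).comp K.subtype
  let act : MulAction K (Fin 40) := MulAction.compHom (Fin 40) ρ
  let ft : Fintype (Quotient (MulAction.orbitRel K (Fin 40))) := Fintype.ofFinite _
  have hB := MulAction.sum_card_fixedBy_eq_card_orbits_mul_card_group K (Fin 40)
  have h2 : ∀ g : K, Fintype.card (MulAction.fixedBy (Fin 40) g) = fixedCols g.1 := by
    intro g
    rw [Fintype.card_subtype]
    rfl
  rw [Finset.sum_congr rfl fun g _ => h2 g,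
    ← Finset.add_sum_erase univ (fun g : K => fixedCols g.1) (Finset.mem_univ 1),
    Finset.sum_congr rfl fun g hg => hfix g (Finset.mem_erase.1 hg).1, Finset.sum_const,
    Finset.card_erase_of_mem (Finset.mem_univ _), Finset.card_univ, hcardF] at hB
  have h1 : fixedCols ((1 : K) : Perm (Fin 40) × Perm (Fin 40)) = 40 := by
    unfold fixedCols
    simp
  rw [h1] at hB
  -- the sizes of the orbits
  have hsize : ∀ j : Fin 40, Nat.card (MulAction.orbit K j) ≤ 4 := by
    intro j
    have hle5 : A.card * (Finset.image (fun g : K => g.1.2 j) univ).card ≤ 40 :=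
      rect_orbit hD K hK h5 A _ hA j (fun k hk => by
        obtain ⟨g, -, hg⟩ := Finset.mem_image.1 hk
        exact ⟨g.1, g.2, hg⟩)
    have hset : (MulAction.orbit K j)
        = ((Finset.image (fun g : K => g.1.2 j) univ : Finset (Fin 40)) : Set (Fin 40)) := by
      ext x
      rw [Finset.mem_coe, Finset.mem_image]
      constructor
      · rintro ⟨g, hg⟩
        exact ⟨g, Finset.mem_univ _, hg⟩
      · rintro ⟨g, -, hg⟩
        exact ⟨g, hg⟩
    have heq : Nat.card (MulAction.orbit K j)
        = (Finset.image (fun g : K => g.1.2 j) univ).card := by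
      rw [hset, Nat.card_coe_set_eq, Set.ncard_coe_finset]
    have hdvd : Nat.card (MulAction.orbit K j) ∣ 2 ^ n := by
      let f1 : Fintype (MulAction.orbit K j) := Fintype.ofFinite _
      let f2 : Fintype (MulAction.stabilizer K j) := Fintype.ofFinite _
      rw [← hcardF, ← MulAction.card_orbit_mul_card_stabilizer_eq_card_group K j,
        Nat.card_eq_fintype_card]
      exact Dvd.intro _ rfl
    rw [← heq] at hle5
    obtain ⟨l, -, hl⟩ := (Nat.dvd_prime_pow Nat.prime_two).1 hdvd
    rw [hl] at hle5 ⊢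
    have : 2 ^ l ≤ 5 := by nlinarith
    have hl2 : l ≤ 2 := by
      by_contra hcon
      have : 2 ^ 3 ≤ 2 ^ l := Nat.pow_le_pow_right (by norm_num) (by omega)
      omega
    calc 2 ^ l ≤ 2 ^ 2 := Nat.pow_le_pow_right (by norm_num) hl2
      _ = 4 := by norm_num
  have h40 : 40 ≤ Fintype.card (Quotient (MulAction.orbitRel K (Fin 40))) * 4 := by
    have h3 := Nat.card_congr (MulAction.selfEquivSigmaOrbits K (Fin 40))
    rw [Nat.card_eq_fintype_card, Fintype.card_fin, Nat.card_sigma] at h3
    calc 40 = ∑ ω : Quotient (MulAction.orbitRel K (Fin 40)), Nat.card (MulAction.orbit K ω.out) :=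
          h3
      _ ≤ ∑ _ω : Quotient (MulAction.orbitRel K (Fin 40)), 4 :=
          Finset.sum_le_sum fun ω _ => hsize _
      _ = _ := by rw [Finset.sum_const, Finset.card_univ, smul_eq_mul]
  rw [hcard]
  have hpos : 1 ≤ 2 ^ n := Nat.one_le_two_pow
  generalize 2 ^ n = N at hB hpos ⊢
  generalize Fintype.card (Quotient (MulAction.orbitRel K (Fin 40))) = m at hB h40
  rw [smul_eq_mul] at hB
  have h3 : 40 * N ≤ m * 4 * N := Nat.mul_le_mul_right N h40
  have h4 : m * 4 * N = 4 * (m * N) := by ring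
  rw [h4, ← hB] at h3
  omega

end

end Pool.Agent.GH5
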