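import Mathlib
import Pool.Agent.Lib_helper98.GH5.Rect

/-!
# The 2-part of the order of the symmetry group
-/

set_option autoImplicit false

open Finset Equiv

namespace Pool.Agent.GH5

theorem not_256_dvd : ¬ 2 ^ 8 ∣ Nat.descFactorial 40 7 := by
  have : Nat.descFactorial 40 7 = 93963542400 := by norm_num [Nat.descFactorial]
  rw [this]
  norm_num

/-- There is no group of symmetries of order `2 ^ 12`. -/
theorem no_4096 {D : Fin 40 → Fin 40 → ZMod 5} (hD : IsGH D)
    (Q : Subgroup (Perm (Fin 40) × Perm (Fin 40))) (hQ : Q ≤ Sym D)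
    (hcard : Nat.card Q = 2 ^ 12) : False := by
  classical
  let _ : Fintype Q := Fintype.ofFinite Q
  have hcardF : Fintype.card Q = 2 ^ 12 := by rw [← Nat.card_eq_fintype_card]; exact hcard
  let act : MulAction Q (Fin 7 ↪ Fin 40) :=
    { smul := fun g f => f.trans (g.1.1 : Perm (Fin 40)).toEmbedding
      one_smul := fun f => by
        ext x
        rfl
      mul_smul := fun g g' f => by
        ext x
        rfl }
  let ft : Fintype (Quotient (MulAction.orbitRel Q (Fin 7 ↪ Fin 40))) := Fintype.ofFinite _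
  have horb : ∀ f : Fin 7 ↪ Fin 40, 2 ^ 8 ∣ Nat.card (MulAction.orbit Q f) := by
    intro f
    let f1 : Fintype (MulAction.orbit Q f) := Fintype.ofFinite _
    let f2 : Fintype (MulAction.stabilizer Q f) := Fintype.ofFinite _
    have hos := MulAction.card_orbit_mul_card_stabilizer_eq_card_group Q f
    rw [hcardF, ← Nat.card_eq_fintype_card, ← Nat.card_eq_fintype_card] at hos
    obtain ⟨l, -, hl⟩ := (Nat.dvd_prime_pow Nat.prime_two).1
      (Dvd.intro_left _ hos : Nat.card (MulAction.stabilizer Q f) ∣ 2 ^ 12)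
    set K : Subgroup (Perm (Fin 40) × Perm (Fin 40)) :=
      (MulAction.stabilizer Q f).map Q.subtype with hK
    have hKle : K ≤ Sym D := by
      rintro _ ⟨x, -, rfl⟩
      exact hQ x.2
    have hKcard : Nat.card K = 2 ^ l := by
      rw [hK, Subgroup.card_map_of_injective Q.subtype_injective, hl]
    have h16 := card_le_16 hD K hKle hKcard (univ.map f) (by
      rw [Finset.card_map]; simp) (by
      intro i hi g hg
      obtain ⟨y, -, rfl⟩ := Finset.mem_map.1 hi
      obtain ⟨x, hx, rfl⟩ := hg
      have hx' : x • f = f := MulAction.mem_stabilizer_iff.1 hx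
      exact congrFun (congrArg (fun F : Fin 7 ↪ Fin 40 => (F : Fin 7 → Fin 40)) hx') y)
    rw [hKcard] at h16
    have hl4 : l ≤ 4 := by
      by_contra hcon
      have : 2 ^ 5 ≤ 2 ^ l := Nat.pow_le_pow_right (by norm_num) (by omega)
      omega
    rw [hl] at hos
    have h3 : Nat.card (MulAction.orbit Q f) * 2 ^ l = 2 ^ (12 - l) * 2 ^ l := by
      rw [hos, ← pow_add]
      congr 1
      omega
    have h4 : Nat.card (MulAction.orbit Q f) = 2 ^ (12 - l) :=
      Nat.eq_of_mul_eq_mul_right (by positivity) h3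
    rw [h4]
    exact Nat.pow_dvd_pow 2 (by omega)
  apply not_256_dvd
  have h3 := Nat.card_congr (MulAction.selfEquivSigmaOrbits Q (Fin 7 ↪ Fin 40))
  have hcardX : Nat.card (Fin 7 ↪ Fin 40) = Nat.descFactorial 40 7 := by
    rw [Nat.card_eq_fintype_card, Fintype.card_embedding_eq, Fintype.card_fin, Fintype.card_fin]
  rw [← hcardX, h3, Nat.card_sigma]
  exact Finset.dvd_sum fun ω _ => horb _

/-- The order of the symmetry group is not divisible by `2 ^ 12`. -/
theorem not_4096_dvd {D : Fin 40 → Fin 40 → ZMod 5} (hD : IsGH D) :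
    ¬ 2 ^ 12 ∣ Nat.card (Sym D) := by
  intro h
  obtain ⟨K, hK⟩ := Sylow.exists_subgroup_card_pow_prime (G := Sym D) 2 h
  refine no_4096 hD (K.map (Sym D).subtype) ?_ ?_
  · rintro _ ⟨x, -, rfl⟩
    exact x.2
  · rw [Subgroup.card_map_of_injective (Sym D).subtype_injective, hK]

end Pool.Agent.GH5
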