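import Mathlib
import Pool.Agent.Lib_helper98.GH5.TwoPart
import Pool.Agent.Lib_helper98.GH5.TwentyFive
import Pool.Agent.Lib_helper98.GH5.Det
import Pool.Agent.Lib_helper98.GH5.Seven
import Pool.Agent.Lib_helper98.GH5.StMore

/-!
# Fixed rows and columns of the symmetries, element orders
-/

set_option autoImplicit false

open Finset Equiv

namespace Pool.Agent.GH5

section

variable {D : Fin 40 → Fin 40 → ZMod 5}

theorem pow_fix {u : Perm (Fin 40)} {i : Fin 40} (hu : u i = i) (n : ℕ) : (u ^ n) i = i := by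
  induction n with
  | zero => rfl
  | succ n ih => rw [pow_succ, Perm.mul_apply, hu, ih]

theorem exists_moved {g : Perm (Fin 40) × Perm (Fin 40)} (h : fixedRows g ≤ 8) :
    ∃ i, g.1 i ≠ i := by
  by_contra hcon
  push Not at hcon
  have : fixedRows g = 40 := by
    unfold fixedRows
    rw [Finset.filter_true_of_mem fun i _ => hcon i]
    simp
  omega

/-- The possible prime orders. -/
theorem prime_order (hD : IsGH D) {g : Perm (Fin 40) × Perm (Fin 40)} (hg : g ∈ Sym D) {r : ℕ}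
    (hr : r.Prime) (ho : orderOf g = r) :
    r = 2 ∨ (r = 3 ∧ fixedRows g = 1 ∧ fixedCols g = 1) ∨ r = 5 := by
  by_cases h5 : r = 5
  · exact Or.inr (Or.inr h5)
  have hco : (orderOf g).Coprime 5 := by
    rw [ho]
    exact (Nat.coprime_primes hr (by norm_num)).2 h5
  have hne : g ≠ 1 := by
    rintro rfl
    rw [orderOf_one] at ho
    exact hr.one_lt.ne ho
  obtain ⟨heq, hle⟩ := fixed_of_coprime hD hg hco
  obtain ⟨i0, hi0⟩ := exists_moved (hle hne)
  obtain ⟨E, hE, -, hinv⟩ := exists_invariant hD (Subgroup.zpowers g)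
    (by rwa [Subgroup.zpowers_le]) (by rwa [Nat.card_zpowers])
  have hi := hinv g (Subgroup.mem_zpowers g)
  have hpow : g ^ r = 1 := by rw [← ho]; exact pow_orderOf_eq_one g
  have hσ : g.1 ^ r = 1 := congrArg Prod.fst hpow
  have hτ : g.2 ^ r = 1 := congrArg Prod.snd hpow
  have : Fact r.Prime := ⟨hr⟩
  rcases prime_cases hE hi h5 hσ hτ hi0 with h | ⟨h, hf⟩ | ⟨h, hf⟩ | ⟨h, hf⟩
  · exact Or.inl h
  · refine Or.inr (Or.inl ⟨h, hf, ?_⟩)
    rw [← heq]
    exact hf
  · exfalso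
    subst h
    refine no_seven hE hi hσ hi0 ?_
    rw [← card_fixed_eq hE hi]
    exact hf
  · exfalso
    subst h
    exact det13 E hE g.1 g.2 hσ hτ hi hf (by rw [← card_fixed_eq hE hi]; exact hf)

theorem order3 (hD : IsGH D) {g : Perm (Fin 40) × Perm (Fin 40)} (hg : g ∈ Sym D)
    (ho : orderOf g = 3) : fixedRows g = 1 ∧ fixedCols g = 1 := by
  rcases prime_order hD hg Nat.prime_three ho with h | ⟨-, h⟩ | h
  · norm_num at h
  · exact h
  · norm_num at h

/-- Elements of order dividing 4 satisfy the parity condition. -/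
theorem parity4 (hD : IsGH D) {g : Perm (Fin 40) × Perm (Fin 40)} (hg : g ∈ Sym D)
    (h4 : g ^ 4 = 1) : 8 ∣ fixedRows (g ^ 2) + 2 * fixedRows g := by
  have hd : orderOf g ∣ 2 ^ 2 := orderOf_dvd_of_pow_eq_one h4
  have hco : (orderOf g).Coprime 5 :=
    Nat.Coprime.coprime_dvd_left hd (by norm_num)
  obtain ⟨E, hE, -, hinv⟩ := exists_invariant hD (Subgroup.zpowers g)
    (by rwa [Subgroup.zpowers_le]) (by rwa [Nat.card_zpowers])
  have hi := hinv g (Subgroup.mem_zpowers g)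
  have hi2 := hinv (g ^ 2) (Subgroup.npow_mem_zpowers g 2)
  exact det4 E hE g.1 g.2 (congrArg Prod.fst h4) (congrArg Prod.snd h4) hi
    (card_fixed_eq hE hi) (card_fixed_eq hE hi2)

theorem order2 (hD : IsGH D) {g : Perm (Fin 40) × Perm (Fin 40)} (hg : g ∈ Sym D)
    (ho : orderOf g = 2) : fixedRows g = fixedCols g ∧
      (fixedRows g = 0 ∨ fixedRows g = 4 ∨ fixedRows g = 8) := by
  have hco : (orderOf g).Coprime 5 := by rw [ho]; norm_num
  have hne : g ≠ 1 := by
    rintro rfl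
    rw [orderOf_one] at ho
    norm_num at ho
  obtain ⟨heq, hle⟩ := fixed_of_coprime hD hg hco
  have h8 := hle hne
  have h2 : g ^ 2 = 1 := by rw [← ho]; exact pow_orderOf_eq_one g
  have h4 : g ^ 4 = 1 := by
    rw [show 4 = 2 * 2 from rfl, pow_mul, h2, one_pow]
  have hp := parity4 hD hg h4
  rw [h2, fixedRows_one] at hp
  refine ⟨heq, ?_⟩
  omega

theorem fixedRows_le_pow (g : Perm (Fin 40) × Perm (Fin 40)) (n : ℕ) :
    fixedRows g ≤ fixedRows (g ^ n) := by
  refine Finset.card_le_card fun i hi => ?_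
  rw [Finset.mem_filter] at hi ⊢
  exact ⟨Finset.mem_univ _, pow_fix hi.2 n⟩

/-- Elements of order 4. -/
theorem order4 (hO : St_o4f8) (hD : IsGH D) {g : Perm (Fin 40) × Perm (Fin 40)} (hg : g ∈ Sym D)
    (ho : orderOf g = 4) :
    (fixedRows (g ^ 2) = 0 ∧ fixedRows g = 0) ∨ (fixedRows (g ^ 2) = 4 ∧ fixedRows g = 2) ∨
      (fixedRows (g ^ 2) = 8 ∧ fixedRows g = 0) ∨ (fixedRows (g ^ 2) = 8 ∧ fixedRows g = 4) := by
  have h4 : g ^ 4 = 1 := by rw [← ho]; exact pow_orderOf_eq_one g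
  have hp := parity4 hD hg h4
  have ho2 : orderOf (g ^ 2) = 2 := by
    rw [orderOf_pow, ho]
    rfl
  have h2 := (order2 hD (Subgroup.pow_mem _ hg 2) ho2).2
  have hle := fixedRows_le_pow g 2
  have hnot : ¬ (fixedRows (g ^ 2) = 8 ∧ fixedRows g = 8) := by
    rintro ⟨ha, hb⟩
    have hco : (orderOf g).Coprime 5 := by rw [ho]; norm_num
    obtain ⟨E, hE, -, hinv⟩ := exists_invariant hD (Subgroup.zpowers g)
      (by rwa [Subgroup.zpowers_le]) (by rwa [Nat.card_zpowers])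
    exact hO E hE g.1 g.2 (congrArg Prod.fst h4) (congrArg Prod.snd h4)
      (hinv g (Subgroup.mem_zpowers g)) hb ha
  omega

/-- A point of exact period `2 ^ (k + 1)` gives `2 ^ (k + 1)` such points. -/
theorem period_le {σ : Perm (Fin 40)} {k : ℕ} {i : Fin 40} (h1 : (σ ^ 2 ^ (k + 1)) i = i)
    (h2 : (σ ^ 2 ^ k) i ≠ i) : 2 ^ (k + 1) ≤
      (univ.filter fun x => (σ ^ 2 ^ (k + 1)) x = x ∧ (σ ^ 2 ^ k) x ≠ x).card := by
  have hper : Function.minimalPeriod σ i = 2 ^ (k + 1) := by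
    apply Function.minimalPeriod_eq_prime_pow
    · intro h
      apply h2
      rw [Perm.coe_pow]
      exact h
    · change σ^[2 ^ (k + 1)] i = i
      rw [← Perm.coe_pow]
      exact h1
  have hinj := Function.iterate_injOn_Iio_minimalPeriod (f := σ) (x := i)
  rw [hper] at hinj
  have h3 : (range (2 ^ (k + 1))).card ≤
      (univ.filter fun x => (σ ^ 2 ^ (k + 1)) x = x ∧ (σ ^ 2 ^ k) x ≠ x).card := by
    refine Finset.card_le_card_of_injOn (fun n => σ^[n] i) ?_ ?_
    · intro n _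
      rw [Finset.mem_coe, Finset.mem_filter]
      refine ⟨Finset.mem_univ _, ?_, ?_⟩
      · change (σ ^ 2 ^ (k + 1)) (σ^[n] i) = σ^[n] i
        rw [← Perm.coe_pow, ← Perm.mul_apply, ← pow_add, add_comm, pow_add, Perm.mul_apply, h1]
      · change (σ ^ 2 ^ k) (σ^[n] i) ≠ σ^[n] i
        rw [← Perm.coe_pow, ← Perm.mul_apply, ← pow_add, add_comm, pow_add, Perm.mul_apply]
        intro h
        exact h2 ((σ ^ n).injective h)
    · intro a ha b hb hab
      exact hinj (Set.mem_Iio.2 (Finset.mem_range.1 ha)) (Set.mem_Iio.2 (Finset.mem_range.1 hb)) hab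
  rwa [Finset.card_range] at h3

/-- Jumps of the fixed point numbers along the powers `2 ^ k`. -/
theorem jump (g : Perm (Fin 40) × Perm (Fin 40)) (k : ℕ) :
    fixedRows (g ^ 2 ^ (k + 1)) = fixedRows (g ^ 2 ^ k) ∨
      fixedRows (g ^ 2 ^ k) + 2 ^ (k + 1) ≤ fixedRows (g ^ 2 ^ (k + 1)) := by
  have hsub : ∀ i, (g.1 ^ 2 ^ k) i = i → (g.1 ^ 2 ^ (k + 1)) i = i := by
    intro i hi
    have := pow_fix hi 2
    rw [← pow_mul, ← pow_succ] at this
    exact this
  have hsplit : fixedRows (g ^ 2 ^ (k + 1)) = fixedRows (g ^ 2 ^ k) +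
      (univ.filter fun x => (g.1 ^ 2 ^ (k + 1)) x = x ∧ (g.1 ^ 2 ^ k) x ≠ x).card := by
    unfold fixedRows
    rw [← Finset.card_filter_add_card_filter_not (s := univ.filter fun i =>
      (g ^ 2 ^ (k + 1)).1 i = i) (fun i => (g.1 ^ 2 ^ k) i = i), Finset.filter_filter,
      Finset.filter_filter]
    congr 2
    refine Finset.filter_congr fun i _ => ⟨fun h => h.2, fun h => ⟨hsub i h, h⟩⟩
  by_cases h : ∃ i, (g.1 ^ 2 ^ (k + 1)) i = i ∧ (g.1 ^ 2 ^ k) i ≠ i
  · obtain ⟨i, h1, h2⟩ := h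
    have := period_le h1 h2
    right
    omega
  · left
    push Not at h
    have h0 : (univ.filter fun x => (g.1 ^ 2 ^ (k + 1)) x = x ∧ (g.1 ^ 2 ^ k) x ≠ x) = ∅ := by
      rw [Finset.filter_eq_empty_iff]
      rintro x - ⟨hx, hx'⟩
      exact hx' (h x hx)
    rw [h0, Finset.card_empty, add_zero] at hsplit
    exact hsplit

end

end Pool.Agent.GH5
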