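import Mathlib
import Pool.Agent.Lib_helper98.GH5.Orders
import Pool.Agent.Lib_helper98.GH5.Bound

/-!
# Composite orders and semiregular groups
-/

set_option autoImplicit false

open Finset Equiv

namespace Pool.Agent.GH5

section

variable {D : Fin 40 → Fin 40 → ZMod 5}

/-- An element commuting with an element of order 3. -/
theorem comm3 {t u : Perm (Fin 40) × Perm (Fin 40)} (ht : t ^ 3 = 1) (h1 : fixedRows t = 1)
    (hc : Commute t u) : fixedRows u % 3 = 1 := by
  have hc1 : t.1 * u.1 = u.1 * t.1 := congrArg Prod.fst hc.eq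
  have hcx : ∀ x, t.1 (u.1 x) = u.1 (t.1 x) := fun x => by
    rw [← Perm.mul_apply, hc1, Perm.mul_apply]
  have h3 := card_modEq_fixed (p := 3) (n := 1) (τ := t.1)
    (by rw [pow_one]; exact congrArg Prod.fst ht)
    (univ.filter fun i => u.1 i = i) (fun x hx => by
      rw [Finset.mem_filter] at hx ⊢
      exact ⟨Finset.mem_univ _, by rw [← hcx, hx.2]⟩)
  obtain ⟨r, hr⟩ := Finset.card_eq_one.1 (show (univ.filter fun i => t.1 i = i).card = 1 from h1)
  have hrt : t.1 r = r := by
    have : r ∈ (univ.filter fun i => t.1 i = i) := by rw [hr]; exact Finset.mem_singleton_self r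
    exact (Finset.mem_filter.1 this).2
  have hur : u.1 r = r := by
    have : u.1 r ∈ (univ.filter fun i => t.1 i = i) :=
      Finset.mem_filter.2 ⟨Finset.mem_univ _, by rw [hcx, hrt]⟩
    rw [hr] at this
    exact Finset.mem_singleton.1 this
  have hset : ((univ.filter fun i => u.1 i = i).filter fun i => t.1 i = i) = {r} := by
    ext x
    rw [Finset.mem_filter, Finset.mem_filter, Finset.mem_singleton]
    constructor
    · rintro ⟨-, hx⟩
      have : x ∈ (univ.filter fun i => t.1 i = i) := Finset.mem_filter.2 ⟨Finset.mem_univ _, hx⟩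
      rw [hr] at this
      exact Finset.mem_singleton.1 this
    · rintro rfl
      exact ⟨⟨Finset.mem_univ _, hur⟩, hrt⟩
  rw [hset, Finset.card_singleton] at h3
  exact h3

/-- Exchange of rows and columns. -/
def sw (g : Perm (Fin 40) × Perm (Fin 40)) : Perm (Fin 40) × Perm (Fin 40) := (g.2, g.1)

theorem fixedRows_sw (g : Perm (Fin 40) × Perm (Fin 40)) : fixedRows (sw g) = fixedCols g := rfl

theorem fixedCols_sw (g : Perm (Fin 40) × Perm (Fin 40)) : fixedCols (sw g) = fixedRows g := rfl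

theorem sw_mul (g h : Perm (Fin 40) × Perm (Fin 40)) : sw (g * h) = sw g * sw h := rfl

theorem sw_one : sw 1 = 1 := rfl

theorem sw_pow (g : Perm (Fin 40) × Perm (Fin 40)) (n : ℕ) : sw (g ^ n) = sw g ^ n := rfl

theorem sw_inj {g h : Perm (Fin 40) × Perm (Fin 40)} (hh : sw g = sw h) : g = h :=
  Prod.ext (congrArg Prod.snd hh) (congrArg Prod.fst hh)

/-- Elements of order 6. -/
theorem order6 (hD : IsGH D) {g : Perm (Fin 40) × Perm (Fin 40)} (hg : g ∈ Sym D)
    (ho : orderOf g = 6) : fixedRows (g ^ 3) = 4 := by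
  have h3 : orderOf (g ^ 2) = 3 := by rw [orderOf_pow, ho]; rfl
  have h2 : orderOf (g ^ 3) = 2 := by rw [orderOf_pow, ho]; rfl
  have hf := order3 hD (Subgroup.pow_mem _ hg 2) h3
  have ht : (g ^ 2) ^ 3 = 1 := by rw [← h3]; exact pow_orderOf_eq_one _
  have hm := comm3 ht hf.1 (((Commute.refl g).pow_left 2).pow_right 3)
  rcases (order2 hD (Subgroup.pow_mem _ hg 3) h2).2 with h | h | h
  · rw [h] at hm; norm_num at hm
  · exact h
  · rw [h] at hm; norm_num at hm

theorem no_order_12 (hD : IsGH D) {g : Perm (Fin 40) × Perm (Fin 40)} (hg : g ∈ Sym D) :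
    orderOf g ≠ 12 := by
  intro ho
  have h3 : orderOf (g ^ 4) = 3 := by rw [orderOf_pow, ho]; rfl
  have h4 : orderOf (g ^ 3) = 4 := by rw [orderOf_pow, ho]; rfl
  have h2 : orderOf (g ^ 6) = 2 := by rw [orderOf_pow, ho]; rfl
  have hf := order3 hD (Subgroup.pow_mem _ hg 4) h3
  have ht : (g ^ 4) ^ 3 = 1 := by rw [← h3]; exact pow_orderOf_eq_one _
  have hm := comm3 ht hf.1 (((Commute.refl g).pow_left 4).pow_right 3)
  have hm2 := comm3 ht hf.1 (((Commute.refl g).pow_left 4).pow_right 6)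
  have h5 := (order2 hD (Subgroup.pow_mem _ hg 6) h2).2
  have hp := parity4 hD (Subgroup.pow_mem _ hg 3) (by rw [← h4]; exact pow_orderOf_eq_one _)
  have he : (g ^ 3) ^ 2 = g ^ 6 := by rw [← pow_mul]
  rw [he] at hp
  have hle := fixedRows_le_pow (g ^ 3) 2
  rw [he] at hle
  omega

theorem no_order_15 (hD : IsGH D) {g : Perm (Fin 40) × Perm (Fin 40)} (hg : g ∈ Sym D) :
    orderOf g ≠ 15 := by
  intro ho
  have h3 : orderOf (g ^ 5) = 3 := by rw [orderOf_pow, ho]; rfl
  have h5 : orderOf (g ^ 3) = 5 := by rw [orderOf_pow, ho]; rfl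
  have hf := order3 hD (Subgroup.pow_mem _ hg 5) h3
  have ht : (g ^ 5) ^ 3 = 1 := by rw [← h3]; exact pow_orderOf_eq_one _
  have hm := comm3 ht hf.1 (((Commute.refl g).pow_left 5).pow_right 3)
  have hm2 : fixedRows (sw (g ^ 3)) % 3 = 1 := by
    refine comm3 (t := sw (g ^ 5)) (u := sw (g ^ 3)) ?_ ?_ ?_
    · rw [← sw_pow, ht, sw_one]
    · rw [fixedRows_sw]; exact hf.2
    · change sw (g ^ 5) * sw (g ^ 3) = sw (g ^ 3) * sw (g ^ 5)
      rw [← sw_mul, ← sw_mul, (((Commute.refl g).pow_left 5).pow_right 3).eq]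
  rw [fixedRows_sw] at hm2
  have h1 : g ^ 3 ≠ 1 := by
    intro h
    rw [h, orderOf_one] at h5
    norm_num at h5
  have := types5 hD (Subgroup.pow_mem _ hg 3) (by rw [← h5]; exact pow_orderOf_eq_one _) h1
  omega

theorem mem_Sym_swap {g : Perm (Fin 40) × Perm (Fin 40)} (hg : g ∈ Sym D) :
    sw g ∈ Sym (fun i j => D j i) := by
  obtain ⟨a, b, h⟩ := hg
  exact ⟨b, a, fun i j => by
    change D (g.1 j) (g.2 i) = _
    rw [h j i]; ring⟩

/-- An element of order 5 commuting with an involution fixes no row. -/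
theorem ten_rows (hD : IsGH D) {t u : Perm (Fin 40) × Perm (Fin 40)} (ht : t ∈ Sym D)
    (hu : u ∈ Sym D) (ht5 : t ^ 5 = 1) (ht1 : t ≠ 1) (hu2 : u ^ 2 = 1) (hu1 : u ≠ 1)
    (hc : Commute t u) : fixedRows t = 0 := by
  by_contra h0
  have hty := types5 hD ht ht5 ht1
  have hR : fixedRows t = 5 ∧ fixedCols t = 0 := by omega
  have hou : orderOf u = 2 := orderOf_eq_prime hu2 hu1
  have hfu := order2 hD hu hou
  obtain ⟨a, b, h⟩ := ht
  obtain ⟨a', b', h'⟩ := hu
  have hc1 : t.1 * u.1 = u.1 * t.1 := congrArg Prod.fst hc.eq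
  have hc2 : t.2 * u.2 = u.2 * t.2 := congrArg Prod.snd hc.eq
  have hcx : ∀ x, t.1 (u.1 x) = u.1 (t.1 x) := fun x => by
    rw [← Perm.mul_apply, hc1, Perm.mul_apply]
  have hcy : ∀ x, t.2 (u.2 x) = u.2 (t.2 x) := fun x => by
    rw [← Perm.mul_apply, hc2, Perm.mul_apply]
  have huu : ∀ x, u.1 (u.1 x) = x := fun x => by
    have := congrArg Prod.fst hu2
    change u.1 ^ 2 = 1 at this
    rw [pow_two] at this
    rw [← Perm.mul_apply, this, Perm.one_apply]
  -- commutation of the phases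
  have key : ∀ i j, (a (u.1 i) - a i - a' (t.1 i) + a' i)
      + (b (u.2 j) - b j - b' (t.2 j) + b' j) = 0 := by
    intro i j
    have e1 := h (u.1 i) (u.2 j)
    have e2 := h' i j
    have e3 := h' (t.1 i) (t.2 j)
    have e4 := h i j
    rw [hcx, hcy, e3, e4, e2] at e1
    linear_combination (-1 : ZMod 5) * e1
  set K : ZMod 5 := b (u.2 0) - b 0 - b' (t.2 0) + b' 0 with hK
  have hfix : ∀ i, t.1 i = i → a (u.1 i) - a i = -K := by
    intro i hi
    have := key i 0
    rw [hi, ← hK] at this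
    linear_combination this
  have hpres : ∀ i, t.1 i = i → u.1 i = i := by
    intro i hi
    have h1 := hfix i hi
    have hi' : t.1 (u.1 i) = u.1 i := by rw [hcx, hi]
    have h2 := hfix (u.1 i) hi'
    rw [huu] at h2
    have h3 : a (u.1 i) = a i := by
      have h4 : 2 * (a (u.1 i) - a i) = 0 := by linear_combination h1 - h2
      have h5 : (3 : ZMod 5) * (2 * (a (u.1 i) - a i)) = 0 := by rw [h4, mul_zero]
      have h6 : (3 : ZMod 5) * 2 = 1 := by decide
      rw [← mul_assoc, h6, one_mul] at h5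
      exact sub_eq_zero.1 h5
    exact five_inj hD h (congrArg Prod.snd ht5) hR.2 hi' hi h3
  have h5le : fixedRows t ≤ fixedRows u := by
    refine Finset.card_le_card fun i hi => ?_
    rw [Finset.mem_filter] at hi ⊢
    exact ⟨Finset.mem_univ _, hpres i hi.2⟩
  have h8 : fixedCols u = 8 := by omega
  have h5m := card_modEq_fixed (p := 5) (n := 1) (τ := t.2)
    (by rw [pow_one]; exact congrArg Prod.snd ht5)
    (univ.filter fun j => u.2 j = j) (fun x hx => by
      rw [Finset.mem_filter] at hx ⊢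
      exact ⟨Finset.mem_univ _, by rw [← hcy, hx.2]⟩)
  have hz : ((univ.filter fun j => u.2 j = j).filter fun j => t.2 j = j).card = 0 := by
    have : ((univ.filter fun j => u.2 j = j).filter fun j => t.2 j = j).card ≤ fixedCols t := by
      refine Finset.card_le_card fun i hi => ?_
      rw [Finset.mem_filter, Finset.mem_filter] at hi
      exact Finset.mem_filter.2 ⟨Finset.mem_univ _, hi.2⟩
    omega
  rw [hz] at h5m
  have h8' : (univ.filter fun j => u.2 j = j).card = 8 := h8
  rw [h8'] at h5m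
  exact absurd h5m (by decide)

theorem ten_cols (hD : IsGH D) {t u : Perm (Fin 40) × Perm (Fin 40)} (ht : t ∈ Sym D)
    (hu : u ∈ Sym D) (ht5 : t ^ 5 = 1) (ht1 : t ≠ 1) (hu2 : u ^ 2 = 1) (hu1 : u ≠ 1)
    (hc : Commute t u) : fixedCols t = 0 := by
  rw [← fixedRows_sw]
  refine ten_rows (t := sw t) (u := sw u) hD.transpose (mem_Sym_swap ht) (mem_Sym_swap hu)
    ?_ ?_ ?_ ?_ ?_
  · rw [← sw_pow, ht5, sw_one]
  · intro h
    exact ht1 (sw_inj h)
  · rw [← sw_pow, hu2, sw_one]
  · intro h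
    exact hu1 (sw_inj h)
  · change sw t * sw u = sw u * sw t
    rw [← sw_mul, ← sw_mul, hc.eq]

/-- Elements of order 10. -/
theorem order10 (hD : IsGH D) {g : Perm (Fin 40) × Perm (Fin 40)} (hg : g ∈ Sym D)
    (ho : orderOf g = 10) : fixedRows (g ^ 2) = 0 ∧ fixedCols (g ^ 2) = 0 ∧
      fixedRows (g ^ 5) = 0 ∧ fixedCols (g ^ 5) = 0 := by
  have h5 : orderOf (g ^ 2) = 5 := by rw [orderOf_pow, ho]; rfl
  have h2 : orderOf (g ^ 5) = 2 := by rw [orderOf_pow, ho]; rfl
  have ht5 : (g ^ 2) ^ 5 = 1 := by rw [← h5]; exact pow_orderOf_eq_one _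
  have hu2 : (g ^ 5) ^ 2 = 1 := by rw [← h2]; exact pow_orderOf_eq_one _
  have ht1 : g ^ 2 ≠ 1 := by
    intro h
    rw [h, orderOf_one] at h5
    norm_num at h5
  have hu1 : g ^ 5 ≠ 1 := by
    intro h
    rw [h, orderOf_one] at h2
    norm_num at h2
  have hc : Commute (g ^ 2) (g ^ 5) := ((Commute.refl g).pow_left 2).pow_right 5
  have r1 := ten_rows hD (Subgroup.pow_mem _ hg 2) (Subgroup.pow_mem _ hg 5) ht5 ht1 hu2 hu1 hc
  have r2 := ten_cols hD (Subgroup.pow_mem _ hg 2) (Subgroup.pow_mem _ hg 5) ht5 ht1 hu2 hu1 hc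
  have r3 := order2 hD (Subgroup.pow_mem _ hg 5) h2
  have hcx : ∀ x, (g ^ 2).1 ((g ^ 5).1 x) = (g ^ 5).1 ((g ^ 2).1 x) := fun x => by
    rw [← Perm.mul_apply, show (g ^ 2).1 * (g ^ 5).1 = (g ^ 5).1 * (g ^ 2).1 from
      congrArg Prod.fst hc.eq, Perm.mul_apply]
  have h5m := card_modEq_fixed (p := 5) (n := 1) (τ := (g ^ 2).1)
    (by rw [pow_one]; exact congrArg Prod.fst ht5)
    (univ.filter fun j => (g ^ 5).1 j = j) (fun x hx => by
      rw [Finset.mem_filter] at hx ⊢
      exact ⟨Finset.mem_univ _, by rw [← hcx, hx.2]⟩)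
  have hz : ((univ.filter fun j => (g ^ 5).1 j = j).filter fun j => (g ^ 2).1 j = j).card = 0 := by
    have : ((univ.filter fun j => (g ^ 5).1 j = j).filter fun j => (g ^ 2).1 j = j).card
        ≤ fixedRows (g ^ 2) := by
      refine Finset.card_le_card fun i hi => ?_
      rw [Finset.mem_filter, Finset.mem_filter] at hi
      exact Finset.mem_filter.2 ⟨Finset.mem_univ _, hi.2⟩
    omega
  rw [hz] at h5m
  have h5m' : fixedRows (g ^ 5) ≡ 0 [MOD 5] := h5m
  unfold Nat.ModEq at h5m'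
  omega

/-- A group acting semiregularly on the rows has order dividing 20. -/
theorem semireg_rows (hD : IsGH D) (Q : Subgroup (Perm (Fin 40) × Perm (Fin 40)))
    (hQ : Q ≤ Sym D) (h : ∀ g ∈ Q, g ≠ 1 → fixedRows g = 0) : Nat.card Q ∣ 20 := by
  classical
  have h40 := card_dvd Q 0 (fun g hg hg1 => (h g hg hg1).le)
  have h40' : Nat.card Q ∣ 40 := by
    simpa [Nat.descFactorial] using h40
  have h8 : ¬ 8 ∣ Nat.card Q := by
    intro h8
    have h8' : 2 ^ 3 ∣ Nat.card Q := h8
    obtain ⟨K, hK⟩ := Sylow.exists_subgroup_card_pow_prime (G := Q) 2 h8'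
    set R : Subgroup (Perm (Fin 40) × Perm (Fin 40)) := K.map Q.subtype with hR
    have hRQ : R ≤ Q := by
      rintro _ ⟨x, -, rfl⟩
      exact x.2
    have hRcard : Nat.card R = 8 := by
      rw [hR, Subgroup.card_map_of_injective Q.subtype_injective, hK]
      norm_num
    obtain ⟨E, hE, -, hinv⟩ := exists_invariant hD R (hRQ.trans hQ) (by rw [hRcard]; norm_num)
    refine det8 E hE R hRcard hinv ?_
    intro g hg hg1
    have hr0 := h g (hRQ hg) hg1
    have hord : orderOf g ∣ 8 := by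
      have h2 := orderOf_dvd_natCard (⟨g, hg⟩ : R)
      rw [hRcard] at h2
      rwa [Subgroup.orderOf_mk] at h2
    have hco : (orderOf g).Coprime 5 := Nat.Coprime.coprime_dvd_left hord (by norm_num)
    have hc0 := (fixed_of_coprime hD (hQ (hRQ hg)) hco).1
    rw [hr0] at hc0
    constructor
    · intro i hi
      have : i ∈ (univ.filter fun i => g.1 i = i) := Finset.mem_filter.2 ⟨Finset.mem_univ _, hi⟩
      rw [Finset.card_eq_zero.1 (show (univ.filter fun i => g.1 i = i).card = 0 from hr0)] at this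
      exact absurd this (Finset.notMem_empty _)
    · intro i hi
      have : i ∈ (univ.filter fun i => g.2 i = i) := Finset.mem_filter.2 ⟨Finset.mem_univ _, hi⟩
      rw [Finset.card_eq_zero.1
        (show (univ.filter fun i => g.2 i = i).card = 0 from hc0.symm)] at this
      exact absurd this (Finset.notMem_empty _)
  have hle : Nat.card Q ≤ 40 := Nat.le_of_dvd (by norm_num) h40'
  generalize Nat.card Q = n at *
  interval_cases n <;> omega

end

end Pool.Agent.GH5
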