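import Mathlib
import Pool.Agent.Lib_helper98.GH5.Orders

/-!
# The 2-part of the order of the symmetry group, sharper form

A 2-group of symmetries which fixes five rows is elementary abelian of order at most 16.
-/

set_option autoImplicit false

open Finset Equiv

namespace Pool.Agent.GH5

section

variable {D : Fin 40 → Fin 40 → ZMod 5}

/-- An element of 2-power order which fixes five rows is an involution and fixes 8 rows. -/
theorem eight_of_five (hO : St_o4f8) (hD : IsGH D) {g : Perm (Fin 40) × Perm (Fin 40)}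
    (hg : g ∈ Sym D) {n : ℕ} (hn : orderOf g ∣ 2 ^ n) (h1 : g ≠ 1) (h5 : 5 ≤ fixedRows g) :
    orderOf g = 2 ∧ fixedRows g = 8 ∧ fixedCols g = 8 := by
  obtain ⟨k, -, hk⟩ := (Nat.dvd_prime_pow Nat.prime_two).1 hn
  have hk0 : k ≠ 0 := by
    rintro rfl
    rw [pow_zero] at hk
    exact h1 (orderOf_eq_one_iff.1 hk)
  have hk1 : k = 1 := by
    by_contra hne
    have ho4 : orderOf (g ^ 2 ^ (k - 2)) = 4 := by
      rw [orderOf_pow, hk]
      have e1 : 2 ^ k = 2 ^ (k - 2) * 4 := by
        rw [show (4 : ℕ) = 2 ^ 2 from rfl, ← pow_add]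
        congr 1
        omega
      rw [e1, Nat.gcd_comm, Nat.gcd_eq_left (Dvd.intro _ rfl)]
      exact Nat.mul_div_cancel_left 4 (by positivity)
    have h4 := order4 hO hD (Subgroup.pow_mem _ hg _) ho4
    have hle := fixedRows_le_pow g (2 ^ (k - 2))
    omega
  subst hk1
  rw [pow_one] at hk
  have h2 := order2 hD hg hk
  refine ⟨hk, ?_, ?_⟩ <;> omega

/-- A 2-group which fixes five rows has order at most 16. -/
theorem card_le_16' (hO : St_o4f8) (hD : IsGH D)
    (K : Subgroup (Perm (Fin 40) × Perm (Fin 40)))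
    (hK : K ≤ Sym D) {n : ℕ} (hcard : Nat.card K = 2 ^ n) (A : Finset (Fin 40))
    (hA5 : 5 ≤ A.card) (hA : ∀ i ∈ A, ∀ g ∈ K, g.1 i = i) : Nat.card K ≤ 16 := by
  classical
  have h5 : (Nat.card K).Coprime 5 := by
    rw [hcard]
    exact Nat.Coprime.pow_left n (by norm_num)
  let _ : Fintype K := Fintype.ofFinite K
  have hcardF : Fintype.card K = 2 ^ n := by rw [← Nat.card_eq_fintype_card]; exact hcard
  -- all rows fixed by `K`
  set A' : Finset (Fin 40) := univ.filter fun i => ∀ g ∈ K, g.1 i = i with hA'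
  have hAA' : A ⊆ A' := fun i hi => Finset.mem_filter.2 ⟨Finset.mem_univ _, hA i hi⟩
  have hA'mem : ∀ i ∈ A', ∀ g ∈ K, g.1 i = i := fun i hi => (Finset.mem_filter.1 hi).2
  have heven : 2 ∣ A'.card := by
    let ρ : K →* Perm (Fin 40) := (MonoidHom.fst _ _).comp K.subtype
    let act : MulAction K (Fin 40) := MulAction.compHom (Fin 40) ρ
    have hp : IsPGroup 2 K := IsPGroup.of_card hcard
    have hm := hp.card_modEq_card_fixedPoints (Fin 40)
    have hset : (MulAction.fixedPoints K (Fin 40)) = (A' : Set (Fin 40)) := by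
      ext x
      rw [MulAction.mem_fixedPoints, Finset.mem_coe, hA', Finset.mem_filter]
      constructor
      · intro h
        exact ⟨Finset.mem_univ _, fun g hg => h ⟨g, hg⟩⟩
      · rintro ⟨-, h⟩ g
        exact h g.1 g.2
    rw [Nat.card_eq_fintype_card, Fintype.card_fin, hset, Nat.card_coe_set_eq,
      Set.ncard_coe_finset] at hm
    unfold Nat.ModEq at hm
    omega
  have hA6 : 6 ≤ A'.card := by
    have := Finset.card_le_card hAA'
    omega
  -- fixed columns
  have hfix : ∀ g : K, g ≠ 1 → fixedCols g.1 = 8 := by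
    intro g hg
    have hord : orderOf g.1 ∣ 2 ^ n := by
      have h2 := orderOf_dvd_natCard g
      rw [hcard] at h2
      rwa [← Subgroup.orderOf_coe] at h2
    have h5' : 5 ≤ fixedRows g.1 := by
      refine le_trans hA5 (Finset.card_le_card fun i hi => ?_)
      rw [Finset.mem_filter]
      exact ⟨Finset.mem_univ _, hA i hi g.1 g.2⟩
    exact (eight_of_five hO hD (hK g.2) hord (fun h => hg (Subtype.ext h)) h5').2.2
  let ρ : K →* Perm (Fin 40) := (MonoidHom.snd _ _).comp K.subtype
  let act : MulAction K (Fin 40) := MulAction.compHom (Fin 40) ρ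
  let ft : Fintype (Quotient (MulAction.orbitRel K (Fin 40))) := Fintype.ofFinite _
  have hB := MulAction.sum_card_fixedBy_eq_card_orbits_mul_card_group K (Fin 40)
  have h2 : ∀ g : K, Fintype.card (MulAction.fixedBy (Fin 40) g) = fixedCols g.1 := by
    intro g
    rw [Fintype.card_subtype]
    rfl
  rw [Finset.sum_congr rfl fun g _ => h2 g,
    ← Finset.add_sum_erase univ (fun g : K => fixedCols g.1) (Finset.mem_univ 1),
    Finset.sum_congr rfl fun g hg => hfix g (Finset.mem_erase.1 hg).1, Finset.sum_const,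
    Finset.card_erase_of_mem (Finset.mem_univ _), Finset.card_univ, hcardF] at hB
  have h1 : fixedCols ((1 : K) : Perm (Fin 40) × Perm (Fin 40)) = 40 := by
    unfold fixedCols
    simp
  rw [h1] at hB
  -- the sizes of the orbits
  have hsize : ∀ j : Fin 40, Nat.card (MulAction.orbit K j) ≤ 4 := by
    intro j
    have hle5 : A'.card * (Finset.image (fun g : K => g.1.2 j) univ).card ≤ 40 :=
      rect_orbit hD K hK h5 A' _ hA'mem j (fun k hk => by
        obtain ⟨g, -, hg⟩ := Finset.mem_image.1 hk
        exact ⟨g.1, g.2, hg⟩)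
    have hset : (MulAction.orbit K j)
        = ((Finset.image (fun g : K => g.1.2 j) univ : Finset (Fin 40)) : Set (Fin 40)) := by
      ext x
      rw [Finset.mem_coe, Finset.mem_image]
      constructor
      · rintro ⟨g, hg⟩
        exact ⟨g, Finset.mem_univ _, hg⟩
      · rintro ⟨g, -, hg⟩
        exact ⟨g, hg⟩
    have heq : Nat.card (MulAction.orbit K j)
        = (Finset.image (fun g : K => g.1.2 j) univ).card := by
      rw [hset, Nat.card_coe_set_eq, Set.ncard_coe_finset]
    have hdvd : Nat.card (MulAction.orbit K j) ∣ 2 ^ n := by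
      let f1 : Fintype (MulAction.orbit K j) := Fintype.ofFinite _
      let f2 : Fintype (MulAction.stabilizer K j) := Fintype.ofFinite _
      rw [← hcardF, ← MulAction.card_orbit_mul_card_stabilizer_eq_card_group K j,
        Nat.card_eq_fintype_card]
      exact Dvd.intro _ rfl
    rw [← heq] at hle5
    obtain ⟨l, -, hl⟩ := (Nat.dvd_prime_pow Nat.prime_two).1 hdvd
    rw [hl] at hle5 ⊢
    have : 2 ^ l ≤ 6 := by nlinarith
    have hl2 : l ≤ 2 := by
      by_contra hcon
      have : 2 ^ 3 ≤ 2 ^ l := Nat.pow_le_pow_right (by norm_num) (by omega)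
      omega
    calc 2 ^ l ≤ 2 ^ 2 := Nat.pow_le_pow_right (by norm_num) hl2
      _ = 4 := by norm_num
  have h40 : 40 ≤ Fintype.card (Quotient (MulAction.orbitRel K (Fin 40))) * 4 := by
    have h3 := Nat.card_congr (MulAction.selfEquivSigmaOrbits K (Fin 40))
    rw [Nat.card_eq_fintype_card, Fintype.card_fin, Nat.card_sigma] at h3
    calc 40 = ∑ ω : Quotient (MulAction.orbitRel K (Fin 40)), Nat.card (MulAction.orbit K ω.out) :=
          h3
      _ ≤ ∑ _ω : Quotient (MulAction.orbitRel K (Fin 40)), 4 :=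
          Finset.sum_le_sum fun ω _ => hsize _
      _ = _ := by rw [Finset.sum_const, Finset.card_univ, smul_eq_mul]
  rw [hcard]
  have hpos : 1 ≤ 2 ^ n := Nat.one_le_two_pow
  generalize 2 ^ n = N at hB hpos ⊢
  generalize Fintype.card (Quotient (MulAction.orbitRel K (Fin 40))) = m at hB h40
  rw [smul_eq_mul] at hB
  have h3 : 40 * N ≤ m * 4 * N := Nat.mul_le_mul_right N h40
  have h4 : m * 4 * N = 4 * (m * N) := by ring
  rw [h4, ← hB] at h3
  omega

theorem not_128_dvd : ¬ 2 ^ 7 ∣ Nat.descFactorial 40 5 := by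
  have : Nat.descFactorial 40 5 = 78960960 := by norm_num [Nat.descFactorial]
  rw [this]
  norm_num

/-- There is no group of symmetries of order `2 ^ 11`. -/
theorem no_2048 (hO : St_o4f8) (hD : IsGH D)
    (Q : Subgroup (Perm (Fin 40) × Perm (Fin 40))) (hQ : Q ≤ Sym D)
    (hcard : Nat.card Q = 2 ^ 11) : False := by
  classical
  let _ : Fintype Q := Fintype.ofFinite Q
  have hcardF : Fintype.card Q = 2 ^ 11 := by rw [← Nat.card_eq_fintype_card]; exact hcard
  let act : MulAction Q (Fin 5 ↪ Fin 40) :=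
    { smul := fun g f => f.trans (g.1.1 : Perm (Fin 40)).toEmbedding
      one_smul := fun f => by
        ext x
        rfl
      mul_smul := fun g g' f => by
        ext x
        rfl }
  let ft : Fintype (Quotient (MulAction.orbitRel Q (Fin 5 ↪ Fin 40))) := Fintype.ofFinite _
  have horb : ∀ f : Fin 5 ↪ Fin 40, 2 ^ 7 ∣ Nat.card (MulAction.orbit Q f) := by
    intro f
    let f1 : Fintype (MulAction.orbit Q f) := Fintype.ofFinite _
    let f2 : Fintype (MulAction.stabilizer Q f) := Fintype.ofFinite _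
    have hos := MulAction.card_orbit_mul_card_stabilizer_eq_card_group Q f
    rw [hcardF, ← Nat.card_eq_fintype_card, ← Nat.card_eq_fintype_card] at hos
    obtain ⟨l, -, hl⟩ := (Nat.dvd_prime_pow Nat.prime_two).1
      (Dvd.intro_left _ hos : Nat.card (MulAction.stabilizer Q f) ∣ 2 ^ 11)
    set K : Subgroup (Perm (Fin 40) × Perm (Fin 40)) :=
      (MulAction.stabilizer Q f).map Q.subtype with hK
    have hKle : K ≤ Sym D := by
      rintro _ ⟨x, -, rfl⟩
      exact hQ x.2
    have hKcard : Nat.card K = 2 ^ l := by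
      rw [hK, Subgroup.card_map_of_injective Q.subtype_injective, hl]
    have h16 := card_le_16' hO hD K hKle hKcard (univ.map f) (by
      rw [Finset.card_map]; simp) (by
      intro i hi g hg
      obtain ⟨y, -, rfl⟩ := Finset.mem_map.1 hi
      obtain ⟨x, hx, rfl⟩ := hg
      have hx' : x • f = f := MulAction.mem_stabilizer_iff.1 hx
      exact congrFun (congrArg (fun F : Fin 5 ↪ Fin 40 => (F : Fin 5 → Fin 40)) hx') y)
    rw [hKcard] at h16
    have hl4 : l ≤ 4 := by
      by_contra hcon
      have : 2 ^ 5 ≤ 2 ^ l := Nat.pow_le_pow_right (by norm_num) (by omega)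
      omega
    rw [hl] at hos
    have h3 : Nat.card (MulAction.orbit Q f) * 2 ^ l = 2 ^ (11 - l) * 2 ^ l := by
      rw [hos, ← pow_add]
      congr 1
      omega
    have h4 : Nat.card (MulAction.orbit Q f) = 2 ^ (11 - l) :=
      Nat.eq_of_mul_eq_mul_right (by positivity) h3
    rw [h4]
    exact Nat.pow_dvd_pow 2 (by omega)
  apply not_128_dvd
  have h3 := Nat.card_congr (MulAction.selfEquivSigmaOrbits Q (Fin 5 ↪ Fin 40))
  have hcardX : Nat.card (Fin 5 ↪ Fin 40) = Nat.descFactorial 40 5 := by
    rw [Nat.card_eq_fintype_card, Fintype.card_embedding_eq, Fintype.card_fin, Fintype.card_fin]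
  rw [← hcardX, h3, Nat.card_sigma]
  exact Finset.dvd_sum fun ω _ => horb _

/-- The order of the symmetry group is not divisible by `2 ^ 11`. -/
theorem not_2048_dvd (hO : St_o4f8) (hD : IsGH D) : ¬ 2 ^ 11 ∣ Nat.card (Sym D) := by
  intro h
  obtain ⟨K, hK⟩ := Sylow.exists_subgroup_card_pow_prime (G := Sym D) 2 h
  refine no_2048 hO hD (K.map (Sym D).subtype) ?_ ?_
  · rintro _ ⟨x, -, rfl⟩
    exact x.2
  · rw [Subgroup.card_map_of_injective (Sym D).subtype_injective, hK]

end

end Pool.Agent.GH5
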