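import Mathlib
import Pool.Agent.Lib_helper98.GH5.Orders2
import Pool.Agent.Lib_helper98.GH5.TwoPart2

/-!
# Orders 8, 16, 40 and the list of the element orders
-/

set_option autoImplicit false

open Finset Equiv

namespace Pool.Agent.GH5

section

variable {D : Fin 40 → Fin 40 → ZMod 5}

/-- Mutually dependent powers have equally many fixed rows. -/
theorem fixedRows_pow_eq {g : Perm (Fin 40) × Perm (Fin 40)} {N m n a b : ℕ} (hN : g ^ N = 1)
    (ha : (m * a) % N = n % N) (hb : (n * b) % N = m % N) :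
    fixedRows (g ^ m) = fixedRows (g ^ n) := by
  have e1 : (g ^ m) ^ a = g ^ n := by
    rw [← pow_mul, pow_eq_pow_mod _ hN, ha, ← pow_eq_pow_mod _ hN]
  have e2 : (g ^ n) ^ b = g ^ m := by
    rw [← pow_mul, pow_eq_pow_mod _ hN, hb, ← pow_eq_pow_mod _ hN]
  apply le_antisymm
  · rw [← e1]; exact fixedRows_le_pow _ _
  · rw [← e2]; exact fixedRows_le_pow _ _

/-- The divisibility condition for elements of 2-power order, in terms of `fixedRows`. -/
theorem parityC (hC : St_detC) (hD : IsGH D) {g : Perm (Fin 40) × Perm (Fin 40)} (hg : g ∈ Sym D)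
    (k : ℕ) (hk : g ^ 2 ^ k = 1) : 2 ^ (k + 1) ∣ ∑ n ∈ range (2 ^ k), fixedRows (g ^ n) := by
  have hd : orderOf g ∣ 2 ^ k := orderOf_dvd_of_pow_eq_one hk
  have hco : (orderOf g).Coprime 5 :=
    Nat.Coprime.coprime_dvd_left hd (Nat.Coprime.pow_left k (by norm_num))
  obtain ⟨E, hE, -, hinv⟩ := exists_invariant hD (Subgroup.zpowers g)
    (by rwa [Subgroup.zpowers_le]) (by rwa [Nat.card_zpowers])
  exact hC E hE k g.1 g.2 (congrArg Prod.fst hk) (congrArg Prod.snd hk)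
    (hinv g (Subgroup.mem_zpowers g))

theorem arith8 (F0 F1 F2 : ℕ)
    (h4 : (F2 = 0 ∧ F1 = 0) ∨ (F2 = 4 ∧ F1 = 2) ∨ (F2 = 8 ∧ F1 = 0) ∨ (F2 = 8 ∧ F1 = 4))
    (hj0 : F1 = F0 ∨ F0 + 2 ≤ F1) (hj1 : F2 = F1 ∨ F1 + 4 ≤ F2)
    (hp : 16 ∣ 40 + F0 + F1 + F0 + F2 + F0 + F1 + F0) (hev : 2 ∣ F0) :
    F2 = 8 ∧ ((F1 = 0 ∧ F0 = 0) ∨ (F1 = 4 ∧ F0 = 2)) := by
  rcases h4 with ⟨rfl, rfl⟩ | ⟨rfl, rfl⟩ | ⟨rfl, rfl⟩ | ⟨rfl, rfl⟩ <;> omega

theorem arith16 (F0 F1 F2 F3 : ℕ)
    (h8 : F3 = 8 ∧ ((F2 = 0 ∧ F1 = 0) ∨ (F2 = 4 ∧ F1 = 2)))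
    (hj2 : F3 = F2 ∨ F2 + 8 ≤ F3) (hle : F0 ≤ F1)
    (hp : 32 ∣ 40 + F0 + F1 + F0 + F2 + F0 + F1 + F0 + F3 + F0 + F1 + F0 + F2 + F0 + F1 + F0) :
    False := by
  rcases h8 with ⟨rfl, ⟨rfl, rfl⟩ | ⟨rfl, rfl⟩⟩ <;> omega

/-- Elements of order 8. -/
theorem order8 (hO : St_o4f8) (hC : St_detC) (hD : IsGH D)
    {g : Perm (Fin 40) × Perm (Fin 40)} (hg : g ∈ Sym D) (ho : orderOf g = 8) :
    fixedRows (g ^ 4) = 8 ∧ ((fixedRows (g ^ 2) = 0 ∧ fixedRows g = 0) ∨
      (fixedRows (g ^ 2) = 4 ∧ fixedRows g = 2)) := by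
  have h8 : g ^ 8 = 1 := by rw [← ho]; exact pow_orderOf_eq_one g
  have ho4 : orderOf (g ^ 2) = 4 := by rw [orderOf_pow, ho]; rfl
  have h4 := order4 hO hD (Subgroup.pow_mem _ hg 2) ho4
  have e24 : (g ^ 2) ^ 2 = g ^ 4 := by rw [← pow_mul]
  rw [e24] at h4
  have hj0 := jump g 0
  have hj1 := jump g 1
  norm_num at hj0 hj1
  have hp := parityC hC hD hg 3 h8
  have hev := even_fixed (g := g) (n := 3) h8
  have hs : ∑ n ∈ range (2 ^ 3), fixedRows (g ^ n) = fixedRows (g ^ 0) + fixedRows (g ^ 1)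
      + fixedRows (g ^ 2) + fixedRows (g ^ 3) + fixedRows (g ^ 4) + fixedRows (g ^ 5)
      + fixedRows (g ^ 6) + fixedRows (g ^ 7) := by
    simp [Finset.sum_range_succ]
  have f3 : fixedRows (g ^ 3) = fixedRows (g ^ 1) :=
    fixedRows_pow_eq (N := 8) (a := 3) (b := 3) h8 rfl rfl
  have f5 : fixedRows (g ^ 5) = fixedRows (g ^ 1) :=
    fixedRows_pow_eq (N := 8) (a := 5) (b := 5) h8 rfl rfl
  have f7 : fixedRows (g ^ 7) = fixedRows (g ^ 1) :=
    fixedRows_pow_eq (N := 8) (a := 7) (b := 7) h8 rfl rfl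
  have f6 : fixedRows (g ^ 6) = fixedRows (g ^ 2) :=
    fixedRows_pow_eq (N := 8) (a := 3) (b := 3) h8 rfl rfl
  rw [hs, f3, f5, f6, f7, pow_zero, pow_one, fixedRows_one] at hp
  clear f3 f5 f6 f7 hs e24 ho4 h8 ho hg
  exact arith8 _ _ _ h4 hj0 hj1 hp hev

/-- No elements of order 16. -/
theorem no_order_16 (hO : St_o4f8) (hC : St_detC) (hD : IsGH D)
    {g : Perm (Fin 40) × Perm (Fin 40)} (hg : g ∈ Sym D) : orderOf g ≠ 16 := by
  intro ho
  have h16 : g ^ 16 = 1 := by rw [← ho]; exact pow_orderOf_eq_one g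
  have ho8 : orderOf (g ^ 2) = 8 := by rw [orderOf_pow, ho]; rfl
  have h8 := order8 hO hC hD (Subgroup.pow_mem _ hg 2) ho8
  have e24 : (g ^ 2) ^ 2 = g ^ 4 := by rw [← pow_mul]
  have e28 : (g ^ 2) ^ 4 = g ^ 8 := by rw [← pow_mul]
  rw [e24, e28] at h8
  have hj2 := jump g 2
  norm_num at hj2
  have hle := fixedRows_le_pow g 2
  have hp := parityC hC hD hg 4 h16
  have hs : ∑ n ∈ range (2 ^ 4), fixedRows (g ^ n) = fixedRows (g ^ 0) + fixedRows (g ^ 1)
      + fixedRows (g ^ 2) + fixedRows (g ^ 3) + fixedRows (g ^ 4) + fixedRows (g ^ 5)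
      + fixedRows (g ^ 6) + fixedRows (g ^ 7) + fixedRows (g ^ 8) + fixedRows (g ^ 9)
      + fixedRows (g ^ 10) + fixedRows (g ^ 11) + fixedRows (g ^ 12) + fixedRows (g ^ 13)
      + fixedRows (g ^ 14) + fixedRows (g ^ 15) := by
    simp [Finset.sum_range_succ]
  have f3 : fixedRows (g ^ 3) = fixedRows (g ^ 1) :=
    fixedRows_pow_eq (N := 16) (a := 11) (b := 3) h16 rfl rfl
  have f5 : fixedRows (g ^ 5) = fixedRows (g ^ 1) :=
    fixedRows_pow_eq (N := 16) (a := 13) (b := 5) h16 rfl rfl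
  have f7 : fixedRows (g ^ 7) = fixedRows (g ^ 1) :=
    fixedRows_pow_eq (N := 16) (a := 7) (b := 7) h16 rfl rfl
  have f9 : fixedRows (g ^ 9) = fixedRows (g ^ 1) :=
    fixedRows_pow_eq (N := 16) (a := 9) (b := 9) h16 rfl rfl
  have f11 : fixedRows (g ^ 11) = fixedRows (g ^ 1) :=
    fixedRows_pow_eq (N := 16) (a := 3) (b := 11) h16 rfl rfl
  have f13 : fixedRows (g ^ 13) = fixedRows (g ^ 1) :=
    fixedRows_pow_eq (N := 16) (a := 5) (b := 13) h16 rfl rfl
  have f15 : fixedRows (g ^ 15) = fixedRows (g ^ 1) :=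
    fixedRows_pow_eq (N := 16) (a := 15) (b := 15) h16 rfl rfl
  have f6 : fixedRows (g ^ 6) = fixedRows (g ^ 2) :=
    fixedRows_pow_eq (N := 16) (a := 11) (b := 3) h16 rfl rfl
  have f10 : fixedRows (g ^ 10) = fixedRows (g ^ 2) :=
    fixedRows_pow_eq (N := 16) (a := 13) (b := 5) h16 rfl rfl
  have f14 : fixedRows (g ^ 14) = fixedRows (g ^ 2) :=
    fixedRows_pow_eq (N := 16) (a := 7) (b := 7) h16 rfl rfl
  have f12 : fixedRows (g ^ 12) = fixedRows (g ^ 4) :=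
    fixedRows_pow_eq (N := 16) (a := 3) (b := 3) h16 rfl rfl
  rw [hs, f3, f5, f6, f7, f9, f10, f11, f12, f13, f14, f15, pow_zero, pow_one,
    fixedRows_one] at hp
  exact arith16 _ _ _ _ h8 hj2 hle hp

/-- No elements of order 40. -/
theorem no_order_40 (hD : IsGH D) {g : Perm (Fin 40) × Perm (Fin 40)} (hg : g ∈ Sym D) :
    orderOf g ≠ 40 := by
  intro ho
  have h40 : g ^ 40 = 1 := orderOf_dvd_iff_pow_eq_one.1 (dvd_of_eq ho)
  have ho10 : orderOf (g ^ 4) = 10 := by rw [orderOf_pow, ho]; rfl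
  have h10 := order10 hD (Subgroup.pow_mem _ hg 4) ho10
  have e8 : (g ^ 4) ^ 2 = g ^ 8 := by rw [← pow_mul]
  have e20 : (g ^ 4) ^ 5 = g ^ 20 := by rw [← pow_mul]
  rw [e8, e20] at h10
  have hs := semireg_rows hD (Subgroup.zpowers g) (by rwa [Subgroup.zpowers_le]) (by
    intro x hx hx1
    have hfin : IsOfFinOrder g := isOfFinOrder_of_finite g
    obtain ⟨k, hk1, hk2⟩ := Finset.mem_image.1 ((hfin.mem_zpowers_iff_mem_range_orderOf).1 hx)
    rw [ho] at hk1
    have hk0 : k ≠ 0 := by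
      rintro rfl
      apply hx1
      rw [← hk2]
      exact pow_zero g
    have hdec : ∀ k ∈ Finset.range 40, k ≠ 0 → ∃ m ∈ Finset.range 40,
        (k * m) % 40 = 8 ∨ (k * m) % 40 = 20 := by decide
    obtain ⟨m, -, hm⟩ := hdec k hk1 hk0
    have hle := fixedRows_le_pow x m
    have hx2 : x ^ m = g ^ ((k * m) % 40) := by
      rw [← hk2]
      change (g ^ k) ^ m = _
      rw [← pow_mul, pow_eq_pow_mod _ h40]
    rw [hx2] at hle
    rcases hm with hm | hm
    · rw [hm] at hle; omega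
    · rw [hm] at hle; omega)
  rw [Nat.card_zpowers, ho] at hs
  norm_num at hs

/-- The order of the symmetry group divides `2 ^ 10 * 3 * 5`. -/
theorem card_Sym_dvd (hO : St_o4f8) (hD : IsGH D) : Nat.card (Sym D) ∣ 2 ^ 10 * 3 * 5 := by
  classical
  rw [Nat.dvd_iff_prime_pow_dvd_dvd]
  intro p k hp hk
  have : Fact p.Prime := ⟨hp⟩
  by_cases hk0 : k = 0
  · subst hk0
    rw [pow_zero]
    exact one_dvd _
  have hpd : p ∣ Nat.card (Sym D) := (dvd_pow_self p hk0).trans hk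
  -- the prime is 2, 3 or 5
  obtain ⟨x, hx⟩ := exists_prime_orderOf_dvd_card' p hpd
  have hx' : orderOf x.1 = p := by rw [← hx]; exact (Subgroup.orderOf_coe x)
  rcases prime_order hD x.2 hp hx' with h | ⟨h, -, -⟩ | h
  · subst h
    have h12 := not_2048_dvd hO hD
    have hle : k ≤ 10 := by
      by_contra hcon
      exact h12 ((Nat.pow_dvd_pow 2 (by omega : 11 ≤ k)).trans hk)
    exact (Nat.pow_dvd_pow 2 hle).trans (by norm_num)
  · subst h
    have h9 : ¬ 3 ^ 2 ∣ Nat.card (Sym D) := by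
      intro h9
      obtain ⟨K, hK⟩ := Sylow.exists_subgroup_card_pow_prime (G := Sym D) 3 h9
      set R : Subgroup (Perm (Fin 40) × Perm (Fin 40)) := K.map (Sym D).subtype with hR
      have hRS : R ≤ Sym D := by
        rintro _ ⟨x, -, rfl⟩
        exact x.2
      have hRcard : Nat.card R = 9 := by
        rw [hR, Subgroup.card_map_of_injective (Sym D).subtype_injective, hK]
        norm_num
      have h1 : ∀ g ∈ R, g ≠ 1 → fixedRows g ≤ 1 := by
        intro g hg hg1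
        have hord : orderOf g ∣ 3 ^ 2 := by
          have h2 := orderOf_dvd_natCard (⟨g, hg⟩ : R)
          rw [hRcard, Subgroup.orderOf_mk] at h2
          norm_num
          exact h2
        obtain ⟨l, hl, hl2⟩ := (Nat.dvd_prime_pow Nat.prime_three).1 hord
        have hl0 : l ≠ 0 := by
          rintro rfl
          rw [pow_zero] at hl2
          exact hg1 (orderOf_eq_one_iff.1 hl2)
        have ho3 : orderOf (g ^ 3 ^ (l - 1)) = 3 := by
          rw [orderOf_pow, hl2]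
          have e1 : 3 ^ l = 3 ^ (l - 1) * 3 := by
            rw [← pow_succ]
            congr 1
            omega
          rw [e1, Nat.gcd_comm, Nat.gcd_eq_left (Dvd.intro _ rfl)]
          exact Nat.mul_div_cancel_left 3 (by positivity)
        have h3 := order3 hD (Subgroup.pow_mem _ (hRS hg) _) ho3
        rw [← h3.1]
        exact fixedRows_le_pow g _
      have hd := card_dvd R 1 h1
      rw [hRcard] at hd
      norm_num [Nat.descFactorial] at hd
    have hle : k ≤ 1 := by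
      by_contra hcon
      exact h9 ((Nat.pow_dvd_pow 3 (by omega : 2 ≤ k)).trans hk)
    exact (Nat.pow_dvd_pow 3 hle).trans (by norm_num)
  · subst h
    have h25 := not_25_dvd hD
    have hle : k ≤ 1 := by
      by_contra hcon
      apply h25
      have : 5 ^ 2 ∣ Nat.card (Sym D) := (Nat.pow_dvd_pow 5 (by omega : 2 ≤ k)).trans hk
      exact this
    exact (Nat.pow_dvd_pow 5 hle).trans (by norm_num)

/-- If `n` divides the order of `g` then some power of `g` has order `n`. -/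
theorem exists_pow_order {g : Perm (Fin 40) × Perm (Fin 40)} (hg : g ∈ Sym D) {n : ℕ}
    (hn : n ∣ orderOf g) : ∃ x ∈ Sym D, orderOf x = n := by
  obtain ⟨m, hm⟩ := hn
  have hpos : 0 < orderOf g := orderOf_pos g
  have hm0 : 0 < m := Nat.pos_of_ne_zero (by rintro rfl; rw [mul_zero] at hm; omega)
  refine ⟨g ^ m, Subgroup.pow_mem _ hg m, ?_⟩
  rw [orderOf_pow, hm, Nat.gcd_comm, Nat.gcd_eq_left (Dvd.intro_left _ rfl)]
  exact Nat.mul_div_cancel n hm0

/-- The list of the element orders. -/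
theorem orders (hO : St_o4f8) (hC : St_detC) (hD : IsGH D)
    {g : Perm (Fin 40) × Perm (Fin 40)} (hg : g ∈ Sym D) :
    orderOf g ∈ ({1, 2, 3, 4, 5, 6, 8, 10, 20} : Set ℕ) := by
  have hdvd : orderOf g ∣ 2 ^ 10 * 15 := by
    have h1 : orderOf g ∣ Nat.card (Sym D) := by
      have := orderOf_dvd_natCard (⟨g, hg⟩ : Sym D)
      rwa [Subgroup.orderOf_mk] at this
    exact h1.trans (card_Sym_dvd hO hD)
  have n16 : ¬ 16 ∣ orderOf g := fun h => by
    obtain ⟨x, hx, hxo⟩ := exists_pow_order hg h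
    exact no_order_16 hO hC hD hx hxo
  have n12 : ¬ 12 ∣ orderOf g := fun h => by
    obtain ⟨x, hx, hxo⟩ := exists_pow_order hg h
    exact no_order_12 hD hx hxo
  have n15 : ¬ 15 ∣ orderOf g := fun h => by
    obtain ⟨x, hx, hxo⟩ := exists_pow_order hg h
    exact no_order_15 hD hx hxo
  have n40 : ¬ 40 ∣ orderOf g := fun h => by
    obtain ⟨x, hx, hxo⟩ := exists_pow_order hg h
    exact no_order_40 hD hx hxo
  obtain ⟨x, y, hx, hy, hxy⟩ := exists_dvd_and_dvd_of_dvd_mul hdvd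
  obtain ⟨l, -, rfl⟩ := (Nat.dvd_prime_pow Nat.prime_two).1 hx
  have hl : l ≤ 3 := by
    by_contra hcon
    apply n16
    rw [hxy]
    exact (Nat.pow_dvd_pow 2 (by omega : 4 ≤ l)).trans (Dvd.intro _ rfl)
  have hy15 : y ≤ 15 := Nat.le_of_dvd (by norm_num) hy
  have hy0 : 0 < y := Nat.pos_of_dvd_of_pos hy (by norm_num)
  simp only [Set.mem_insert_iff, Set.mem_singleton_iff]
  interval_cases l <;> interval_cases y <;> omega

end

end Pool.Agent.GH5
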