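import Mathlib
import Pool.Agent.Lib_helper98.GH5.Orders3

/-!
# Final form of the results on the symmetry group of a `GH(5,8)`
-/

set_option autoImplicit false

open Finset Equiv

namespace Pool.Agent.GH5

section

variable {D : Fin 40 → Fin 40 → ZMod 5}

/-- Groups acting semiregularly on the columns. -/
theorem semireg_cols (hD : IsGH D) (Q : Subgroup (Perm (Fin 40) × Perm (Fin 40)))
    (hQ : Q ≤ Sym D) (h : ∀ g ∈ Q, g ≠ 1 → fixedCols g = 0) : Nat.card Q ∣ 20 := by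
  set φ : Perm (Fin 40) × Perm (Fin 40) ≃* Perm (Fin 40) × Perm (Fin 40) := MulEquiv.prodComm
  have hφ : ∀ g, φ g = sw g := fun g => rfl
  have hcard : Nat.card (Q.map φ.toMonoidHom) = Nat.card Q :=
    Subgroup.card_map_of_injective φ.injective
  rw [← hcard]
  refine semireg_rows hD.transpose _ ?_ ?_
  · rintro _ ⟨x, hx, rfl⟩
    exact mem_Sym_swap (hQ hx)
  · rintro _ ⟨x, hx, rfl⟩ hne
    change fixedRows (sw x) = 0
    rw [fixedRows_sw]
    refine h x hx ?_
    rintro rfl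
    exact hne rfl

/-- Elements whose order is divisible by 10 act semiregularly. -/
theorem order_ten_semireg (hO : St_o4f8) (hC : St_detC) (hD : IsGH D)
    {g : Perm (Fin 40) × Perm (Fin 40)} (hg : g ∈ Sym D) (h10 : 10 ∣ orderOf g) (n : ℕ)
    (hn : g ^ n ≠ 1) : fixedRows (g ^ n) = 0 ∧ fixedCols (g ^ n) = 0 := by
  have hmem := orders hO hC hD hg
  simp only [Set.mem_insert_iff, Set.mem_singleton_iff] at hmem
  have key : ∃ x ∈ Sym D, orderOf x = 10 ∧ ∃ m, g ^ (n * m) = x ^ 2 ∨ g ^ (n * m) = x ^ 5 := by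
    have hcases : orderOf g = 10 ∨ orderOf g = 20 := by omega
    rcases hcases with ho | ho
    · have hN : g ^ 10 = 1 := orderOf_dvd_iff_pow_eq_one.1 (dvd_of_eq ho)
      have hn0 : n % 10 ≠ 0 := fun h => hn (by rw [pow_eq_pow_mod _ hN, h, pow_zero])
      have hdec : ∀ k ∈ Finset.range 10, k ≠ 0 → ∃ m ∈ Finset.range 10,
          (k * m) % 10 = 2 ∨ (k * m) % 10 = 5 := by decide
      obtain ⟨m, -, hm⟩ := hdec (n % 10) (Finset.mem_range.2 (Nat.mod_lt _ (by norm_num))) hn0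
      have he : (n % 10 * m) % 10 = (n * m) % 10 := by
        rw [Nat.mul_mod, Nat.mod_mod, ← Nat.mul_mod]
      rw [he] at hm
      refine ⟨g, hg, ho, m, ?_⟩
      rw [pow_eq_pow_mod _ hN]
      rcases hm with hm | hm
      · left; rw [hm]
      · right; rw [hm]
    · have hN : g ^ 20 = 1 := orderOf_dvd_iff_pow_eq_one.1 (dvd_of_eq ho)
      have hn0 : n % 20 ≠ 0 := fun h => hn (by rw [pow_eq_pow_mod _ hN, h, pow_zero])
      have hdec : ∀ k ∈ Finset.range 20, k ≠ 0 → ∃ m ∈ Finset.range 20,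
          (k * m) % 20 = 4 ∨ (k * m) % 20 = 10 := by decide
      obtain ⟨m, -, hm⟩ := hdec (n % 20) (Finset.mem_range.2 (Nat.mod_lt _ (by norm_num))) hn0
      have he : (n % 20 * m) % 20 = (n * m) % 20 := by
        rw [Nat.mul_mod, Nat.mod_mod, ← Nat.mul_mod]
      rw [he] at hm
      refine ⟨g ^ 2, Subgroup.pow_mem _ hg 2, by rw [orderOf_pow, ho]; rfl, m, ?_⟩
      rw [pow_eq_pow_mod _ hN, ← pow_mul, ← pow_mul]
      rcases hm with hm | hm
      · left; rw [hm]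
      · right; rw [hm]
  obtain ⟨x, hx, hxo, m, hm⟩ := key
  have h10' := order10 hD hx hxo
  have hr := fixedRows_le_pow (g ^ n) m
  have hc := fixedRows_le_pow (sw (g ^ n)) m
  rw [← sw_pow, fixedRows_sw, fixedRows_sw] at hc
  rw [← pow_mul] at hr hc
  rcases hm with hm | hm <;> rw [hm] at hr hc <;> omega

/-- A 2-group which fixes five rows. -/
theorem five_rows_group (hO : St_o4f8) (hD : IsGH D)
    (Q : Subgroup (Perm (Fin 40) × Perm (Fin 40))) (hQ : Q ≤ Sym D) (n : ℕ)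
    (hcard : Nat.card Q = 2 ^ n) (h5 : 5 ≤ {i | ∀ g ∈ Q, g.1 i = i}.ncard) :
    Nat.card Q ∣ 16 ∧ ∀ g ∈ Q, g ^ 2 = 1 := by
  classical
  set A : Finset (Fin 40) := univ.filter fun i => ∀ g ∈ Q, g.1 i = i with hA
  have hAc : {i | ∀ g ∈ Q, g.1 i = i}.ncard = A.card := by
    rw [← Set.ncard_coe_finset]
    congr 1
    ext i
    simp [hA]
  rw [hAc] at h5
  have hAmem : ∀ i ∈ A, ∀ g ∈ Q, g.1 i = i := fun i hi => (Finset.mem_filter.1 hi).2
  have h16 := card_le_16' hO hD Q hQ hcard A h5 hAmem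
  constructor
  · rw [hcard] at h16 ⊢
    have hn : n ≤ 4 := by
      by_contra hcon
      have : 2 ^ 5 ≤ 2 ^ n := Nat.pow_le_pow_right (by norm_num) (by omega)
      omega
    exact Nat.pow_dvd_pow 2 hn
  · intro g hg
    by_cases hg1 : g = 1
    · rw [hg1, one_pow]
    · have hord : orderOf g ∣ 2 ^ n := by
        have h2 := orderOf_dvd_natCard (⟨g, hg⟩ : Q)
        rwa [hcard, Subgroup.orderOf_mk] at h2
      have h5' : 5 ≤ fixedRows g := by
        refine le_trans h5 (Finset.card_le_card fun i hi => ?_)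
        rw [Finset.mem_filter]
        exact ⟨Finset.mem_univ _, hAmem i hi g hg⟩
      have := (eight_of_five hO hD (hQ hg) hord hg1 h5').1
      exact orderOf_dvd_iff_pow_eq_one.1 (dvd_of_eq this)

/-- The rectangle inequality for groups. -/
theorem rect_group (hD : IsGH D) (Q : Subgroup (Perm (Fin 40) × Perm (Fin 40)))
    (hQ : Q ≤ Sym D) (h5 : (Nat.card Q).Coprime 5) (j : Fin 40) :
    {i | ∀ g ∈ Q, g.1 i = i}.ncard * {k | ∃ g ∈ Q, g.2 j = k}.ncard ≤ 40 := by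
  classical
  set A : Finset (Fin 40) := univ.filter fun i => ∀ g ∈ Q, g.1 i = i with hA
  set B : Finset (Fin 40) := univ.filter fun k => ∃ g ∈ Q, g.2 j = k with hB
  have hAc : {i | ∀ g ∈ Q, g.1 i = i}.ncard = A.card := by
    rw [← Set.ncard_coe_finset]
    congr 1
    ext i
    simp [hA]
  have hBc : {k | ∃ g ∈ Q, g.2 j = k}.ncard = B.card := by
    rw [← Set.ncard_coe_finset]
    congr 1
    ext i
    simp [hB]
  rw [hAc, hBc]
  exact rect_orbit hD Q hQ h5 A B (fun i hi => (Finset.mem_filter.1 hi).2) j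
    (fun k hk => (Finset.mem_filter.1 hk).2)

theorem rect_group' (hD : IsGH D) (Q : Subgroup (Perm (Fin 40) × Perm (Fin 40)))
    (hQ : Q ≤ Sym D) (h5 : (Nat.card Q).Coprime 5) (i : Fin 40) :
    {j | ∀ g ∈ Q, g.2 j = j}.ncard * {k | ∃ g ∈ Q, g.1 i = k}.ncard ≤ 40 := by
  classical
  set A : Finset (Fin 40) := univ.filter fun j => ∀ g ∈ Q, g.2 j = j with hA
  set B : Finset (Fin 40) := univ.filter fun k => ∃ g ∈ Q, g.1 i = k with hB
  have hAc : {j | ∀ g ∈ Q, g.2 j = j}.ncard = A.card := by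
    rw [← Set.ncard_coe_finset]
    congr 1
    ext i
    simp [hA]
  have hBc : {k | ∃ g ∈ Q, g.1 i = k}.ncard = B.card := by
    rw [← Set.ncard_coe_finset]
    congr 1
    ext i
    simp [hB]
  rw [hAc, hBc]
  exact rect_orbit' hD Q hQ h5 A B (fun i hi => (Finset.mem_filter.1 hi).2) i
    (fun k hk => (Finset.mem_filter.1 hk).2)

end

/-- The symmetry group with multipliers. -/
def FullSym (D : Fin 40 → Fin 40 → ZMod 5) :
    Subgroup (Perm (Fin 40) × Perm (Fin 40) × (ZMod 5)ˣ) where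
  carrier := {g | ∃ a b : Fin 40 → ZMod 5, ∀ i j,
    D (g.1 i) (g.2.1 j) = g.2.2 * D i j + a i + b j}
  one_mem' := ⟨0, 0, by simp⟩
  mul_mem' := by
    rintro g h ⟨a, b, hg⟩ ⟨c, d, hh⟩
    refine ⟨fun i => g.2.2 * c i + a (h.1 i), fun j => g.2.2 * d j + b (h.2.1 j),
      fun i j => ?_⟩
    have h1 := hg (h.1 i) (h.2.1 j)
    have h2 := hh i j
    change D (g.1 (h.1 i)) (g.2.1 (h.2.1 j)) = ((g.2.2 * h.2.2 : (ZMod 5)ˣ) : ZMod 5) * D i j + _ + _
    rw [h1, h2, Units.val_mul]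
    ring
  inv_mem' := by
    rintro g ⟨a, b, hg⟩
    refine ⟨fun i => - ((g.2.2⁻¹ : (ZMod 5)ˣ) : ZMod 5) * a (g.1⁻¹ i),
      fun j => - ((g.2.2⁻¹ : (ZMod 5)ˣ) : ZMod 5) * b (g.2.1⁻¹ j), fun i j => ?_⟩
    have h1 := hg (g.1⁻¹ i) (g.2.1⁻¹ j)
    rw [apply_inv, apply_inv] at h1
    change D (g.1⁻¹ i) (g.2.1⁻¹ j) = ((g.2.2⁻¹ : (ZMod 5)ˣ) : ZMod 5) * D i j + _ + _
    have hu : ((g.2.2⁻¹ : (ZMod 5)ˣ) : ZMod 5) * (g.2.2 : ZMod 5) = 1 := by
      rw [← Units.val_mul, inv_mul_cancel, Units.val_one]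
    rw [h1]
    linear_combination (- D (g.1⁻¹ i) (g.2.1⁻¹ j)) * hu

theorem card_FullSym_dvd (hO : St_o4f8) {D : Fin 40 → Fin 40 → ZMod 5} (hD : IsGH D) :
    Nat.card (FullSym D) ∣ 2 ^ 12 * 3 * 5 := by
  classical
  set π : FullSym D →* (ZMod 5)ˣ :=
    ((MonoidHom.snd _ _).comp (MonoidHom.snd _ _)).comp (FullSym D).subtype with hπ
  have h1 : Nat.card (FullSym D) = Nat.card π.ker * Nat.card π.range := by
    rw [Subgroup.card_eq_card_quotient_mul_card_subgroup π.ker, mul_comm]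
    congr 1
    exact Nat.card_congr (QuotientGroup.quotientKerEquivRange π).toEquiv
  have h2 : Nat.card π.range ∣ 4 := by
    have := Subgroup.card_subgroup_dvd_card π.range
    have h4 : Nat.card (ZMod 5)ˣ = 4 := by
      rw [Nat.card_eq_fintype_card, ZMod.card_units_eq_totient]
      rfl
    rwa [h4] at this
  have h3 : Nat.card π.ker = Nat.card (Sym D) := by
    refine Nat.card_congr ⟨fun x => ⟨(x.1.1.1, x.1.1.2.1), ?_⟩,
      fun y => ⟨⟨(y.1.1, y.1.2, 1), ?_⟩, ?_⟩, ?_, ?_⟩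
    · obtain ⟨a, b, h⟩ := x.1.2
      have hx : x.1.1.2.2 = 1 := x.2
      refine ⟨a, b, fun i j => ?_⟩
      have := h i j
      rw [hx, Units.val_one, one_mul] at this
      exact this
    · obtain ⟨a, b, h⟩ := y.2
      exact ⟨a, b, fun i j => by
        rw [Units.val_one, one_mul]
        exact h i j⟩
    · rfl
    · intro x
      apply Subtype.ext
      apply Subtype.ext
      have hx : x.1.1.2.2 = 1 := x.2
      exact Prod.ext rfl (Prod.ext rfl hx.symm)
    · intro y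
      rfl
  rw [h1, h3]
  have h4 := Nat.mul_dvd_mul (card_Sym_dvd hO hD) h2
  exact h4.trans (by norm_num)

end Pool.Agent.GH5
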