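import Mathlib
import Pool.Agent.Lib_helper98.GH5.Final

/-!
# No cocyclic `GH(5,8)`
-/

set_option autoImplicit false

open Finset Equiv

namespace Pool.Agent.GH5

theorem no_cocyclic (Q : Type) [Group Q] (hQ : Nat.card Q = 40) (ψ : Q → Q → ZMod 5)
    (φ : Q → ZMod 5) (hψ : ∀ x y z, ψ x y + ψ (x * y) z = ψ x (y * z) + ψ y z)
    (h : ∀ x x' : Q, x ≠ x' → ∀ c : ZMod 5,
      {y : Q | (ψ x y + φ (x * y)) - (ψ x' y + φ (x' * y)) = c}.ncard = 8) : False := by
  classical
  haveI : Finite Q := Nat.finite_of_card_ne_zero (by rw [hQ]; norm_num)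
  haveI : Fintype Q := Fintype.ofFinite Q
  have hc : Fintype.card Q = 40 := by rw [← Nat.card_eq_fintype_card]; exact hQ
  let e : Q ≃ Fin 40 := Fintype.equivFinOfCardEq hc
  let D : Fin 40 → Fin 40 → ZMod 5 := fun i j =>
    ψ (e.symm i) (e.symm j) + φ (e.symm i * e.symm j)
  have hD : IsGH D := by
    intro i j hij c
    have h1 := h (e.symm i) (e.symm j) (fun h => hij (e.symm.injective h)) c
    rw [Set.ncard_eq_toFinset_card'] at h1
    rw [← h1]
    apply card_bij' (fun k _ => e.symm k) (fun y _ => e y)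
    · intro k hk
      simp only [Set.mem_toFinset, Set.mem_ofPred_eq]
      exact (mem_filter.1 hk).2
    · intro y hy
      simp only [Set.mem_toFinset, Set.mem_ofPred_eq] at hy
      simp only [mem_filter, mem_univ, true_and, D, Equiv.symm_apply_apply]
      exact hy
    · intro k _; simp
    · intro y _; simp
  let F : Q →* Perm (Fin 40) × Perm (Fin 40) :=
    { toFun := fun k => (e.permCongr (Equiv.mulRight k⁻¹), e.permCongr (Equiv.mulLeft k))
      map_one' := by
        refine Prod.ext (Equiv.ext fun i => ?_) (Equiv.ext fun i => ?_)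
        · simp
        · simp
      map_mul' := by
        intro k l
        refine Prod.ext (Equiv.ext fun i => ?_) (Equiv.ext fun i => ?_)
        · simp [mul_assoc]
        · simp [mul_assoc] }
  have hF1 : ∀ (k : Q) (i : Fin 40), (F k).1 i = e (e.symm i * k⁻¹) := fun k i => rfl
  have hF2 : ∀ (k : Q) (i : Fin 40), (F k).2 i = e (k * e.symm i) := fun k i => rfl
  have hinj : Function.Injective F := by
    intro k l hkl
    have h1 := hF2 k (e 1)
    have h2 := hF2 l (e 1)
    rw [hkl, h2] at h1
    simpa using e.injective h1.symm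
  have hle : F.range ≤ Sym D := by
    rintro _ ⟨k, rfl⟩
    refine ⟨fun i => ψ (e.symm i * k⁻¹) k, fun j => - ψ k (e.symm j), fun i j => ?_⟩
    rw [hF1, hF2]
    have h1 := hψ (e.symm i * k⁻¹) k (e.symm j)
    simp only [D, Equiv.symm_apply_apply]
    rw [show e.symm i * k⁻¹ * k = e.symm i by group] at h1
    rw [show e.symm i * k⁻¹ * (k * e.symm j) = e.symm i * e.symm j by group]
    linear_combination -h1
  have hfree : ∀ g ∈ F.range, g ≠ 1 → fixedRows g = 0 := by
    rintro _ ⟨k, rfl⟩ hne
    rw [fixedRows, card_eq_zero, filter_eq_empty_iff]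
    intro i _ hi
    rw [hF1] at hi
    have h1 : e.symm i * k⁻¹ = e.symm i := by
      apply e.injective
      rw [hi, Equiv.apply_symm_apply]
    have h2 : k = 1 := by simpa using h1
    exact hne (by rw [h2, map_one])
  have h1 := semireg_rows hD F.range hle hfree
  have h2 : Nat.card F.range = 40 :=
    ((Nat.card_congr (MonoidHom.ofInjective hinj).toEquiv).symm).trans hQ
  rw [h2] at h1
  norm_num at h1

end Pool.Agent.GH5
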