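import Mathlib
import Pool.Agent.Lib_helper98.GH5.StMore
import Pool.Agent.Lib_helper98.GH5.Det

/-!
# Cyclic 2-groups of symmetries have an even number of orbits
-/

set_option autoImplicit false

open Finset Equiv

namespace Pool.Agent.GH5

namespace DetC

/-- The number of `n < 2 ^ k` divisible by `d`. -/
def W (k d : ℕ) : ℕ := ((range (2 ^ k)).filter fun n => d ∣ n).card

theorem fix_iff (σ : Perm (Fin 40)) (n : ℕ) (i : Fin 40) :
    (σ ^ n) i = i ↔ Function.minimalPeriod σ i ∣ n := by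
  rw [← Function.isPeriodicPt_iff_minimalPeriod_dvd, Function.IsPeriodicPt, Function.IsFixedPt,
    Equiv.Perm.iterate_eq_pow]

instance (k : ℕ) : NeZero (2 ^ k) := ⟨by positivity⟩

theorem w_eq (k : ℕ) (σ : Perm (Fin 40)) (h : σ ^ 2 ^ k = 1) (i : Det.Cyc (2 ^ k) σ h) :
    Orb.w (Multiplicative (ZMod (2 ^ k))) i = W k (Function.minimalPeriod σ i.v) := by
  unfold Orb.w W
  refine Finset.card_bij (fun g _ => (Multiplicative.toAdd g).val) ?_ ?_ ?_
  · intro g hg
    rw [Finset.mem_filter] at hg ⊢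
    refine ⟨Finset.mem_range.2 (ZMod.val_lt _), ?_⟩
    rw [← fix_iff]
    exact congrArg Det.Cyc.v hg.2
  · intro g _ g' _ hgg
    exact Multiplicative.toAdd.injective (ZMod.val_injective _ hgg)
  · intro n hn
    rw [Finset.mem_filter, Finset.mem_range, ← fix_iff] at hn
    refine ⟨Multiplicative.ofAdd (n : ZMod (2 ^ k)), ?_, ?_⟩
    · rw [Finset.mem_filter]
      refine ⟨Finset.mem_univ _, ?_⟩
      apply Det.Cyc.ext
      rw [Det.cyc_smul, toAdd_ofAdd, ZMod.val_cast_of_lt hn.1]
      exact hn.2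
    · rw [toAdd_ofAdd, ZMod.val_cast_of_lt hn.1]

theorem period_dvd {k : ℕ} {σ : Perm (Fin 40)} (h : σ ^ 2 ^ k = 1) (i : Fin 40) :
    Function.minimalPeriod σ i ∣ 2 ^ k := by
  rw [← fix_iff, h]
  rfl

theorem sum_period {k : ℕ} {σ : Perm (Fin 40)} (h : σ ^ 2 ^ k = 1) (F : ℕ → ℕ) :
    ∑ i, F (Function.minimalPeriod σ i) = ∑ t ∈ range (k + 1),
      (univ.filter fun i => Function.minimalPeriod σ i = 2 ^ t).card * F (2 ^ t) := by
  have h1 : ∀ i ∈ (univ : Finset (Fin 40)), Function.minimalPeriod σ i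
      ∈ (range (k + 1)).image (fun t => 2 ^ t) := by
    intro i _
    obtain ⟨t, ht, h2⟩ := (Nat.dvd_prime_pow Nat.prime_two).1 (period_dvd h i)
    rw [Finset.mem_image]
    exact ⟨t, Finset.mem_range.2 (by omega), h2.symm⟩
  rw [← Finset.sum_fiberwise_of_maps_to h1, Finset.sum_image fun a _ b _ hab =>
    Nat.pow_right_injective le_rfl hab]
  refine Finset.sum_congr rfl fun t _ => ?_
  rw [Finset.sum_congr rfl fun i hi => by rw [(Finset.mem_filter.1 hi).2], Finset.sum_const,
    smul_eq_mul]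

theorem count_zero (σ : Perm (Fin 40)) :
    (univ.filter fun i => Function.minimalPeriod σ i = 2 ^ 0).card
      = (univ.filter fun i => (σ ^ 2 ^ 0) i = i).card := by
  congr 1
  refine Finset.filter_congr fun i _ => ?_
  rw [fix_iff, pow_zero, Nat.dvd_one]

theorem count_succ (σ : Perm (Fin 40)) (t : ℕ) :
    (univ.filter fun i => Function.minimalPeriod σ i = 2 ^ (t + 1)).card
      + (univ.filter fun i => (σ ^ 2 ^ t) i = i).card
      = (univ.filter fun i => (σ ^ 2 ^ (t + 1)) i = i).card := by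
  rw [← Finset.card_union_of_disjoint]
  · congr 1
    ext i
    simp only [Finset.mem_union, Finset.mem_filter, Finset.mem_univ, true_and]
    rw [fix_iff, fix_iff]
    constructor
    · rintro (h | h)
      · rw [h]
      · exact h.trans (pow_dvd_pow 2 (Nat.le_succ t))
    · intro h
      obtain ⟨s, hs, h2⟩ := (Nat.dvd_prime_pow Nat.prime_two).1 h
      rcases Nat.lt_or_ge t s with h3 | h3
      · left
        rw [h2, show s = t + 1 by omega]
      · right
        rw [h2]
        exact pow_dvd_pow 2 h3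
  · rw [Finset.disjoint_filter]
    intro i _ h1 h2
    rw [fix_iff, h1] at h2
    have := Nat.le_of_dvd (by positivity) h2
    have h3 : 2 ^ t < 2 ^ (t + 1) := Nat.pow_lt_pow_right (by norm_num) (Nat.lt_succ_self t)
    omega

theorem sum_eq {k : ℕ} {σ τ : Perm (Fin 40)} (hσ : σ ^ 2 ^ k = 1) (hτ : τ ^ 2 ^ k = 1)
    (hfix : ∀ n : ℕ, (univ.filter fun i => (σ ^ n) i = i).card
      = (univ.filter fun j => (τ ^ n) j = j).card) (F : ℕ → ℕ) :
    ∑ i, F (Function.minimalPeriod σ i) = ∑ j, F (Function.minimalPeriod τ j) := by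
  rw [sum_period hσ, sum_period hτ]
  refine Finset.sum_congr rfl fun t _ => ?_
  congr 1
  cases t with
  | zero => rw [count_zero, count_zero, hfix]
  | succ t =>
    have h1 := count_succ σ t
    have h2 := count_succ τ t
    rw [hfix, hfix] at h1
    omega

end DetC

theorem detC : St_detC := by
  intro E hE k σ τ hσ hτ hinv
  classical
  have hfix : ∀ n : ℕ, (univ.filter fun i => (σ ^ n) i = i).card
      = (univ.filter fun j => (τ ^ n) j = j).card := fun n =>
    card_fixed_eq hE (fun i j => Det.inv_pow hinv n i j)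
  let : Fintype (MulAction.orbitRel.Quotient (Multiplicative (ZMod (2 ^ k)))
      (Det.Cyc (2 ^ k) σ hσ)) := Fintype.ofFinite _
  let : Fintype (MulAction.orbitRel.Quotient (Multiplicative (ZMod (2 ^ k)))
      (Det.Cyc (2 ^ k) τ hτ)) := Fintype.ofFinite _
  have hcG : Fintype.card (Multiplicative (ZMod (2 ^ k))) = 2 ^ k := by
    rw [Fintype.card_multiplicative, ZMod.card]
  have hR := Det.burnside (G := Multiplicative (ZMod (2 ^ k))) (X := Det.Cyc (2 ^ k) σ hσ)
  have hC := Det.burnside (G := Multiplicative (ZMod (2 ^ k))) (X := Det.Cyc (2 ^ k) τ hτ)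
  rw [Finset.sum_congr rfl fun i _ => DetC.w_eq k σ hσ i,
    Det.cyc_sum (2 ^ k) σ hσ (fun i => DetC.W k (Function.minimalPeriod σ i)), hcG] at hR
  rw [Finset.sum_congr rfl fun i _ => DetC.w_eq k τ hτ i,
    Det.cyc_sum (2 ^ k) τ hτ (fun i => DetC.W k (Function.minimalPeriod τ i)), hcG,
    ← DetC.sum_eq hσ hτ hfix] at hC
  have hcard : Fintype.card (MulAction.orbitRel.Quotient (Multiplicative (ZMod (2 ^ k)))
      (Det.Cyc (2 ^ k) σ hσ)) = Fintype.card (MulAction.orbitRel.Quotient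
      (Multiplicative (ZMod (2 ^ k))) (Det.Cyc (2 ^ k) τ hτ)) := by
    rw [hR] at hC
    exact Nat.eq_of_mul_eq_mul_right (by positivity) hC
  obtain ⟨δ, hδ, hδ'⟩ := Orb.main (G := Multiplicative (ZMod (2 ^ k)))
    (R := Det.Cyc (2 ^ k) σ hσ)
    (C := Det.Cyc (2 ^ k) τ hτ) 1 (fun g => by simp) (fun i j => e (E i.v j.v))
    (fun g i j => by rw [Det.cyc_smul, Det.cyc_smul, Det.inv_pow hinv])
    40 (fun i i' => by
      rw [Det.cyc_sum (2 ^ k) τ hτ (fun j => e (E i.v j) * (starRingEnd ℂ) (e (E i'.v j))),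
        Det.orth hE]
      by_cases h : i = i'
      · rw [if_pos h, if_pos (congrArg Det.Cyc.v h)]
      · rw [if_neg h, if_neg fun h' => h (Det.Cyc.ext h')])
    (Algebra.adjoin ℤ {e 1}) (fun i j => Det.e_mem _)
    (fun g => Subalgebra.one_mem _) univ univ (fun a _ s _ => rfl)
    (fun b hb => absurd (Finset.mem_univ b) hb) (by rw [Finset.card_univ, Finset.card_univ, hcard])
  have hne : 40 ^ (univ : Finset (MulAction.orbitRel.Quotient (Multiplicative (ZMod (2 ^ k)))
      (Det.Cyc (2 ^ k) σ hσ))).card * (∏ a : MulAction.orbitRel.Quotient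
      (Multiplicative (ZMod (2 ^ k)))
      (Det.Cyc (2 ^ k) σ hσ), Orb.w (Multiplicative (ZMod (2 ^ k))) a.out)
      * ∏ b : MulAction.orbitRel.Quotient (Multiplicative (ZMod (2 ^ k)))
      (Det.Cyc (2 ^ k) τ hτ), Orb.w (Multiplicative (ZMod (2 ^ k))) b.out ≠ 0 := by
    refine mul_ne_zero (mul_ne_zero (by positivity) ?_) ?_
    · exact Finset.prod_ne_zero_iff.2 fun a _ => Det.w_pos _
    · exact Finset.prod_ne_zero_iff.2 fun a _ => Det.w_pos _
  have hev := par 5 2 (by norm_num) (by norm_num) (e 1) e_one_primitive.pow_eq_one δ hδ _ hne hδ'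
  rw [padicValNat.mul (by
      refine mul_ne_zero (by positivity) ?_
      exact Finset.prod_ne_zero_iff.2 fun a _ => Det.w_pos _)
      (Finset.prod_ne_zero_iff.2 fun a _ => Det.w_pos _),
    padicValNat.mul (by positivity) (Finset.prod_ne_zero_iff.2 fun a _ => Det.w_pos _),
    Det.padic_forty, Det.padic_prod _ _ fun a _ => Det.w_pos _,
    Det.padic_prod _ _ fun a _ => Det.w_pos _] at hev
  have hlen : ∀ (ρ : Perm (Fin 40)) (hρ : ρ ^ 2 ^ k = 1)
      [Fintype (MulAction.orbitRel.Quotient (Multiplicative (ZMod (2 ^ k)))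
        (Det.Cyc (2 ^ k) ρ hρ))],
      2 ^ k * ∑ a : MulAction.orbitRel.Quotient (Multiplicative (ZMod (2 ^ k)))
        (Det.Cyc (2 ^ k) ρ hρ),
        padicValNat 2 (Orb.w (Multiplicative (ZMod (2 ^ k))) a.out)
      = ∑ i, (fun d => DetC.W k d * padicValNat 2 (DetC.W k d))
          (Function.minimalPeriod ρ i) := by
    intro ρ hρ _
    rw [← Det.cyc_sum (2 ^ k) ρ hρ (fun i => (fun d => DetC.W k d * padicValNat 2 (DetC.W k d))
          (Function.minimalPeriod ρ i)), Finset.mul_sum]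
    rw [Finset.sum_congr rfl fun (i : Det.Cyc (2 ^ k) ρ hρ) _ => show
      (fun d => DetC.W k d * padicValNat 2 (DetC.W k d)) (Function.minimalPeriod ρ i.v)
        = Orb.w (Multiplicative (ZMod (2 ^ k))) i
          * padicValNat 2 (Orb.w (Multiplicative (ZMod (2 ^ k))) i) by
        rw [DetC.w_eq]]
    rw [Orb.sum_orbits (G := Multiplicative (ZMod (2 ^ k)))
      (fun i : Det.Cyc (2 ^ k) ρ hρ => Orb.w (Multiplicative (ZMod (2 ^ k))) i
        * padicValNat 2 (Orb.w (Multiplicative (ZMod (2 ^ k))) i))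
      (fun g i => by simp only [Det.w_smul])]
    refine Finset.sum_congr rfl fun a _ => ?_
    rw [Nat.cast_id, ← mul_assoc, Orb.len_mul_w, hcG]
  have h1 := hlen σ hσ
  have h2 := hlen τ hτ
  have hF := DetC.sum_eq hσ hτ hfix (fun d => DetC.W k d * padicValNat 2 (DetC.W k d))
  have h3 := Nat.eq_of_mul_eq_mul_left (show 0 < 2 ^ k by positivity)
    (h1.trans (hF.trans h2.symm))
  rw [h3, Finset.card_univ] at hev
  have h4 : Even (Fintype.card (MulAction.orbitRel.Quotient (Multiplicative (ZMod (2 ^ k)))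
      (Det.Cyc (2 ^ k) σ hσ))) := by
    obtain ⟨c, hc⟩ := hev
    rw [Nat.even_iff]
    omega
  have h5 : ∑ n ∈ range (2 ^ k), (univ.filter fun i => (σ ^ n) i = i).card
      = ∑ i, DetC.W k (Function.minimalPeriod σ i) := by
    simp only [DetC.W, Finset.card_filter]
    rw [Finset.sum_comm]
    refine Finset.sum_congr rfl fun i _ => Finset.sum_congr rfl fun n _ => ?_
    simp only [DetC.fix_iff]
  rw [h5, hR, pow_succ']
  obtain ⟨c, hc⟩ := h4
  rw [hc, ← two_mul]
  exact ⟨c, by ring⟩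

end Pool.Agent.GH5
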