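import Mathlib
import Pool.Agent.Lib_helper98.GH5.Group
import Pool.Agent.Lib_helper98.GH5.Alg
import Pool.Agent.Lib_helper98.GH5.StMore

/-!
# Normalisation of a symmetry of order 5 without fixed rows and columns (`St_norm5`)
-/

set_option autoImplicit false

open Finset Equiv

namespace Pool.Agent.GH5

theorem zfix {σ : Perm (Fin 40)} (h5 : σ ^ 5 = 1) {m : ℤ} (hm : ¬ (5 : ℤ) ∣ m) {r : Fin 40}
    (h : (σ ^ m) r = r) : σ r = r := by
  have hp : Prime (5 : ℤ) := by norm_num
  have hc : IsCoprime m 5 := ((Prime.coprime_iff_not_dvd hp).2 hm).symm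
  obtain ⟨a, b, hab⟩ := hc
  have h1 : σ ^ (a * m + b * 5) = (σ ^ m) ^ a := by
    rw [zpow_add, mul_comm a m, zpow_mul, mul_comm b 5, zpow_mul]
    have h5' : σ ^ (5 : ℤ) = 1 := by exact_mod_cast h5
    rw [h5', one_zpow, mul_one]
  have h2 : σ = (σ ^ m) ^ a := by rw [← h1, hab, zpow_one]
  have h3 : ((σ ^ m) ^ a) r = r := Equiv.Perm.zpow_apply_eq_self_of_apply_eq_self h a
  rw [← h2] at h3
  exact h3

/-- Positions on the cycles. -/
theorem exists_pos {σ : Perm (Fin 40)} (h5 : σ ^ 5 = 1) (hf : ∀ i, σ i ≠ i) :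
    ∃ p : Fin 40 → ZMod 5, ∀ i, p (σ i) = p i + 1 := by
  classical
  let s : Setoid (Fin 40) := Perm.SameCycle.setoid σ
  let r : Fin 40 → Fin 40 := fun i => (Quotient.mk s i).out
  have hr : ∀ i, σ.SameCycle (r i) i := fun i => Quotient.exact (Quotient.out_eq (Quotient.mk s i))
  have hr' : ∀ i, r (σ i) = r i := by
    intro i
    have h1 : (Quotient.mk s (σ i)) = Quotient.mk s i :=
      Quotient.sound (show σ.SameCycle (σ i) i from ⟨-1, by simp⟩)
    simp only [r, h1]
  choose n hn using hr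
  refine ⟨fun i => (n i : ZMod 5), fun i => ?_⟩
  by_contra hne
  have hm : ¬ (5 : ℤ) ∣ n (σ i) - (1 + n i) := by
    intro hd
    apply hne
    have h1 : ((n (σ i) - (1 + n i) : ℤ) : ZMod 5) = 0 := (ZMod.intCast_zmod_eq_zero_iff_dvd _ 5).2
      (by exact_mod_cast hd)
    push_cast at h1
    have h2 := sub_eq_zero.1 h1
    simp only [h2]
    ring
  have h1 : (σ ^ (n (σ i))) (r i) = σ i := by
    have := hn (σ i)
    rwa [hr'] at this
  have h2 : (σ ^ (1 + n i)) (r i) = σ i := by
    rw [zpow_add, Perm.mul_apply, hn i, zpow_one]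
  have h3 : (σ ^ (n (σ i) - (1 + n i))) (r i) = r i := by
    rw [sub_eq_neg_add, zpow_add, Perm.mul_apply, h1, ← h2, ← Perm.mul_apply, ← zpow_add]
    simp
  exact hf _ (zfix h5 hm h3)

theorem pos_pow {σ : Perm (Fin 40)} {p : Fin 40 → ZMod 5} (hp : ∀ i, p (σ i) = p i + 1)
    (k : ℕ) (i : Fin 40) : p ((σ ^ k) i) = p i + k := by
  induction k with
  | zero => simp
  | succ k ih => rw [pow_succ', Perm.mul_apply, hp, ih]; push_cast; ring

theorem card_pos {σ : Perm (Fin 40)} {p : Fin 40 → ZMod 5} (hp : ∀ i, p (σ i) = p i + 1) :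
    (univ.filter fun i => p i = 0).card = 8 := by
  have hs : ∀ k : ℕ, (univ.filter fun i => p i = (k : ZMod 5)).card =
      (univ.filter fun i => p i = 0).card := by
    intro k
    symm
    apply card_bij' (fun i _ => (σ ^ k) i) (fun i _ => (σ ^ k)⁻¹ i)
    · intro i hi
      simp only [mem_filter, mem_univ, true_and] at hi ⊢
      rw [pos_pow hp, hi, zero_add]
    · intro i hi
      simp only [mem_filter, mem_univ, true_and] at hi ⊢
      have h1 := pos_pow hp k ((σ ^ k)⁻¹ i)
      rw [apply_inv, hi] at h1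
      have h2 : p ((σ ^ k)⁻¹ i) + k = 0 + (k : ZMod 5) := by rw [← h1, zero_add]
      exact add_right_cancel h2
    · intro i _; simp
    · intro i _; simp
  have hsum : ∑ x : ZMod 5, (univ.filter fun i => p i = x).card = 40 := by
    have := card_eq_sum_card_fiberwise (s := (univ : Finset (Fin 40))) (t := univ) (f := p)
      (fun _ _ => by simp)
    simp only [card_univ, Fintype.card_fin] at this
    exact this.symm
  have hall : ∀ x : ZMod 5, (univ.filter fun i => p i = x).card =
      (univ.filter fun i => p i = 0).card := by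
    intro x
    have := hs x.val
    rwa [ZMod.natCast_zmod_val] at this
  simp only [hall, sum_const, card_univ, ZMod.card, smul_eq_mul] at hsum
  omega

/-- The sum of a function over the points is the sum of its cycle sums over the points in
position 0. -/
theorem sum_pos {σ : Perm (Fin 40)} {p : Fin 40 → ZMod 5} (hp : ∀ i, p (σ i) = p i + 1)
    (b : Fin 40 → ZMod 5) :
    ∑ j, b j = ∑ j ∈ univ.filter (fun i => p i = 0), ∑ k ∈ range 5, b ((σ ^ k) j) := by
  rw [sum_comm]
  have hs : ∀ k : ℕ, ∑ j ∈ univ.filter (fun i => p i = 0), b ((σ ^ k) j) =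
      ∑ j ∈ univ.filter (fun i => p i = (k : ZMod 5)), b j := by
    intro k
    apply sum_bij' (fun i _ => (σ ^ k) i) (fun i _ => (σ ^ k)⁻¹ i)
    · intro i hi
      simp only [mem_filter, mem_univ, true_and] at hi ⊢
      rw [pos_pow hp, hi, zero_add]
    · intro i hi
      simp only [mem_filter, mem_univ, true_and] at hi ⊢
      have h1 := pos_pow hp k ((σ ^ k)⁻¹ i)
      rw [apply_inv, hi] at h1
      have h2 : p ((σ ^ k)⁻¹ i) + k = 0 + (k : ZMod 5) := by rw [← h1, zero_add]
      exact add_right_cancel h2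
    · intro i _; simp
    · intro i _; simp
    · intro i _; rfl
  simp only [hs, sum_filter]
  rw [sum_comm]
  refine sum_congr rfl fun j _ => ?_
  have h1 : ∀ x : ZMod 5, ∑ k ∈ range 5, (if x = (k : ZMod 5) then b j else 0) = b j := by
    intro x
    rw [← sum_filter, sum_const]
    have : ((range 5).filter fun k : ℕ => x = (k : ZMod 5)).card = 1 := by
      revert x; decide
    rw [this, one_smul]
  exact (h1 (p j)).symm

/-- Running sums along the cycles. -/
theorem exists_potential {σ : Perm (Fin 40)} {p : Fin 40 → ZMod 5}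
    (hp : ∀ i, p (σ i) = p i + 1) (a : Fin 40 → ZMod 5)
    (ha : ∀ i, ∑ k ∈ range 5, a ((σ ^ k) i) = 0) :
    ∃ u : Fin 40 → ZMod 5, ∀ i, u (σ i) = u i - a i := by
  let r : Fin 40 → Fin 40 := fun i => (σ ^ (p i).val)⁻¹ i
  refine ⟨fun i => - ∑ m ∈ range (p i).val, a ((σ ^ m) (r i)), fun i => ?_⟩
  have hri : (σ ^ (p i).val) (r i) = i := apply_inv _ _
  have hv : (p i).val < 5 := ZMod.val_lt _
  by_cases h4 : (p i).val = 4
  · have h0 : (p (σ i)).val = 0 := by
      rw [hp]
      have : p i = 4 := by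
        have := ZMod.natCast_zmod_val (p i)
        rw [h4] at this
        exact_mod_cast this.symm
      rw [this]; decide
    have h1 := ha (r i)
    rw [sum_range_succ] at h1
    have h2 : a ((σ ^ 4) (r i)) = a i := by rw [← h4, hri]
    rw [h2] at h1
    simp only [h0, h4, range_zero, sum_empty, neg_zero]
    rw [eq_comm, sub_eq_zero, neg_eq_iff_add_eq_zero]
    exact h1
  · have h0 : (p (σ i)).val = (p i).val + 1 := by
      rw [hp]
      have h3 : ∀ x : ZMod 5, x.val ≠ 4 → (x + 1).val = x.val + 1 := by decide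
      exact h3 _ h4
    have hr : r (σ i) = r i := by
      show (σ ^ (p (σ i)).val)⁻¹ (σ i) = _
      rw [h0, Perm.inv_eq_iff_eq, pow_succ', Perm.mul_apply, hri]
    simp only [h0, hr, sum_range_succ, hri]
    ring

theorem rowsum_diff {D : Fin 40 → Fin 40 → ZMod 5} (hD : IsGH D) {i i' : Fin 40} (h : i ≠ i') :
    ∑ j, D i j = ∑ j, D i' j := by
  have h1 : ∑ j, (D i j - D i' j) = 0 := by
    rw [← Finset.sum_fiberwise (s := univ) (g := fun j => D i j - D i' j)]
    have h2 : ∀ x : ZMod 5, ∑ j ∈ univ.filter (fun j => D i j - D i' j = x), (D i j - D i' j) =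
        8 * x := by
      intro x
      rw [Finset.sum_congr rfl (g := fun _ => x), Finset.sum_const, hD i i' h x, nsmul_eq_mul]
      · norm_num
      · intro j hj
        exact (Finset.mem_filter.1 hj).2
    rw [sum_congr rfl fun x _ => h2 x, ← mul_sum, sum_id5, mul_zero]
  rw [sum_sub_distrib] at h1
  exact sub_eq_zero.1 h1

theorem norm5 : St_norm5 := by
  intro D hD σ τ a b hσ hτ fσ fτ h
  have hk : ∀ (k : ℕ) (i j : Fin 40), D ((σ ^ k) i) ((τ ^ k) j) =
      D i j + ∑ m ∈ range k, a ((σ ^ m) i) + ∑ m ∈ range k, b ((τ ^ m) j) := by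
    intro k i j
    induction k with
    | zero => simp
    | succ k ih =>
      rw [pow_succ', pow_succ', Perm.mul_apply, Perm.mul_apply, h, ih, sum_range_succ,
        sum_range_succ]
      ring
  have hAB : ∀ i j, ∑ m ∈ range 5, a ((σ ^ m) i) + ∑ m ∈ range 5, b ((τ ^ m) j) = 0 := by
    intro i j
    have h1 := hk 5 i j
    rw [hσ, hτ, Perm.one_apply, Perm.one_apply, add_assoc] at h1
    exact (add_eq_left.1 h1.symm)
  obtain ⟨p, hp⟩ := exists_pos hσ fσ
  obtain ⟨q, hq⟩ := exists_pos hτ fτ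
  have hb0 : ∑ j, b j = 0 := by
    have h1 : ∑ j, D (σ 0) (τ j) = ∑ j, D (σ 0) j := Equiv.sum_comp τ (fun j => D (σ 0) j)
    have h2 : ∑ j, D (σ 0) (τ j) = ∑ j, D 0 j + ∑ _j : Fin 40, a 0 + ∑ j, b j := by
      rw [← sum_add_distrib, ← sum_add_distrib]
      exact sum_congr rfl fun j _ => h 0 j
    have h3 : ∑ _j : Fin 40, a 0 = 0 := by
      rw [sum_const, card_univ, Fintype.card_fin]
      revert h
      generalize a 0 = x
      intro _
      revert x; decide
    rw [h1, rowsum_diff hD (fσ 0), h3, add_zero] at h2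
    exact (add_eq_left.1 h2.symm)
  have hc : ∀ j, ∑ m ∈ range 5, b ((τ ^ m) j) = 0 := by
    intro j0
    have h1 : ∀ j, ∑ m ∈ range 5, b ((τ ^ m) j) = ∑ m ∈ range 5, b ((τ ^ m) j0) := by
      intro j
      exact add_left_cancel ((hAB 0 j).trans (hAB 0 j0).symm)
    have h2 := sum_pos hq b
    rw [hb0, sum_congr rfl (fun j _ => h1 j), sum_const, card_pos hq] at h2
    revert h2
    generalize ∑ m ∈ range 5, b ((τ ^ m) j0) = x
    revert x; decide
  have ha : ∀ i, ∑ m ∈ range 5, a ((σ ^ m) i) = 0 := by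
    intro i
    have := hAB i 0
    rwa [hc 0, add_zero] at this
  obtain ⟨u, hu⟩ := exists_potential hp a ha
  obtain ⟨v, hv⟩ := exists_potential hq b hc
  refine ⟨u, v, fun i j => ?_⟩
  rw [h, hu, hv]
  ring

end Pool.Agent.GH5
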