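import Mathlib
import Pool.Agent.Lib_helper98.GH5.StMore
import Pool.Agent.Lib_helper98.GH5.DetC
import Pool.Agent.Lib_helper98.GH5.Burnside

/-!
# A symmetry of order 4 does not fix 8 rows
-/

set_option autoImplicit false

open Finset Equiv

namespace Pool.Agent.GH5

namespace O4F8

/-- Multiplicities of an invariant function on the cycles of length 4. -/
theorem mult4 {τ : Perm (Fin 40)} (h4 : τ ^ 4 = 1) (hfix : ∀ j, (τ ^ 2) j = j → τ j = j)
    (f : Fin 40 → ZMod 5) (hf : ∀ j, f (τ j) = f j) (x : ZMod 5) :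
    4 ∣ (univ.filter fun j => τ j ≠ j ∧ f j = x).card := by
  classical
  by_cases hex : ∃ j, τ j ≠ j
  · obtain ⟨j1, hj1⟩ := hex
    have h22 : τ ^ 2 ^ 2 = 1 := h4
    have hord : orderOf τ = 4 := by
      obtain ⟨s, hs, h2⟩ := (Nat.dvd_prime_pow Nat.prime_two).1 (orderOf_dvd_of_pow_eq_one h22)
      have hs2 : s = 2 := by
        by_contra hne
        have h3 : τ ^ 2 = 1 := by
          rw [← orderOf_dvd_iff_pow_eq_one, h2]
          exact (pow_dvd_pow 2 (show s ≤ 1 by omega)).trans (by norm_num)
        exact hj1 (hfix j1 (by rw [h3]; rfl))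
      rw [h2, hs2]
      norm_num
    have hcard : Nat.card (Subgroup.zpowers τ) = 4 := by rw [Nat.card_zpowers, hord]
    rw [← hcard]
    have hn : ∀ n : ℕ, ∀ j, (τ j ≠ j ∧ f j = x) → (τ ((τ ^ n) j) ≠ (τ ^ n) j
        ∧ f ((τ ^ n) j) = x) := by
      intro n
      induction n with
      | zero => intro j hj; exact hj
      | succ n ih =>
        intro j hj
        rw [pow_succ', Perm.mul_apply]
        refine ⟨fun h => (ih j hj).1 (τ.injective h), ?_⟩
        rw [hf]
        exact (ih j hj).2
    refine card_dvd_free (Subgroup.subtype (Subgroup.zpowers τ)) _ ?_ ?_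
    · rintro ⟨g, hg⟩ j hj
      rw [Finset.mem_filter] at hj ⊢
      obtain ⟨n, rfl⟩ := mem_powers_iff_mem_zpowers.2 hg
      exact ⟨Finset.mem_univ _, hn n j hj.2⟩
    · rintro ⟨g, hg⟩ j hj hgj
      rw [Finset.mem_filter] at hj
      obtain ⟨n, hn'⟩ := mem_powers_iff_mem_zpowers.2 hg
      simp only at hn'
      subst hn'
      apply Subtype.ext
      change τ ^ n = 1
      have h1 : (τ ^ n) j = j := hgj
      rw [DetC.fix_iff] at h1
      have h2 : Function.minimalPeriod τ j ∣ 2 ^ 2 := DetC.period_dvd h22 j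
      obtain ⟨s, hs, h3⟩ := (Nat.dvd_prime_pow Nat.prime_two).1 h2
      have hs2 : s = 2 := by
        by_contra hne
        refine hj.2.1 (hfix j ?_)
        rw [DetC.fix_iff, h3]
        exact (pow_dvd_pow 2 (show s ≤ 1 by omega)).trans (by norm_num)
      rw [h3, hs2] at h1
      rw [← orderOf_dvd_iff_pow_eq_one, hord]
      exact h1
  · push Not at hex
    rw [Finset.filter_false_of_mem]
    · simp
    · intro j _ h
      exact h.1 (hex j)

/-- Multiplicities on the fixed points of a function with multiplicities 8. -/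
theorem mult_fix {τ : Perm (Fin 40)} (h4 : τ ^ 4 = 1) (hfix : ∀ j, (τ ^ 2) j = j → τ j = j)
    (f : Fin 40 → ZMod 5) (hf : ∀ j, f (τ j) = f j) (x : ZMod 5)
    (h8 : (univ.filter fun j => f j = x).card = 8) :
    4 ∣ ((univ.filter fun j => τ j = j).filter fun j => f j = x).card := by
  have h1 := mult4 h4 hfix f hf x
  have h2 : (univ.filter fun j => f j = x).card
      = ((univ.filter fun j => τ j = j).filter fun j => f j = x).card
        + (univ.filter fun j => τ j ≠ j ∧ f j = x).card := by
    rw [← Finset.card_union_of_disjoint]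
    · congr 1
      ext j
      simp only [Finset.mem_union, Finset.mem_filter, Finset.mem_univ, true_and]
      tauto
    · rw [Finset.filter_filter, Finset.disjoint_filter]
      intro j _ h1 h2
      exact h2.1 h1.1
  omega

/-- Constant modulo 4. -/
theorem arith (n m : ZMod 5 → ℕ) (a b : ZMod 5) (hab : a ≠ b) (hn : ∑ x, n x = 4)
    (h1 : ∀ x, 4 ∣ n x + m x) (h2 : ∀ y, 4 ∣ n (y + a) + m (y + b)) :
    (∃ x, n x = 4) ∧ ∀ x, 4 ∣ m x := by
  have h3 : ∀ x, n (x + (a - b)) % 4 = n x % 4 := by
    intro x
    have h4 := h2 (x - b)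
    have h5 := h1 (x - b + b)
    have h6 : x - b + a = x + (a - b) := by ring
    have h7 : x - b + b = x := by ring
    rw [h6] at h4
    rw [h7] at h4 h5
    omega
  have h4 : ∀ (k : ℕ) (x : ZMod 5), n (x + k * (a - b)) % 4 = n x % 4 := by
    intro k
    induction k with
    | zero => intro x; simp
    | succ k ih =>
      intro x
      have h5 := h3 (x + k * (a - b))
      have h6 : x + k * (a - b) + (a - b) = x + ((k + 1 : ℕ) : ZMod 5) * (a - b) := by
        push_cast
        ring
      rw [h6] at h5
      rw [h5, ih]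
  have h5 : ∀ x, n x % 4 = n 0 % 4 := by
    intro x
    have hne : a - b ≠ 0 := sub_ne_zero.2 hab
    have h6 := h4 (x * (a - b)⁻¹).val 0
    rw [ZMod.natCast_val, ZMod.cast_id, mul_assoc, inv_mul_cancel₀ hne, mul_one, zero_add] at h6
    exact h6
  have h6 : ∑ x : ZMod 5, n x = n 0 + n 1 + n 2 + n 3 + n 4 := by
    change ∑ x : Fin 5, n x = _
    rw [Fin.sum_univ_five]
    rfl
  rw [h6] at hn
  have e1 := h5 1
  have e2 := h5 2
  have e3 := h5 3
  have e4 := h5 4
  have h0 : n 0 % 4 = 0 := by omega
  refine ⟨?_, ?_⟩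
  · by_contra hcon
    push Not at hcon
    have f0 := hcon 0
    have f1 := hcon 1
    have f2 := hcon 2
    have f3 := hcon 3
    have f4 := hcon 4
    omega
  · intro x
    have h7 := h5 x
    have h8 := h1 x
    omega

/-- A function whose multiplicities on `A` (4 elements) are multiples of 4 is constant. -/
theorem const_of (A : Finset (Fin 40)) (hA : A.card = 4) (G : Fin 40 → ZMod 5)
    (h : ∃ x, (A.filter fun j => G j = x).card = 4) : ∀ j ∈ A, ∀ j' ∈ A, G j = G j' := by
  obtain ⟨x, hx⟩ := h
  have h1 : A.filter (fun j => G j = x) = A :=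
    Finset.eq_of_subset_of_card_le (Finset.filter_subset _ _) (by rw [hx, hA])
  have h2 : ∀ j ∈ A, G j = x := fun j hj => by
    rw [← h1, Finset.mem_filter] at hj
    exact hj.2
  intro j hj j' hj'
  rw [h2 j hj, h2 j' hj']

theorem sum_count (A : Finset (Fin 40)) (G : Fin 40 → ZMod 5) :
    ∑ x : ZMod 5, (A.filter fun j => G j = x).card = A.card :=
  (Finset.card_eq_sum_card_fiberwise (fun j _ => by simp)).symm

theorem count_split {A C : Finset (Fin 40)} (hAC : A ⊆ C) (p : Fin 40 → Prop)
    [DecidablePred p] :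
    (C.filter p).card = (A.filter p).card + ((C \ A).filter p).card := by
  rw [← Finset.card_union_of_disjoint]
  · rw [← Finset.filter_union, Finset.union_sdiff_of_subset hAC]
  · exact Finset.disjoint_filter_filter Finset.disjoint_sdiff

/-- Step (3). -/
theorem step3 {A C : Finset (Fin 40)} (hAC : A ⊆ C) (hA : A.card = 4) (hC : C.card = 8)
    (G G1 : Fin 40 → ZMod 5) (a b : ZMod 5) (hab : a ≠ b) (h1 : ∀ j ∈ A, G1 j = a)
    (h2 : ∀ j ∈ C \ A, G1 j = b) (hG : ∀ x, 4 ∣ (C.filter fun j => G j = x).card)
    (hGG : ∀ x, 4 ∣ (C.filter fun j => G j - G1 j = x).card) :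
    (∀ j ∈ A, ∀ j' ∈ A, G j = G j') ∧ (∀ j ∈ C \ A, ∀ j' ∈ C \ A, G j = G j') := by
  have hA' : (C \ A).card = 4 := by
    rw [Finset.card_sdiff_of_subset hAC, hA, hC]
  have e1 : ∀ y, (A.filter fun j => G j - G1 j = y).card
      = (A.filter fun j => G j = y + a).card := by
    intro y
    congr 1
    refine Finset.filter_congr fun j hj => ?_
    rw [h1 j hj, sub_eq_iff_eq_add]
  have e2 : ∀ y, ((C \ A).filter fun j => G j - G1 j = y).card
      = ((C \ A).filter fun j => G j = y + b).card := by
    intro y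
    congr 1
    refine Finset.filter_congr fun j hj => ?_
    rw [h2 j hj, sub_eq_iff_eq_add]
  obtain ⟨h3, h4⟩ := arith (fun x => (A.filter fun j => G j = x).card)
    (fun x => ((C \ A).filter fun j => G j = x).card) a b hab
    (by rw [sum_count, hA])
    (fun x => by rw [← count_split hAC]; exact hG x)
    (fun y => by
      have := hGG y
      rw [count_split hAC, e1, e2] at this
      exact this)
  refine ⟨const_of A hA G h3, const_of (C \ A) hA' G ?_⟩
  by_contra hcon
  push Not at hcon
  have h5 : ∀ x, ((C \ A).filter fun j => G j = x).card = 0 := by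
    intro x
    have h6 := h4 x
    have h7 := hcon x
    have h8 := Finset.card_le_card (Finset.filter_subset (fun j => G j = x) (C \ A))
    rw [hA'] at h8
    omega
  have h9 := sum_count (C \ A) G
  rw [Finset.sum_eq_zero fun x _ => h5 x, hA'] at h9
  omega

/-- Two values on a set of 8 elements. -/
theorem two_values {C : Finset (Fin 40)} (hC : C.card = 8) (G : Fin 40 → ZMod 5)
    (hG : ∀ x, 4 ∣ (C.filter fun j => G j = x).card) {j j' : Fin 40} (hj : j ∈ C) (hj' : j' ∈ C)
    (hne : G j ≠ G j') :
    (C.filter fun k => G k = G j).card = 4 ∧ (C.filter fun k => G k = G j').card = 4 ∧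
      ∀ k ∈ C \ (C.filter fun k => G k = G j), G k = G j' := by
  have h1 : 0 < (C.filter fun k => G k = G j).card :=
    Finset.card_pos.2 ⟨j, Finset.mem_filter.2 ⟨hj, rfl⟩⟩
  have h2 : 0 < (C.filter fun k => G k = G j').card :=
    Finset.card_pos.2 ⟨j', Finset.mem_filter.2 ⟨hj', rfl⟩⟩
  have h3 : (C.filter fun k => G k = G j).card + (C.filter fun k => G k = G j').card ≤ 8 := by
    rw [← Finset.card_union_of_disjoint, ← hC]
    · exact Finset.card_le_card (Finset.union_subset (Finset.filter_subset _ _)
        (Finset.filter_subset _ _))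
    · rw [Finset.disjoint_filter]
      intro k _ h h'
      exact hne (h.symm.trans h')
  have h4 := hG (G j)
  have h5 := hG (G j')
  have h6 : (C.filter fun k => G k = G j).card = 4 := by omega
  have h7 : (C.filter fun k => G k = G j').card = 4 := by omega
  refine ⟨h6, h7, ?_⟩
  have h8 : (C.filter fun k => G k = G j') = C \ (C.filter fun k => G k = G j) := by
    refine Finset.eq_of_subset_of_card_le ?_ ?_
    · intro k hk
      rw [Finset.mem_filter] at hk
      rw [Finset.mem_sdiff, Finset.mem_filter]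
      exact ⟨hk.1, fun h => hne (h.2.symm.trans hk.2)⟩
    · rw [Finset.card_sdiff_of_subset (Finset.filter_subset _ _), h6, h7, hC]
  intro k hk
  rw [← h8, Finset.mem_filter] at hk
  exact hk.2

/-- At least three coincidences. -/
theorem three_pairs (B B' : Finset (Fin 40)) (hB : B.card = 4) (hB' : B'.card = 4)
    (y : Fin 40 → ZMod 5) (h1 : ∀ i ∈ B, ∀ i' ∈ B, y i = y i' → i = i')
    (h2 : ∀ i ∈ B', ∀ i' ∈ B', y i = y i' → i = i') :
    3 ≤ ((B ×ˢ B').filter fun p => y p.1 = y p.2).card := by
  classical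
  have h3 : (B.image y).card = 4 := by
    rw [Finset.card_image_of_injOn, hB]
    intro i hi i' hi' h
    exact h1 i hi i' hi' h
  have h4 : (B'.image y).card = 4 := by
    rw [Finset.card_image_of_injOn, hB']
    intro i hi i' hi' h
    exact h2 i hi i' hi' h
  have h5 : (B.image y ∪ B'.image y).card ≤ 5 := by
    have := Finset.card_le_univ (B.image y ∪ B'.image y)
    rwa [ZMod.card] at this
  have h6 := Finset.card_union_add_card_inter (B.image y) (B'.image y)
  have h7 : 3 ≤ (B.image y ∩ B'.image y).card := by omega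
  refine h7.trans ?_
  have h8 : B.image y ∩ B'.image y
      ⊆ ((B ×ˢ B').filter fun p => y p.1 = y p.2).image fun p => y p.1 := by
    intro x hx
    rw [Finset.mem_inter, Finset.mem_image, Finset.mem_image] at hx
    obtain ⟨⟨i, hi, h9⟩, ⟨i', hi', h10⟩⟩ := hx
    rw [Finset.mem_image]
    refine ⟨(i, i'), ?_, h9⟩
    rw [Finset.mem_filter, Finset.mem_product]
    exact ⟨⟨hi, hi'⟩, h9.trans h10.symm⟩
  exact (Finset.card_le_card h8).trans Finset.card_image_le

end O4F8

open O4F8 in
theorem o4f8 : St_o4f8 := by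
  intro E hE σ τ hσ hτ hinv hf1 hf2
  classical
  have hinv2 : ∀ i j, E ((σ ^ 2) i) ((τ ^ 2) j) = E i j := fun i j => Det.inv_pow hinv 2 i j
  have hg1 : (univ.filter fun j => τ j = j).card = 8 := by rw [← card_fixed_eq hE hinv]; exact hf1
  have hg2 : (univ.filter fun j => (τ ^ 2) j = j).card = 8 := by
    rw [← card_fixed_eq hE hinv2]; exact hf2
  have hfix : ∀ ρ : Perm (Fin 40), (univ.filter fun j => ρ j = j).card = 8 →
      (univ.filter fun j => (ρ ^ 2) j = j).card = 8 → ∀ j, (ρ ^ 2) j = j → ρ j = j := by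
    intro ρ h1 h2 j hj
    have h3 : (univ.filter fun j => ρ j = j) = univ.filter fun j => (ρ ^ 2) j = j := by
      refine Finset.eq_of_subset_of_card_le ?_ (by rw [h1, h2])
      intro k hk
      rw [Finset.mem_filter] at hk ⊢
      exact ⟨hk.1, Det.sq_fix hk.2⟩
    have h4 : j ∈ univ.filter fun j => (ρ ^ 2) j = j := Finset.mem_filter.2 ⟨Finset.mem_univ _, hj⟩
    rw [← h3, Finset.mem_filter] at h4
    exact h4.2
  have hσf := hfix σ hf1 hf2
  have hτf := hfix τ hg1 hg2
  set R0 := univ.filter fun i => σ i = i with hR0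
  set C0 := univ.filter fun j => τ j = j with hC0
  have mR : ∀ i, i ∈ R0 ↔ σ i = i := fun i => by simp [hR0]
  have mC : ∀ i, i ∈ C0 ↔ τ i = i := fun i => by simp [hC0]
  have rowInv : ∀ i ∈ R0, ∀ j, E i (τ j) = E i j := by
    intro i hi j
    have := hinv i j
    rw [(mR i).1 hi] at this
    exact this
  have colInv : ∀ j ∈ C0, ∀ i, E (σ i) j = E i j := by
    intro j hj i
    have := hinv i j
    rw [(mC j).1 hj] at this
    exact this
  -- multiplicities
  have multR : ∀ i ∈ R0, ∀ i' ∈ R0, i ≠ i' → ∀ x,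
      4 ∣ (C0.filter fun j => E i j - E i' j = x).card := by
    intro i hi i' hi' hne x
    exact mult_fix hτ hτf (fun j => E i j - E i' j)
      (fun j => by simp only [rowInv i hi, rowInv i' hi']) x (hE i i' hne x)
  have multC : ∀ j ∈ C0, ∀ j' ∈ C0, j ≠ j' → ∀ x,
      4 ∣ (R0.filter fun i => E i j - E i j' = x).card := by
    intro j hj j' hj' hne x
    exact mult_fix hσ hσf (fun i => E i j - E i j')
      (fun i => by simp only [colInv j hj, colInv j' hj']) x (hE.transpose j j' hne x)
  -- no value is used nine times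
  have nine : ∀ i i' : Fin 40, i ≠ i' → ∀ c : ZMod 5, (∀ j ∈ C0, E i j - E i' j = c) →
      ∀ j ∉ C0, E i j - E i' j ≠ c := by
    intro i i' hne c hc j hj h
    have h1 : insert j C0 ⊆ univ.filter fun k => E i k - E i' k = c := by
      intro k hk
      rw [Finset.mem_insert] at hk
      rw [Finset.mem_filter]
      refine ⟨Finset.mem_univ _, ?_⟩
      rcases hk with rfl | hk
      · exact h
      · exact hc k hk
    have h2 := Finset.card_le_card h1
    rw [Finset.card_insert_of_notMem hj, hg1, hE i i' hne c] at h2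
    omega
  have hout : ∃ j, j ∉ C0 := by
    by_contra hcon
    push Not at hcon
    have h1 : C0 = univ := Finset.eq_univ_of_forall hcon
    rw [h1] at hg1
    simp at hg1
  -- step (1)
  have step1 : ∃ i0 ∈ R0, ∃ i1 ∈ R0, ∃ j ∈ C0, ∃ j' ∈ C0, E i1 j - E i0 j ≠ E i1 j' - E i0 j' := by
    by_contra hcon
    push Not at hcon
    obtain ⟨j, hj⟩ := hout
    obtain ⟨j0, hj0⟩ : C0.Nonempty := by rw [← Finset.card_pos, hg1]; norm_num
    have hinj : Set.InjOn (fun i => E i j - E i j0) (R0 : Set (Fin 40)) := by
      intro i hi i' hi' h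
      by_contra hne
      refine nine i i' hne (E i j0 - E i' j0)
        (fun k hk => hcon i' hi' i hi k hk j0 hj0) j hj ?_
      simp only at h
      linear_combination h
    have h1 := Finset.card_image_of_injOn hinj
    rw [hf1] at h1
    have h2 := Finset.card_le_univ (R0.image fun i => E i j - E i j0)
    rw [ZMod.card] at h2
    omega
  obtain ⟨i0, hi0, i1, hi1, ja, hja, jb, hjb, hne⟩ := step1
  have hne01 : i1 ≠ i0 := by
    rintro rfl
    exact hne (by ring)
  set G1 : Fin 40 → ZMod 5 := fun j => E i1 j - E i0 j with hG1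
  obtain ⟨hA4, -, hAb⟩ := two_values hg1 G1 (multR i1 hi1 i0 hi0 hne01) hja hjb hne
  set A := C0.filter fun k => G1 k = G1 ja with hA
  have hAC : A ⊆ C0 := Finset.filter_subset _ _
  have hA4' : (C0 \ A).card = 4 := by rw [Finset.card_sdiff_of_subset hAC, hA4, hg1]
  have hjaA : ja ∈ A := Finset.mem_filter.2 ⟨hja, rfl⟩
  have hjbA : jb ∈ C0 \ A := by
    rw [Finset.mem_sdiff]
    exact ⟨hjb, fun h => hne (Finset.mem_filter.1 h).2.symm⟩
  -- step (3)
  have step3' : ∀ i ∈ R0, (∀ j ∈ A, E i j - E i0 j = E i ja - E i0 ja) ∧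
      (∀ j ∈ C0 \ A, E i j - E i0 j = E i jb - E i0 jb) := by
    intro i hi
    by_cases h0 : i = i0
    · subst h0
      exact ⟨fun j _ => by ring, fun j _ => by ring⟩
    · by_cases h1 : i = i1
      · subst h1
        exact ⟨fun j hj => (Finset.mem_filter.1 hj).2, fun j hj => hAb j hj⟩
      · obtain ⟨h2, h3⟩ := step3 hAC hA4 hg1 (fun j => E i j - E i0 j) G1 (G1 ja) (G1 jb) hne
          (fun j hj => (Finset.mem_filter.1 hj).2) (fun j hj => hAb j hj)
          (multR i hi i0 hi0 h0) (fun x => by
            have := multR i hi i1 hi1 h1 x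
            have e1 : (C0.filter fun j => E i j - E i0 j - G1 j = x)
                = C0.filter fun j => E i j - E i1 j = x := by
              refine Finset.filter_congr fun j _ => ?_
              rw [hG1]
              constructor
              · intro h; rw [← h]; ring
              · intro h; rw [← h]; ring
            rw [e1]
            exact this)
        exact ⟨fun j hj => h2 j hj ja hjaA, fun j hj => h3 j hj jb hjbA⟩
  -- step (4)
  set β : Fin 40 → ZMod 5 := fun i => E i jb - E i0 jb with hβ
  set d : Fin 40 → ZMod 5 := fun i => E i ja - E i jb with hd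
  have hjab : ja ≠ jb := by
    rintro rfl
    exact hne rfl
  have hd01 : d i0 ≠ d i1 := by
    intro h
    apply hne
    simp only [hd] at h
    linear_combination -h
  obtain ⟨hB4, hB4', -⟩ := two_values hf1 d (multC ja hja jb hjb hjab) hi0 hi1 hd01
  set B := R0.filter fun k => d k = d i0 with hB
  set B' := R0.filter fun k => d k = d i1 with hB'
  -- within a block the difference is constant on all of `C0`
  have block : ∀ i ∈ R0, ∀ i' ∈ R0, d i = d i' → ∀ j ∈ C0, E i j - E i' j = β i - β i' := by
    intro i hi i' hi' hdd j hj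
    by_cases hjA : j ∈ A
    · have h1 := (step3' i hi).1 j hjA
      have h2 := (step3' i' hi').1 j hjA
      simp only [hd] at hdd
      simp only [hβ]
      linear_combination h1 - h2 + hdd
    · have hj' : j ∈ C0 \ A := Finset.mem_sdiff.2 ⟨hj, hjA⟩
      have h1 := (step3' i hi).2 j hj'
      have h2 := (step3' i' hi').2 j hj'
      simp only [hβ]
      linear_combination h1 - h2
  have inj : ∀ i ∈ R0, ∀ i' ∈ R0, d i = d i' → ∀ j ∉ C0, E i j - β i = E i' j - β i' → i = i' := by
    intro i hi i' hi' hdd j hj h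
    by_contra hne'
    refine nine i i' hne' (β i - β i') (block i hi i' hi' hdd) j hj ?_
    linear_combination h
  -- step (5)
  have lower : 3 * 32 ≤ ∑ j ∈ univ \ C0,
      ((B ×ˢ B').filter fun p => E p.1 j - β p.1 = E p.2 j - β p.2).card := by
    have h1 : (univ \ C0).card = 32 := by
      rw [Finset.card_sdiff_of_subset (Finset.subset_univ _), hg1]
      simp
    have h2 : ∀ j ∈ univ \ C0, 3 ≤
        ((B ×ˢ B').filter fun p => E p.1 j - β p.1 = E p.2 j - β p.2).card := by
      intro j hj
      have hj' : j ∉ C0 := (Finset.mem_sdiff.1 hj).2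
      refine three_pairs B B' hB4 hB4' (fun i => E i j - β i) ?_ ?_
      · intro i hi i' hi' h
        rw [hB, Finset.mem_filter] at hi hi'
        exact inj i hi.1 i' hi'.1 (hi.2.trans hi'.2.symm) j hj' h
      · intro i hi i' hi' h
        rw [hB', Finset.mem_filter] at hi hi'
        exact inj i hi.1 i' hi'.1 (hi.2.trans hi'.2.symm) j hj' h
    have h3 := Finset.card_nsmul_le_sum (univ \ C0) _ 3 h2
    rw [h1, smul_eq_mul] at h3
    omega
  have upper : ∑ j ∈ univ \ C0,
      ((B ×ˢ B').filter fun p => E p.1 j - β p.1 = E p.2 j - β p.2).card ≤ 16 * 4 := by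
    have h1 : ∑ j ∈ univ \ C0,
        ((B ×ˢ B').filter fun p => E p.1 j - β p.1 = E p.2 j - β p.2).card
        = ∑ p ∈ B ×ˢ B', ((univ \ C0).filter fun j => E p.1 j - β p.1 = E p.2 j - β p.2).card := by
      simp only [Finset.card_filter]
      rw [Finset.sum_comm]
    rw [h1]
    have h2 : ∀ p ∈ B ×ˢ B',
        ((univ \ C0).filter fun j => E p.1 j - β p.1 = E p.2 j - β p.2).card ≤ 4 := by
      rintro ⟨i, i'⟩ hp
      have hpB : i ∈ B := (Finset.mem_product.1 hp).1
      have hpB' : i' ∈ B' := (Finset.mem_product.1 hp).2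
      rw [hB, Finset.mem_filter] at hpB
      rw [hB', Finset.mem_filter] at hpB'
      obtain ⟨hi, hdi⟩ := hpB
      obtain ⟨hi', hdi'⟩ := hpB'
      change d i = d i0 at hdi
      change d i' = d i1 at hdi'
      have hii : i ≠ i' := by
        rintro rfl
        exact hd01 (hdi.symm.trans hdi')
      have h3 : ((univ \ C0).filter fun j => E i j - β i = E i' j - β i') ∪ (C0 \ A)
          ⊆ univ.filter fun j => E i j - E i' j = β i - β i' := by
        intro j hj
        refine Finset.mem_filter.2 ⟨Finset.mem_univ _, ?_⟩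
        rcases Finset.mem_union.1 hj with hj | hj
        · have h4 := (Finset.mem_filter.1 hj).2
          linear_combination h4
        · have h4 := (step3' i hi).2 j hj
          have h5 := (step3' i' hi').2 j hj
          simp only [hβ]
          linear_combination h4 - h5
      have h4 := Finset.card_le_card h3
      rw [Finset.card_union_of_disjoint, hA4', hE i i' hii] at h4
      · simp only
        omega
      · rw [Finset.disjoint_left]
        intro j hj hj'
        rw [Finset.mem_filter, Finset.mem_sdiff] at hj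
        exact hj.1.2 (Finset.mem_sdiff.1 hj').1
    have h3 := Finset.sum_le_card_nsmul (B ×ˢ B') _ 4 h2
    rw [Finset.card_product, hB4, hB4', smul_eq_mul] at h3
    omega
  omega

end Pool.Agent.GH5
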